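import Pool.Agent.U982.N15595.X8

set_option autoImplicit false
set_option maxRecDepth 100000
set_option exponentiation.threshold 1000000000

namespace Pool.Agent.U982.N15595

open Pool.Agent.U982.DK PowerSeries
open Pool.Agent.X40.SQ (EV newton mask)

/-- the inverse of the last denominator -/
noncomputable def Iv : {x : ℕ // Nat.land (newton D8.1 8192 29677 15 1) (mask 243113984) = x} := by
  refine ⟨?x, ?h⟩
  rotate_left
  conv_lhs => whnf

theorem ki : Nat.beq (Nat.land (Nat.mul Iv.1 D8.1) (mask 243113984)) 1 = true := by decide +kernel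

/-- the leaves -/
noncomputable def g8 : T → ℕ → Bool := leafgo 8192 29677 243113984 Iv.1

/-- the nodes at depth 7 -/
noncomputable def g7 : T → ℕ → Bool := node 4096 243113984 O7.1 OO7.1 M7.1 E7.1 F7.1 g8

end Pool.Agent.U982.N15595
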