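import Pool.Agent.U982.DK.Chain

set_option autoImplicit false
set_option maxRecDepth 100000
set_option exponentiation.threshold 1000000000

namespace Pool.Agent.U982.N15595

open Pool.Agent.U982.DK PowerSeries
open Pool.Agent.X40.SQ (EV newton mask)

/-- the value of the pentagonal series -/
noncomputable def D0 : {x : ℕ // EV 32 7597312 11 = x} := by
  refine ⟨?x, ?h⟩
  rotate_left
  conv_lhs => whnf

/-- offset -/
noncomputable def O0 : {x : ℕ // fO 32 243113984 = x} := by
  refine ⟨?x, ?h⟩
  rotate_left
  conv_lhs => whnf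

/-- double offset -/
noncomputable def OO0 : {x : ℕ // fOO 32 O0.1 = x} := by
  refine ⟨?x, ?h⟩
  rotate_left
  conv_lhs => whnf

/-- digit mask -/
noncomputable def M0 : {x : ℕ // fM 32 243113984 = x} := by
  refine ⟨?x, ?h⟩
  rotate_left
  conv_lhs => whnf

/-- even part of the denominator -/
noncomputable def E0 : {x : ℕ // fE 243113984 O0.1 OO0.1 M0.1 D0.1 = x} := by
  refine ⟨?x, ?h⟩
  rotate_left
  conv_lhs => whnf

/-- odd part of the denominator -/
noncomputable def F0 : {x : ℕ // fF 32 243113984 O0.1 OO0.1 M0.1 D0.1 = x} := by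
  refine ⟨?x, ?h⟩
  rotate_left
  conv_lhs => whnf


end Pool.Agent.U982.N15595
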