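import Pool.Agent.U982.N15595.X3

set_option autoImplicit false
set_option maxRecDepth 100000
set_option exponentiation.threshold 1000000000

namespace Pool.Agent.U982.N15595

open Pool.Agent.U982.DK PowerSeries
open Pool.Agent.X40.SQ (EV newton mask)

/-- offset -/
noncomputable def O3 : {x : ℕ // fO 256 243113984 = x} := by
  refine ⟨?x, ?h⟩
  rotate_left
  conv_lhs => whnf

/-- double offset -/
noncomputable def OO3 : {x : ℕ // fOO 256 O3.1 = x} := by
  refine ⟨?x, ?h⟩
  rotate_left
  conv_lhs => whnf

/-- digit mask -/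
noncomputable def M3 : {x : ℕ // fM 256 243113984 = x} := by
  refine ⟨?x, ?h⟩
  rotate_left
  conv_lhs => whnf

/-- even part of the denominator -/
noncomputable def E3 : {x : ℕ // fE 243113984 O3.1 OO3.1 M3.1 D3.1 = x} := by
  refine ⟨?x, ?h⟩
  rotate_left
  conv_lhs => whnf

/-- odd part of the denominator -/
noncomputable def F3 : {x : ℕ // fF 256 243113984 O3.1 OO3.1 M3.1 D3.1 = x} := by
  refine ⟨?x, ?h⟩
  rotate_left
  conv_lhs => whnf


end Pool.Agent.U982.N15595
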