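import Pool.Agent.U982.N15595.X4

set_option autoImplicit false
set_option maxRecDepth 100000
set_option exponentiation.threshold 1000000000

namespace Pool.Agent.U982.N15595

open Pool.Agent.U982.DK PowerSeries
open Pool.Agent.X40.SQ (EV newton mask)

/-- offset -/
noncomputable def O4 : {x : ℕ // fO 512 243113984 = x} := by
  refine ⟨?x, ?h⟩
  rotate_left
  conv_lhs => whnf

/-- double offset -/
noncomputable def OO4 : {x : ℕ // fOO 512 O4.1 = x} := by
  refine ⟨?x, ?h⟩
  rotate_left
  conv_lhs => whnf

/-- digit mask -/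
noncomputable def M4 : {x : ℕ // fM 512 243113984 = x} := by
  refine ⟨?x, ?h⟩
  rotate_left
  conv_lhs => whnf

/-- even part of the denominator -/
noncomputable def E4 : {x : ℕ // fE 243113984 O4.1 OO4.1 M4.1 D4.1 = x} := by
  refine ⟨?x, ?h⟩
  rotate_left
  conv_lhs => whnf

/-- odd part of the denominator -/
noncomputable def F4 : {x : ℕ // fF 512 243113984 O4.1 OO4.1 M4.1 D4.1 = x} := by
  refine ⟨?x, ?h⟩
  rotate_left
  conv_lhs => whnf


end Pool.Agent.U982.N15595
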