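import Pool.Agent.U982.DK.Chain

set_option autoImplicit false
set_option maxRecDepth 100000
set_option exponentiation.threshold 1000000000

namespace Pool.Agent.U982.N15595

open Pool.Agent.U982.DK PowerSeries
open Pool.Agent.X40.SQ (EV newton mask)

/-- the first numerator -/
noncomputable def P0_0 : {x : ℕ // EV (Nat.mul 2 32) (Nat.div 7597312 2) 11 = x} := by
  refine ⟨?x, ?h⟩
  rotate_left
  conv_lhs => whnf


end Pool.Agent.U982.N15595
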