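import Pool.Agent.U982.N15595.L6
import Pool.Agent.U982.N15595.N6_0

set_option autoImplicit false
set_option maxRecDepth 100000
set_option exponentiation.threshold 1000000000

namespace Pool.Agent.U982.N15595

open Pool.Agent.U982.DK PowerSeries
open Pool.Agent.X40.SQ (EV newton mask)

/-- a numerator -/
noncomputable def P7_0 : {x : ℕ // fQ 2048 243113984 O6.1 OO6.1 M6.1 E6.1 F6.1 P6_0.1 = x} := by
  refine ⟨?x, ?h⟩
  rotate_left
  conv_lhs => whnf

/-- a numerator -/
noncomputable def P7_64 : {x : ℕ // fR 2048 243113984 O6.1 OO6.1 M6.1 E6.1 F6.1 P6_0.1 = x} := by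
  refine ⟨?x, ?h⟩
  rotate_left
  conv_lhs => whnf


end Pool.Agent.U982.N15595
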