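import Pool.Agent.U982.DK.Chain

set_option autoImplicit false
set_option maxRecDepth 100000
set_option exponentiation.threshold 1000000000

namespace Pool.Agent.U982.N15595

open Pool.Agent.U982.DK PowerSeries
open Pool.Agent.X40.SQ (EV newton mask)

open T

/-- the values congruent to 0 modulo 128 -/
noncomputable def x0 : T := T.nd (T.lf (K.s 11310 (K.s 6699 (K.s 3675 (K.s 1932 (K.s 1134 (K.s 644 (K.s 371 (K.s 230 (K.s 120 (K.s 81 (K.s 45 K.z K.t) K.t) (K.s 15 K.t K.t)) (K.s 10 (K.s 1 K.t K.t) (K.s 51 K.t (K.s 33 K.t K.t)))) (K.s 79 (K.s 69 (K.s 34 K.t K.t) (K.s 1 K.t K.t)) (K.s 75 (K.s 30 K.t K.t) (K.s 15 K.t (K.s 85 K.t K.t))))) (K.s 166 (K.s 92 (K.s 58 (K.s 52 K.t K.t) (K.s 18 K.t K.t)) (K.s 29 (K.s 2 K.t K.t) (K.s 5 K.t (K.s 25 K.t K.t)))) (K.s 135 (K.s 45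 (K.s 9 K.t K.t) (K.s 15 K.t (K.s 30 K.t K.t))) (K.s 90 (K.s 63 K.t K.t) (K.s 15 K.t (K.s 30 K.t K.t)))))) (K.s 366 (K.s 186 (K.s 131 (K.s 81 (K.s 6 K.t K.t) (K.s 45 K.t K.t)) (K.s 13 (K.s 10 K.t K.t) (K.s 12 K.t (K.s 15 K.t K.t)))) (K.s 66 (K.s 30 (K.s 3 K.t K.t) (K.s 25 K.t (K.s 5 K.t K.t))) (K.s 48 (K.s 33 K.t K.t) (K.s 16 K.t (K.s 35 K.t K.t))))) (K.s 201 (K.s 90 (K.s 60 (K.s 11 K.t K.t) (K.s 22 K.t K.t)) (K.s 30 (K.s 12 K.t K.t) (K.s 18 K.t (K.s 18 K.t K.t)))) (K.s 99 (K.s 42 (K.s 39 K.t K.t) (K.s 12 K.t (K.s 30 K.t K.t))) (K.s 48 (K.s 36 K.t K.t) (K.s 42 K.t (K.s 27 K.t K.t))))))) (K.s 882 (K.s 476 (K.s 210 (K.s 93 (K.s 48 (K.s 15 K.t K.t) (K.s 12 K.t K.t)) (K.s 54 (K.s 9 K.t K.t) (K.s 9 K.t (K.s 51 K.t K.t)))) (K.s 99 (K.s 18 (K.s 3 K.t K.t) (K.s 63 K.t K.t))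 (K.s 39 (K.s 24 K.t K.t) (K.s 60 K.t (K.s 36 K.t K.t))))) (K.s 217 (K.s 82 (K.s 42 (K.s 22 K.t K.t) (K.s 5 K.t K.t)) (K.s 60 (K.s 30 K.t K.t) (K.s 15 K.t (K.s 35 K.t K.t)))) (K.s 156 (K.s 120 (K.s 75 K.t K.t) (K.s 27 K.t (K.s 3 K.t K.t))) (K.s 24 (K.s 18 K.t K.t) (K.s 1 K.t (K.s 2 K.t K.t)))))) (K.s 486 (K.s 261 (K.s 102 (K.s 36 (K.s 21 K.t K.t) (K.s 30 K.t K.t)) (K.s 10 (K.s 9 K.t K.t) (K.s 98 K.t (K.s 1 K.t K.t)))) (K.s 75 (K.s 45 (K.s 30 K.t K.t) (K.s 12 K.t (K.s 12 K.t K.t))) (K.s 90 (K.s 18 K.t K.t) (K.s 18 K.t (K.s 9 K.t K.t))))) (K.s 180 (K.s 90 (K.s 50 (K.s 15 K.t K.t) (K.s 25 K.t K.t)) (K.s 54 (K.s 5 K.t K.t) (K.s 12 K.t (K.s 9 K.t K.t)))) (K.s 105 (K.s 39 (K.s 30 K.t K.t) (K.s 41 K.t (K.s 10 K.t K.t))) (K.s 45 (K.s 15 K.t K.t) (K.s 15 K.t (K.s 15 K.t K.t))))))))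 (K.s 1500 (K.s 875 (K.s 465 (K.s 225 (K.s 109 (K.s 69 (K.s 15 K.t K.t) (K.s 36 K.t K.t)) (K.s 23 (K.s 11 K.t K.t) (K.s 43 K.t (K.s 38 K.t K.t)))) (K.s 125 (K.s 96 (K.s 69 K.t K.t) (K.s 4 K.t K.t)) (K.s 25 (K.s 7 K.t K.t) (K.s 27 K.t (K.s 54 K.t K.t))))) (K.s 210 (K.s 60 (K.s 36 (K.s 18 K.t K.t) (K.s 9 K.t K.t)) (K.s 77 (K.s 30 K.t K.t) (K.s 13 K.t (K.s 30 K.t K.t)))) (K.s 96 (K.s 18 (K.s 15 K.t K.t) (K.s 7 K.t (K.s 25 K.t K.t))) (K.s 54 (K.s 9 K.t K.t) (K.s 15 K.t (K.s 21 K.t K.t)))))) (K.s 304 (K.s 169 (K.s 70 (K.s 35 (K.s 4 K.t K.t) (K.s 32 K.t K.t)) (K.s 30 (K.s 24 K.t K.t) (K.s 48 K.t (K.s 6 K.t K.t)))) (K.s 81 (K.s 12 (K.s 6 K.t K.t) (K.s 25 K.t (K.s 32 K.t K.t))) (K.s 33 (K.s 30 K.t K.t) (K.s 12 K.t (K.s 6 K.t K.t))))) (K.s 171 (K.s 96 (K.s 18 (K.s 6 K.t K.t)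 (K.s 24 K.t K.t)) (K.s 30 (K.s 18 K.t K.t) (K.s 12 K.t (K.s 3 K.t K.t)))) (K.s 90 (K.s 24 (K.s 15 K.t K.t) (K.s 11 K.t (K.s 10 K.t K.t))) (K.s 42 (K.s 15 K.t K.t) (K.s 3 K.t (K.s 6 K.t K.t))))))) (K.s 782 (K.s 360 (K.s 198 (K.s 105 (K.s 72 (K.s 54 K.t K.t) (K.s 3 K.t K.t)) (K.s 30 (K.s 12 K.t K.t) (K.s 27 K.t (K.s 9 K.t K.t)))) (K.s 47 (K.s 18 (K.s 9 K.t K.t) (K.s 9 K.t K.t)) (K.s 40 (K.s 25 K.t K.t) (K.s 30 K.t (K.s 18 K.t K.t))))) (K.s 177 (K.s 57 (K.s 15 (K.s 9 K.t K.t) (K.s 39 K.t K.t)) (K.s 18 (K.s 8 K.t K.t) (K.s 15 K.t (K.s 45 K.t K.t)))) (K.s 120 (K.s 34 (K.s 21 K.t K.t) (K.s 14 K.t (K.s 36 K.t K.t))) (K.s 51 (K.s 18 K.t K.t) (K.s 27 K.t (K.s 30 K.t K.t)))))) (K.s 379 (K.s 185 (K.s 78 (K.s 43 (K.s 18 K.t K.t) (K.s 27 K.t K.t)) (K.s 40 (K.s 37 K.t K.t) (K.s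 15 K.t (K.s 21 K.t K.t)))) (K.s 98 (K.s 32 (K.s 18 K.t K.t) (K.s 36 K.t (K.s 27 K.t K.t))) (K.s 30 (K.s 15 K.t K.t) (K.s 30 K.t (K.s 25 K.t K.t))))) (K.s 139 (K.s 44 (K.s 21 (K.s 9 K.t K.t) (K.s 3 K.t K.t)) (K.s 46 (K.s 10 K.t K.t) (K.s 9 K.t (K.s 15 K.t K.t)))) (K.s 133 (K.s 45 (K.s 5 K.t K.t) (K.s 50 K.t (K.s 30 K.t K.t))) (K.s 25 (K.s 7 K.t K.t) (K.s 36 K.t (K.s 9 K.t K.t))))))))) (K.s 2517 (K.s 1251 (K.s 681 (K.s 429 (K.s 261 (K.s 126 (K.s 78 (K.s 51 K.t K.t) (K.s 3 K.t K.t)) (K.s 60 (K.s 6 K.t K.t) (K.s 30 K.t (K.s 15 K.t K.t)))) (K.s 78 (K.s 21 (K.s 15 K.t K.t) (K.s 39 K.t K.t)) (K.s 63 (K.s 62 K.t K.t) (K.s 18 K.t (K.s 6 K.t K.t))))) (K.s 148 (K.s 36 (K.s 26 (K.s 22 K.t K.t) (K.s 7 K.t K.t)) (K.s 36 (K.s 12 K.t K.t) (K.s 15 K.t (K.s 30 K.t K.t)))) (K.s 50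 (K.s 14 (K.s 4 K.t K.t) (K.s 18 K.t (K.s 9 K.t K.t))) (K.s 18 (K.s 12 K.t K.t) (K.s 6 K.t (K.s 21 K.t K.t)))))) (K.s 270 (K.s 144 (K.s 90 (K.s 45 (K.s 30 K.t K.t) (K.s 27 K.t K.t)) (K.s 27 (K.s 6 K.t K.t) (K.s 3 K.t (K.s 11 K.t K.t)))) (K.s 81 (K.s 36 (K.s 24 K.t K.t) (K.s 15 K.t (K.s 15 K.t K.t))) (K.s 21 (K.s 18 K.t K.t) (K.s 15 K.t (K.s 3 K.t K.t))))) (K.s 150 (K.s 72 (K.s 45 (K.s 36 K.t K.t) (K.s 5 K.t K.t)) (K.s 48 (K.s 6 K.t K.t) (K.s 6 K.t (K.s 18 K.t K.t)))) (K.s 75 (K.s 30 (K.s 12 K.t K.t) (K.s 27 K.t (K.s 9 K.t K.t))) (K.s 36 (K.s 9 K.t K.t) (K.s 9 K.t (K.s 18 K.t K.t))))))) (K.s 675 (K.s 300 (K.s 123 (K.s 69 (K.s 45 (K.s 25 K.t K.t) (K.s 15 K.t K.t)) (K.s 27 (K.s 9 K.t K.t) (K.s 4 K.t (K.s 14 K.t K.t)))) (K.s 117 (K.s 54 (K.s 27 K.t K.t) (K.s 27 K.t K.t))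 (K.s 18 (K.s 10 K.t K.t) (K.s 12 K.t (K.s 5 K.t K.t))))) (K.s 210 (K.s 110 (K.s 63 (K.s 30 K.t K.t) (K.s 3 K.t K.t)) (K.s 55 (K.s 40 K.t K.t) (K.s 9 K.t (K.s 15 K.t K.t)))) (K.s 80 (K.s 17 (K.s 15 K.t K.t) (K.s 15 K.t (K.s 13 K.t K.t))) (K.s 46 (K.s 10 K.t K.t) (K.s 3 K.t (K.s 24 K.t K.t)))))) (K.s 342 (K.s 159 (K.s 75 (K.s 61 (K.s 15 K.t K.t) (K.s 8 K.t K.t)) (K.s 48 (K.s 12 K.t K.t) (K.s 12 K.t (K.s 15 K.t K.t)))) (K.s 93 (K.s 36 (K.s 27 K.t K.t) (K.s 35 K.t (K.s 19 K.t K.t))) (K.s 27 (K.s 3 K.t K.t) (K.s 6 K.t (K.s 15 K.t K.t))))) (K.s 72 (K.s 33 (K.s 8 (K.s 3 K.t K.t) (K.s 13 K.t K.t)) (K.s 24 (K.s 9 K.t K.t) (K.s 6 K.t (K.s 5 K.t K.t)))) (K.s 73 (K.s 33 (K.s 9 K.t K.t) (K.s 30 K.t (K.s 6 K.t K.t))) (K.s 8 (K.s 5 K.t K.t) (K.s 15 K.t (K.s 45 K.t K.t))))))))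 (K.s 990 (K.s 534 (K.s 309 (K.s 180 (K.s 99 (K.s 18 (K.s 9 K.t K.t) (K.s 6 K.t K.t)) (K.s 45 (K.s 10 K.t K.t) (K.s 16 K.t (K.s 4 K.t K.t)))) (K.s 75 (K.s 54 (K.s 4 K.t K.t) (K.s 10 K.t K.t)) (K.s 19 (K.s 6 K.t K.t) (K.s 5 K.t (K.s 9 K.t K.t))))) (K.s 114 (K.s 45 (K.s 21 (K.s 15 K.t K.t) (K.s 8 K.t K.t)) (K.s 30 (K.s 6 K.t K.t) (K.s 30 K.t (K.s 6 K.t K.t)))) (K.s 54 (K.s 21 (K.s 11 K.t K.t) (K.s 6 K.t (K.s 9 K.t K.t))) (K.s 18 (K.s 9 K.t K.t) (K.s 9 K.t (K.s 15 K.t K.t)))))) (K.s 249 (K.s 132 (K.s 51 (K.s 8 (K.s 6 K.t K.t) (K.s 40 K.t K.t)) (K.s 39 (K.s 27 K.t K.t) (K.s 3 K.t (K.s 12 K.t K.t)))) (K.s 45 (K.s 31 (K.s 18 K.t K.t) (K.s 5 K.t (K.s 2 K.t K.t))) (K.s 48 (K.s 13 K.t K.t) (K.s 5 K.t (K.s 10 K.t K.t))))) (K.s 90 (K.s 51 (K.s 11 (K.s 6 K.t K.t) (K.s 7 K.t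 K.t)) (K.s 15 (K.s 12 K.t K.t) (K.s 5 K.t (K.s 10 K.t K.t)))) (K.s 63 (K.s 36 (K.s 9 K.t K.t) (K.s 18 K.t (K.s 7 K.t K.t))) (K.s 23 (K.s 18 K.t K.t) (K.s 4 K.t (K.s 21 K.t K.t))))))) (K.s 519 (K.s 198 (K.s 104 (K.s 45 (K.s 24 (K.s 12 K.t K.t) (K.s 10 K.t K.t)) (K.s 19 (K.s 9 K.t K.t) (K.s 5 K.t (K.s 15 K.t K.t)))) (K.s 34 (K.s 10 (K.s 8 K.t K.t) (K.s 12 K.t (K.s 3 K.t K.t))) (K.s 36 (K.s 6 K.t K.t) (K.s 15 K.t (K.s 5 K.t K.t))))) (K.s 144 (K.s 86 (K.s 45 (K.s 36 K.t K.t) (K.s 9 K.t K.t)) (K.s 10 (K.s 4 K.t K.t) (K.s 30 K.t (K.s 12 K.t K.t)))) (K.s 72 (K.s 36 (K.s 12 K.t K.t) (K.s 1 K.t (K.s 26 K.t K.t))) (K.s 72 (K.s 45 K.t K.t) (K.s 11 K.t (K.s 7 K.t K.t)))))) (K.s 300 (K.s 91 (K.s 60 (K.s 15 (K.s 3 K.t K.t) (K.s 24 K.t K.t)) (K.s 17 (K.s 15 K.t K.t) (K.s 2 K.t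 (K.s 11 K.t K.t)))) (K.s 104 (K.s 62 (K.s 59 K.t K.t) (K.s 12 K.t (K.s 9 K.t K.t))) (K.s 42 (K.s 15 K.t K.t) (K.s 38 K.t (K.s 16 K.t K.t))))) (K.s 140 (K.s 63 (K.s 25 (K.s 18 K.t K.t) (K.s 20 K.t K.t)) (K.s 27 (K.s 12 K.t K.t) (K.s 9 K.t (K.s 6 K.t K.t)))) (K.s 55 (K.s 15 (K.s 13 K.t K.t) (K.s 20 K.t (K.s 14 K.t K.t))) (K.s 30 (K.s 12 K.t K.t) (K.s 36 K.t (K.s 9 K.t K.t)))))))))) (K.s 5124 (K.s 2415 (K.s 1185 (K.s 507 (K.s 246 (K.s 138 (K.s 75 (K.s 30 (K.s 12 K.t K.t) (K.s 35 K.t K.t)) (K.s 25 (K.s 3 K.t K.t) (K.s 11 K.t (K.s 9 K.t K.t)))) (K.s 60 (K.s 27 (K.s 18 K.t K.t) (K.s 25 K.t K.t)) (K.s 21 (K.s 12 K.t K.t) (K.s 9 K.t (K.s 12 K.t K.t))))) (K.s 129 (K.s 44 (K.s 36 (K.s 27 K.t K.t) (K.s 2 K.t K.t)) (K.s 40 (K.s 25 K.t K.t) (K.s 15 K.t (K.s 6 K.t K.t)))) (K.s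 96 (K.s 45 (K.s 15 K.t K.t) (K.s 15 K.t (K.s 15 K.t K.t))) (K.s 9 (K.s 3 K.t K.t) (K.s 10 K.t (K.s 8 K.t K.t)))))) (K.s 405 (K.s 189 (K.s 71 (K.s 48 (K.s 33 K.t K.t) (K.s 15 K.t K.t)) (K.s 62 (K.s 19 K.t K.t) (K.s 29 K.t (K.s 20 K.t K.t)))) (K.s 144 (K.s 69 (K.s 2 K.t K.t) (K.s 21 K.t (K.s 48 K.t K.t))) (K.s 27 (K.s 16 K.t K.t) (K.s 3 K.t (K.s 30 K.t K.t))))) (K.s 153 (K.s 98 (K.s 63 (K.s 18 K.t K.t) (K.s 9 K.t K.t)) (K.s 5 (K.s 1 K.t K.t) (K.s 5 K.t (K.s 18 K.t K.t)))) (K.s 45 (K.s 18 (K.s 1 K.t K.t) (K.s 9 K.t (K.s 8 K.t K.t))) (K.s 36 (K.s 30 K.t K.t) (K.s 14 K.t (K.s 4 K.t K.t))))))) (K.s 546 (K.s 210 (K.s 78 (K.s 35 (K.s 5 (K.s 1 K.t K.t) (K.s 10 K.t K.t)) (K.s 10 (K.s 7 K.t K.t) (K.s 15 K.t (K.s 10 K.t K.t)))) (K.s 55 (K.s 27 (K.s 24 K.t K.t) (K.s 10 K.t K.t))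 (K.s 28 (K.s 8 K.t K.t) (K.s 16 K.t (K.s 18 K.t K.t))))) (K.s 175 (K.s 120 (K.s 35 (K.s 2 K.t K.t) (K.s 31 K.t K.t)) (K.s 27 (K.s 6 K.t K.t) (K.s 18 K.t (K.s 9 K.t K.t)))) (K.s 56 (K.s 23 (K.s 20 K.t K.t) (K.s 12 K.t (K.s 5 K.t K.t))) (K.s 39 (K.s 24 K.t K.t) (K.s 17 K.t (K.s 40 K.t K.t)))))) (K.s 279 (K.s 126 (K.s 57 (K.s 27 (K.s 9 K.t K.t) (K.s 27 K.t K.t)) (K.s 6 (K.s 3 K.t K.t) (K.s 21 K.t (K.s 27 K.t K.t)))) (K.s 57 (K.s 28 (K.s 2 K.t K.t) (K.s 5 K.t (K.s 9 K.t K.t))) (K.s 36 (K.s 6 K.t K.t) (K.s 15 K.t (K.s 9 K.t K.t))))) (K.s 210 (K.s 50 (K.s 36 (K.s 15 K.t K.t) (K.s 9 K.t K.t)) (K.s 62 (K.s 28 K.t K.t) (K.s 32 K.t (K.s 36 K.t K.t)))) (K.s 150 (K.s 78 (K.s 24 K.t K.t) (K.s 42 K.t (K.s 12 K.t K.t))) (K.s 33 (K.s 9 K.t K.t) (K.s 3 K.t (K.s 1 K.t K.t))))))))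 (K.s 1290 (K.s 693 (K.s 351 (K.s 150 (K.s 99 (K.s 45 (K.s 30 K.t K.t) (K.s 30 K.t K.t)) (K.s 27 (K.s 9 K.t K.t) (K.s 9 K.t (K.s 12 K.t K.t)))) (K.s 75 (K.s 65 (K.s 45 K.t K.t) (K.s 4 K.t K.t)) (K.s 50 (K.s 31 K.t K.t) (K.s 40 K.t (K.s 30 K.t K.t))))) (K.s 180 (K.s 98 (K.s 18 (K.s 4 K.t K.t) (K.s 63 K.t K.t)) (K.s 22 (K.s 1 K.t K.t) (K.s 24 K.t (K.s 15 K.t K.t)))) (K.s 81 (K.s 44 (K.s 24 K.t K.t) (K.s 10 K.t (K.s 9 K.t K.t))) (K.s 27 (K.s 3 K.t K.t) (K.s 36 K.t (K.s 4 K.t K.t)))))) (K.s 279 (K.s 157 (K.s 81 (K.s 37 (K.s 12 K.t K.t) (K.s 35 K.t K.t)) (K.s 21 (K.s 1 K.t K.t) (K.s 33 K.t (K.s 21 K.t K.t)))) (K.s 77 (K.s 11 (K.s 5 K.t K.t) (K.s 39 K.t (K.s 12 K.t K.t))) (K.s 27 (K.s 22 K.t K.t) (K.s 6 K.t (K.s 3 K.t K.t))))) (K.s 108 (K.s 63 (K.s 33 (K.s 3 K.t K.t) (K.s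 12 K.t K.t)) (K.s 30 (K.s 27 K.t K.t) (K.s 6 K.t (K.s 4 K.t K.t)))) (K.s 145 (K.s 45 (K.s 18 K.t K.t) (K.s 54 K.t (K.s 27 K.t K.t))) (K.s 10 (K.s 8 K.t K.t) (K.s 25 K.t (K.s 15 K.t K.t))))))) (K.s 735 (K.s 315 (K.s 231 (K.s 105 (K.s 51 (K.s 21 K.t K.t) (K.s 27 K.t K.t)) (K.s 30 (K.s 27 K.t K.t) (K.s 30 K.t (K.s 30 K.t K.t)))) (K.s 48 (K.s 9 (K.s 4 K.t K.t) (K.s 33 K.t K.t)) (K.s 15 (K.s 6 K.t K.t) (K.s 18 K.t (K.s 1 K.t K.t))))) (K.s 180 (K.s 114 (K.s 48 (K.s 42 K.t K.t) (K.s 12 K.t K.t)) (K.s 33 (K.s 26 K.t K.t) (K.s 3 K.t (K.s 18 K.t K.t)))) (K.s 60 (K.s 30 (K.s 15 K.t K.t) (K.s 3 K.t (K.s 9 K.t K.t))) (K.s 30 (K.s 12 K.t K.t) (K.s 25 K.t (K.s 35 K.t K.t)))))) (K.s 315 (K.s 150 (K.s 45 (K.s 9 (K.s 2 K.t K.t) (K.s 9 K.t K.t)) (K.s 45 (K.s 27 K.t K.t) (K.s 15 K.t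 (K.s 21 K.t K.t)))) (K.s 75 (K.s 25 (K.s 12 K.t K.t) (K.s 14 K.t (K.s 33 K.t K.t))) (K.s 15 (K.s 9 K.t K.t) (K.s 30 K.t (K.s 18 K.t K.t))))) (K.s 175 (K.s 105 (K.s 60 (K.s 35 K.t K.t) (K.s 21 K.t K.t)) (K.s 30 (K.s 15 K.t K.t) (K.s 12 K.t (K.s 6 K.t K.t)))) (K.s 95 (K.s 41 (K.s 14 K.t K.t) (K.s 29 K.t (K.s 10 K.t K.t))) (K.s 40 (K.s 27 K.t K.t) (K.s 5 K.t (K.s 27 K.t K.t))))))))) (K.s 2781 (K.s 1116 (K.s 517 (K.s 270 (K.s 166 (K.s 111 (K.s 66 (K.s 45 K.t K.t) (K.s 36 K.t K.t)) (K.s 21 (K.s 15 K.t K.t) (K.s 9 K.t (K.s 15 K.t K.t)))) (K.s 50 (K.s 17 (K.s 5 K.t K.t) (K.s 15 K.t K.t)) (K.s 30 (K.s 10 K.t K.t) (K.s 6 K.t (K.s 9 K.t K.t))))) (K.s 117 (K.s 40 (K.s 20 (K.s 16 K.t K.t) (K.s 16 K.t K.t)) (K.s 20 (K.s 17 K.t K.t) (K.s 6 K.t (K.s 30 K.t K.t)))) (K.s 63 (K.s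 27 (K.s 9 K.t K.t) (K.s 15 K.t (K.s 12 K.t K.t))) (K.s 36 (K.s 21 K.t K.t) (K.s 6 K.t (K.s 24 K.t K.t)))))) (K.s 349 (K.s 149 (K.s 41 (K.s 23 (K.s 14 K.t K.t) (K.s 9 K.t K.t)) (K.s 28 (K.s 18 K.t K.t) (K.s 8 K.t (K.s 22 K.t K.t)))) (K.s 99 (K.s 45 (K.s 20 K.t K.t) (K.s 15 K.t (K.s 32 K.t K.t))) (K.s 33 (K.s 28 K.t K.t) (K.s 8 K.t (K.s 41 K.t K.t))))) (K.s 142 (K.s 75 (K.s 40 (K.s 25 K.t K.t) (K.s 15 K.t K.t)) (K.s 40 (K.s 13 K.t K.t) (K.s 9 K.t (K.s 6 K.t K.t)))) (K.s 54 (K.s 18 (K.s 16 K.t K.t) (K.s 30 K.t (K.s 3 K.t K.t))) (K.s 18 (K.s 4 K.t K.t) (K.s 12 K.t (K.s 19 K.t K.t))))))) (K.s 818 (K.s 390 (K.s 138 (K.s 50 (K.s 30 (K.s 27 K.t K.t) (K.s 15 K.t K.t)) (K.s 40 (K.s 4 K.t K.t) (K.s 36 K.t (K.s 9 K.t K.t)))) (K.s 92 (K.s 69 (K.s 2 K.t K.t) (K.s 9 K.t K.t))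 (K.s 55 (K.s 40 K.t K.t) (K.s 29 K.t (K.s 7 K.t K.t))))) (K.s 204 (K.s 75 (K.s 42 (K.s 15 K.t K.t) (K.s 3 K.t K.t)) (K.s 110 (K.s 45 K.t K.t) (K.s 7 K.t (K.s 3 K.t K.t)))) (K.s 80 (K.s 45 (K.s 31 K.t K.t) (K.s 11 K.t (K.s 16 K.t K.t))) (K.s 46 (K.s 1 K.t K.t) (K.s 45 K.t (K.s 45 K.t K.t)))))) (K.s 382 (K.s 127 (K.s 28 (K.s 7 (K.s 1 K.t K.t) (K.s 17 K.t K.t)) (K.s 49 (K.s 48 K.t K.t) (K.s 23 K.t (K.s 18 K.t K.t)))) (K.s 180 (K.s 90 (K.s 69 K.t K.t) (K.s 5 K.t (K.s 40 K.t K.t))) (K.s 36 (K.s 15 K.t K.t) (K.s 14 K.t (K.s 10 K.t K.t))))) (K.s 258 (K.s 123 (K.s 42 (K.s 24 K.t K.t) (K.s 18 K.t K.t)) (K.s 41 (K.s 27 K.t K.t) (K.s 40 K.t (K.s 46 K.t K.t)))) (K.s 102 (K.s 27 (K.s 18 K.t K.t) (K.s 36 K.t (K.s 27 K.t K.t))) (K.s 24 (K.s 15 K.t K.t) (K.s 56 K.t (K.s 5 K.t K.t))))))))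 (K.s 4305 (K.s 1764 (K.s 675 (K.s 447 (K.s 225 (K.s 63 (K.s 12 K.t K.t) (K.s 27 K.t K.t)) (K.s 72 (K.s 14 K.t K.t) (K.s 9 K.t (K.s 114 K.t K.t)))) (K.s 92 (K.s 48 (K.s 3 K.t K.t) (K.s 30 K.t K.t)) (K.s 10 (K.s 2 K.t K.t) (K.s 6 K.t (K.s 75 K.t K.t))))) (K.s 676 (K.s 270 (K.s 60 (K.s 39 K.t K.t) (K.s 147 K.t K.t)) (K.s 225 (K.s 36 K.t K.t) (K.s 90 K.t (K.s 75 K.t K.t)))) (K.s 180 (K.s 89 (K.s 14 K.t K.t) (K.s 9 K.t (K.s 36 K.t K.t))) (K.s 74 (K.s 44 K.t K.t) (K.s 45 K.t (K.s 60 K.t K.t)))))) (K.s 1377 (K.s 567 (K.s 171 (K.s 81 (K.s 21 K.t K.t) (K.s 27 K.t K.t)) (K.s 252 (K.s 225 K.t K.t) (K.s 18 K.t (K.s 117 K.t K.t)))) (K.s 405 (K.s 189 (K.s 9 K.t K.t) (K.s 15 K.t (K.s 30 K.t K.t))) (K.s 81 (K.s 54 K.t K.t) (K.s 18 K.t (K.s 225 K.t K.t))))) (K.s 513 (K.s 324 (K.s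 144 (K.s 128 K.t K.t) (K.s 138 K.t K.t)) (K.s 90 (K.s 27 K.t K.t) (K.s 24 K.t (K.s 21 K.t K.t)))) (K.s 216 (K.s 95 (K.s 81 K.t K.t) (K.s 4 K.t (K.s 33 K.t K.t))) (K.s 154 (K.s 81 K.t K.t) (K.s 44 K.t (K.s 117 K.t K.t))))))) (K.s 2355 (K.s 1230 (K.s 492 (K.s 105 (K.s 55 (K.s 42 K.t K.t) (K.s 5 K.t K.t)) (K.s 63 (K.s 3 K.t K.t) (K.s 91 K.t (K.s 161 K.t K.t)))) (K.s 396 (K.s 334 (K.s 243 K.t K.t) (K.s 14 K.t (K.s 15 K.t K.t))) (K.s 72 (K.s 3 K.t K.t) (K.s 90 K.t (K.s 138 K.t K.t))))) (K.s 405 (K.s 135 (K.s 36 (K.s 27 K.t K.t) (K.s 64 K.t K.t)) (K.s 144 (K.s 90 K.t K.t) (K.s 51 K.t (K.s 22 K.t K.t)))) (K.s 495 (K.s 234 (K.s 45 K.t K.t) (K.s 101 K.t (K.s 142 K.t K.t))) (K.s 90 (K.s 75 K.t K.t) (K.s 15 K.t (K.s 3 K.t K.t)))))) (K.s 1350 (K.s 921 (K.s 522 (K.s 261 (K.s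 18 K.t K.t) (K.s 189 K.t K.t)) (K.s 36 (K.s 21 K.t K.t) (K.s 207 K.t (K.s 135 K.t K.t)))) (K.s 205 (K.s 105 (K.s 84 K.t K.t) (K.s 9 K.t (K.s 84 K.t K.t))) (K.s 59 (K.s 26 K.t K.t) (K.s 72 K.t (K.s 63 K.t K.t))))) (K.s 825 (K.s 165 (K.s 81 (K.s 36 K.t K.t) (K.s 18 K.t K.t)) (K.s 295 (K.s 34 K.t K.t) (K.s 98 K.t (K.s 28 K.t K.t)))) (K.s 540 (K.s 204 (K.s 165 K.t K.t) (K.s 51 K.t (K.s 136 K.t K.t))) (K.s 327 (K.s 5 K.t K.t) (K.s 350 K.t (K.s 28 K.t K.t)))))))))))) (T.lf (K.s 11785 (K.s 6997 (K.s 3802 (K.s 1963 (K.s 877 (K.s 482 (K.s 247 (K.s 145 (K.s 121 (K.s 82 K.z K.t) K.t) (K.s 33 K.t K.t)) (K.s 75 (K.s 9 K.t K.t) (K.s 24 K.t (K.s 99 K.t K.t)))) (K.s 125 (K.s 53 (K.s 44 K.t K.t) (K.s 42 K.t K.t)) (K.s 127 (K.s 75 K.t K.t) (K.s 8 K.t (K.s 66 K.t K.t))))) (K.s 486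 (K.s 255 (K.s 225 (K.s 75 K.t K.t) (K.s 25 K.t K.t)) (K.s 96 (K.s 55 K.t K.t) (K.s 86 K.t (K.s 22 K.t K.t)))) (K.s 369 (K.s 224 (K.s 216 K.t K.t) (K.s 100 K.t K.t)) (K.s 99 (K.s 90 K.t K.t) (K.s 60 K.t (K.s 6 K.t K.t)))))) (K.s 1155 (K.s 651 (K.s 258 (K.s 102 (K.s 66 K.t K.t) (K.s 27 K.t K.t)) (K.s 141 (K.s 6 K.t K.t) (K.s 189 K.t (K.s 36 K.t K.t)))) (K.s 273 (K.s 75 (K.s 63 K.t K.t) (K.s 51 K.t K.t)) (K.s 69 (K.s 33 K.t K.t) (K.s 36 K.t (K.s 45 K.t K.t))))) (K.s 479 (K.s 222 (K.s 114 (K.s 81 K.t K.t) (K.s 75 K.t K.t)) (K.s 174 (K.s 72 K.t K.t) (K.s 38 K.t (K.s 10 K.t K.t)))) (K.s 97 (K.s 10 (K.s 7 K.t K.t) (K.s 51 K.t (K.s 27 K.t K.t))) (K.s 18 (K.s 12 K.t K.t) (K.s 36 K.t (K.s 22 K.t K.t))))))) (K.s 1584 (K.s 702 (K.s 359 (K.s 225 (K.s 135 (K.s 90 K.t K.t) (K.s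 72 K.t K.t)) (K.s 15 (K.s 9 K.t K.t) (K.s 12 K.t (K.s 63 K.t K.t)))) (K.s 151 (K.s 91 (K.s 1 K.t K.t) (K.s 18 K.t K.t)) (K.s 45 (K.s 21 K.t K.t) (K.s 30 K.t (K.s 75 K.t K.t))))) (K.s 315 (K.s 168 (K.s 108 (K.s 63 K.t K.t) (K.s 18 K.t K.t)) (K.s 15 (K.s 12 K.t K.t) (K.s 15 K.t (K.s 36 K.t K.t)))) (K.s 243 (K.s 103 (K.s 81 K.t K.t) (K.s 22 K.t (K.s 106 K.t K.t))) (K.s 135 (K.s 9 K.t K.t) (K.s 35 K.t (K.s 91 K.t K.t)))))) (K.s 801 (K.s 306 (K.s 108 (K.s 27 (K.s 6 K.t K.t) (K.s 15 K.t K.t)) (K.s 63 (K.s 18 K.t K.t) (K.s 5 K.t (K.s 94 K.t K.t)))) (K.s 270 (K.s 99 (K.s 45 K.t K.t) (K.s 81 K.t K.t)) (K.s 30 (K.s 27 K.t K.t) (K.s 10 K.t (K.s 41 K.t K.t))))) (K.s 480 (K.s 135 (K.s 120 (K.s 9 K.t K.t) (K.s 6 K.t K.t)) (K.s 129 (K.s 27 K.t K.t) (K.s 51 K.t (K.s 60 K.t K.t))))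 (K.s 150 (K.s 45 (K.s 15 K.t K.t) (K.s 15 K.t (K.s 45 K.t K.t))) (K.s 144 (K.s 27 K.t K.t) (K.s 18 K.t (K.s 8 K.t K.t)))))))) (K.s 2520 (K.s 1225 (K.s 657 (K.s 351 (K.s 171 (K.s 120 (K.s 90 K.t K.t) (K.s 48 K.t K.t)) (K.s 94 (K.s 59 K.t K.t) (K.s 50 K.t (K.s 6 K.t K.t)))) (K.s 144 (K.s 81 (K.s 63 K.t K.t) (K.s 33 K.t K.t)) (K.s 63 (K.s 15 K.t K.t) (K.s 18 K.t (K.s 39 K.t K.t))))) (K.s 333 (K.s 183 (K.s 72 (K.s 63 K.t K.t) (K.s 36 K.t K.t)) (K.s 33 (K.s 6 K.t K.t) (K.s 27 K.t (K.s 72 K.t K.t)))) (K.s 147 (K.s 75 (K.s 45 K.t K.t) (K.s 17 K.t K.t)) (K.s 33 (K.s 24 K.t K.t) (K.s 45 K.t (K.s 9 K.t K.t)))))) (K.s 728 (K.s 404 (K.s 161 (K.s 80 (K.s 14 K.t K.t) (K.s 45 K.t K.t)) (K.s 69 (K.s 54 K.t K.t) (K.s 78 K.t (K.s 72 K.t K.t)))) (K.s 162 (K.s 117 (K.s 36 K.t K.t)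 (K.s 24 K.t K.t)) (K.s 99 (K.s 54 K.t K.t) (K.s 9 K.t (K.s 39 K.t K.t))))) (K.s 372 (K.s 153 (K.s 42 (K.s 27 K.t K.t) (K.s 75 K.t K.t)) (K.s 84 (K.s 9 K.t K.t) (K.s 75 K.t (K.s 39 K.t K.t)))) (K.s 96 (K.s 33 (K.s 15 K.t K.t) (K.s 27 K.t (K.s 15 K.t K.t))) (K.s 36 (K.s 9 K.t K.t) (K.s 3 K.t (K.s 40 K.t K.t))))))) (K.s 1161 (K.s 685 (K.s 306 (K.s 195 (K.s 135 (K.s 36 K.t K.t) (K.s 27 K.t K.t)) (K.s 72 (K.s 30 K.t K.t) (K.s 3 K.t (K.s 30 K.t K.t)))) (K.s 99 (K.s 18 (K.s 9 K.t K.t) (K.s 18 K.t K.t)) (K.s 45 (K.s 27 K.t K.t) (K.s 144 K.t (K.s 63 K.t K.t))))) (K.s 260 (K.s 71 (K.s 44 (K.s 35 K.t K.t) (K.s 21 K.t K.t)) (K.s 54 (K.s 39 K.t K.t) (K.s 36 K.t (K.s 84 K.t K.t)))) (K.s 75 (K.s 27 (K.s 9 K.t K.t) (K.s 8 K.t (K.s 10 K.t K.t))) (K.s 33 (K.s 15 K.t K.t) (K.s 57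 K.t (K.s 15 K.t K.t)))))) (K.s 495 (K.s 189 (K.s 84 (K.s 54 (K.s 9 K.t K.t) (K.s 21 K.t K.t)) (K.s 51 (K.s 45 K.t K.t) (K.s 27 K.t (K.s 18 K.t K.t)))) (K.s 105 (K.s 84 (K.s 45 K.t K.t) (K.s 6 K.t K.t)) (K.s 84 (K.s 57 K.t K.t) (K.s 18 K.t (K.s 63 K.t K.t))))) (K.s 234 (K.s 72 (K.s 19 (K.s 9 K.t K.t) (K.s 20 K.t K.t)) (K.s 102 (K.s 42 K.t K.t) (K.s 9 K.t (K.s 24 K.t K.t)))) (K.s 195 (K.s 81 (K.s 27 K.t K.t) (K.s 54 K.t (K.s 15 K.t K.t))) (K.s 15 (K.s 12 K.t K.t) (K.s 60 K.t (K.s 32 K.t K.t))))))))) (K.s 5105 (K.s 2652 (K.s 1173 (K.s 531 (K.s 207 (K.s 94 (K.s 45 (K.s 27 K.t K.t) (K.s 15 K.t K.t)) (K.s 23 (K.s 17 K.t K.t) (K.s 10 K.t (K.s 2 K.t K.t)))) (K.s 195 (K.s 63 (K.s 36 K.t K.t) (K.s 72 K.t K.t)) (K.s 30 (K.s 3 K.t K.t) (K.s 15 K.t (K.s 66 K.t K.t))))) (K.s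 252 (K.s 141 (K.s 81 (K.s 21 K.t K.t) (K.s 45 K.t K.t)) (K.s 30 (K.s 3 K.t K.t) (K.s 36 K.t (K.s 33 K.t K.t)))) (K.s 189 (K.s 9 (K.s 3 K.t K.t) (K.s 45 K.t K.t)) (K.s 54 (K.s 15 K.t K.t) (K.s 81 K.t (K.s 45 K.t K.t)))))) (K.s 735 (K.s 474 (K.s 174 (K.s 51 (K.s 49 K.t K.t) (K.s 63 K.t K.t)) (K.s 165 (K.s 30 K.t K.t) (K.s 40 K.t (K.s 50 K.t K.t)))) (K.s 125 (K.s 54 (K.s 3 K.t K.t) (K.s 27 K.t K.t)) (K.s 55 (K.s 1 K.t K.t) (K.s 21 K.t (K.s 54 K.t K.t))))) (K.s 360 (K.s 149 (K.s 36 (K.s 9 K.t K.t) (K.s 108 K.t K.t)) (K.s 60 (K.s 49 K.t K.t) (K.s 70 K.t (K.s 15 K.t K.t)))) (K.s 162 (K.s 54 (K.s 9 K.t K.t) (K.s 36 K.t (K.s 9 K.t K.t))) (K.s 54 (K.s 33 K.t K.t) (K.s 108 K.t (K.s 27 K.t K.t))))))) (K.s 1364 (K.s 660 (K.s 375 (K.s 102 (K.s 66 (K.s 21 K.t K.t) (K.s 9 K.t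 K.t)) (K.s 63 (K.s 27 K.t K.t) (K.s 18 K.t (K.s 111 K.t K.t)))) (K.s 132 (K.s 51 (K.s 15 K.t K.t) (K.s 54 K.t K.t)) (K.s 63 (K.s 18 K.t K.t) (K.s 9 K.t (K.s 9 K.t K.t))))) (K.s 318 (K.s 171 (K.s 117 (K.s 90 K.t K.t) (K.s 48 K.t K.t)) (K.s 84 (K.s 27 K.t K.t) (K.s 51 K.t (K.s 9 K.t K.t)))) (K.s 126 (K.s 72 (K.s 9 K.t K.t) (K.s 15 K.t (K.s 27 K.t K.t))) (K.s 65 (K.s 51 K.t K.t) (K.s 13 K.t (K.s 36 K.t K.t)))))) (K.s 379 (K.s 121 (K.s 61 (K.s 7 (K.s 1 K.t K.t) (K.s 27 K.t K.t)) (K.s 24 (K.s 3 K.t K.t) (K.s 26 K.t (K.s 4 K.t K.t)))) (K.s 132 (K.s 75 (K.s 48 K.t K.t) (K.s 35 K.t K.t)) (K.s 42 (K.s 33 K.t K.t) (K.s 36 K.t (K.s 27 K.t K.t))))) (K.s 303 (K.s 117 (K.s 87 (K.s 6 K.t K.t) (K.s 27 K.t K.t)) (K.s 90 (K.s 15 K.t K.t) (K.s 15 K.t (K.s 45 K.t K.t)))) (K.s 219 (K.s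 187 (K.s 54 K.t K.t) (K.s 2 K.t (K.s 15 K.t K.t))) (K.s 114 (K.s 51 K.t K.t) (K.s 18 K.t (K.s 18 K.t K.t)))))))) (K.s 2362 (K.s 1177 (K.s 646 (K.s 295 (K.s 88 (K.s 46 (K.s 25 K.t K.t) (K.s 9 K.t K.t)) (K.s 99 (K.s 84 K.t K.t) (K.s 27 K.t (K.s 78 K.t K.t)))) (K.s 108 (K.s 32 (K.s 27 K.t K.t) (K.s 1 K.t K.t)) (K.s 144 (K.s 81 K.t K.t) (K.s 3 K.t (K.s 42 K.t K.t))))) (K.s 186 (K.s 72 (K.s 26 (K.s 1 K.t K.t) (K.s 10 K.t K.t)) (K.s 21 (K.s 9 K.t K.t) (K.s 42 K.t (K.s 4 K.t K.t)))) (K.s 102 (K.s 75 (K.s 3 K.t K.t) (K.s 15 K.t K.t)) (K.s 78 (K.s 36 K.t K.t) (K.s 126 K.t (K.s 21 K.t K.t)))))) (K.s 530 (K.s 264 (K.s 126 (K.s 45 (K.s 35 K.t K.t) (K.s 27 K.t K.t)) (K.s 45 (K.s 39 K.t K.t) (K.s 27 K.t (K.s 22 K.t K.t)))) (K.s 132 (K.s 51 (K.s 31 K.t K.t) (K.s 45 K.t K.t)) (K.s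 99 (K.s 18 K.t K.t) (K.s 27 K.t (K.s 6 K.t K.t))))) (K.s 285 (K.s 145 (K.s 70 (K.s 49 K.t K.t) (K.s 16 K.t K.t)) (K.s 72 (K.s 56 K.t K.t) (K.s 3 K.t (K.s 15 K.t K.t)))) (K.s 127 (K.s 13 (K.s 7 K.t K.t) (K.s 57 K.t (K.s 42 K.t K.t))) (K.s 48 (K.s 3 K.t K.t) (K.s 90 K.t (K.s 90 K.t K.t))))))) (K.s 4206 (K.s 1785 (K.s 453 (K.s 225 (K.s 120 (K.s 66 K.t K.t) (K.s 81 K.t K.t)) (K.s 128 (K.s 107 K.t K.t) (K.s 82 K.t (K.s 6 K.t K.t)))) (K.s 837 (K.s 417 (K.s 342 K.t K.t) (K.s 384 K.t K.t)) (K.s 153 (K.s 120 K.t K.t) (K.s 228 K.t (K.s 96 K.t K.t))))) (K.s 1590 (K.s 750 (K.s 495 (K.s 100 K.t K.t) (K.s 171 K.t K.t)) (K.s 455 (K.s 42 K.t K.t) (K.s 175 K.t (K.s 60 K.t K.t)))) (K.s 225 (K.s 93 (K.s 90 K.t K.t) (K.s 96 K.t (K.s 21 K.t K.t))) (K.s 165 (K.s 12 K.t K.t) (K.s 345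 K.t (K.s 84 K.t K.t)))))) (K.s 1908 (K.s 954 (K.s 513 (K.s 72 (K.s 54 K.t K.t) (K.s 387 K.t K.t)) (K.s 258 (K.s 126 K.t K.t) (K.s 48 K.t (K.s 30 K.t K.t)))) (K.s 288 (K.s 225 (K.s 18 K.t K.t) (K.s 30 K.t K.t)) (K.s 307 (K.s 132 K.t K.t) (K.s 215 K.t (K.s 90 K.t K.t))))) (K.s 1566 (K.s 873 (K.s 621 (K.s 432 K.t K.t) (K.s 162 K.t K.t)) (K.s 393 (K.s 378 K.t K.t) (K.s 180 K.t (K.s 39 K.t K.t)))) (K.s 1299 (K.s 342 (K.s 322 K.t K.t) (K.s 738 K.t (K.s 135 K.t K.t))) (K.s 286 (K.s 24 K.t K.t) (K.s 493 K.t (K.s 547 K.t K.t)))))))))))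

/-- the values congruent to 2 modulo 128 -/
noncomputable def x2 : T := T.nd (T.lf (K.s 8158 (K.s 409 K.z K.t) (K.s 16830 K.t K.t))) (T.lf (K.s 17450 (K.s 10439 (K.s 1610 K.z K.t) (K.s 4953 K.t K.t)) (K.s 6840 K.t (K.s 5330 K.t K.t))))

/-- the values congruent to 4 modulo 128 -/
noncomputable def x4 : T := T.nd (T.lf (K.s 16766 (K.s 10576 (K.s 6056 (K.s 4382 (K.s 1781 K.z K.t) K.t) (K.s 2882 K.t (K.s 943 K.t K.t))) (K.s 4390 (K.s 340 K.t K.t) (K.s 1350 K.t (K.s 210 K.t K.t)))) (K.s 4050 (K.s 1323 (K.s 642 K.t K.t) (K.s 372 K.t (K.s 60 K.t K.t))) (K.s 4248 (K.s 1521 K.t (K.s 1539 K.t K.t)) (K.s 2067 K.t (K.s 1590 K.t K.t)))))) (T.lf (K.s 18678 (K.s 12684 (K.s 7401 (K.s 363 K.z K.t) (K.s 4952 K.t K.t)) (K.s 4149 (K.s 648 K.t K.t) (K.s 1335 K.t K.t))) (K.s 3150 (K.s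 675 K.t (K.s 375 K.t K.t)) (K.s 4275 (K.s 3150 K.t K.t) (K.s 3548 K.t K.t)))))

/-- the values congruent to 6 modulo 128 -/
noncomputable def x6 : T := T.nd (T.lf (K.s 19290 (K.s 14856 (K.s 11694 (K.s 7124 K.z K.t) K.t) (K.s 245 K.t K.t)) (K.s 4122 (K.s 3611 K.t K.t) (K.s 6050 K.t K.t)))) (T.lf (K.s 4885 (K.s 2401 K.z K.t) K.t))

/-- the values congruent to 8 modulo 128 -/
noncomputable def x8 : T := T.nd (T.lf (K.s 13813 (K.s 8458 (K.s 3202 (K.s 2122 (K.s 1707 (K.s 1132 (K.s 772 K.z K.t) K.t) (K.s 70 K.t K.t)) (K.s 189 (K.s 130 K.t K.t) (K.s 810 K.t K.t))) (K.s 1980 (K.s 765 (K.s 156 K.t K.t) (K.s 170 K.t K.t)) (K.s 2313 (K.s 1125 K.t K.t) (K.s 462 K.t (K.s 294 K.t K.t))))) (K.s 3038 (K.s 2385 (K.s 1575 (K.s 189 K.t K.t) (K.s 486 K.t K.t)) (K.s 279 (K.s 54 K.t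 K.t) (K.s 27 K.t (K.s 72 K.t K.t)))) (K.s 1333 (K.s 946 (K.s 139 K.t K.t) (K.s 300 K.t K.t)) (K.s 768 (K.s 441 K.t K.t) (K.s 110 K.t (K.s 25 K.t K.t)))))) (K.s 3764 (K.s 1500 (K.s 774 (K.s 648 (K.s 39 K.t K.t) (K.s 81 K.t K.t)) (K.s 198 (K.s 21 K.t K.t) (K.s 482 K.t K.t))) (K.s 1149 (K.s 480 (K.s 183 K.t K.t) (K.s 657 K.t K.t)) (K.s 140 (K.s 105 K.t K.t) (K.s 280 K.t (K.s 90 K.t K.t))))) (K.s 2800 (K.s 1420 (K.s 798 (K.s 130 K.t K.t) (K.s 487 K.t K.t)) (K.s 765 (K.s 351 K.t K.t) (K.s 6 K.t (K.s 42 K.t K.t)))) (K.s 3085 (K.s 2400 (K.s 33 K.t K.t) (K.s 27 K.t K.t)) (K.s 3269 (K.s 2345 K.t K.t) (K.s 51 K.t (K.s 1278 K.t K.t)))))))) (T.lf (K.s 14339 (K.s 6870 (K.s 4754 (K.s 812 (K.s 722 (K.s 439 K.z K.t) (K.s 27 K.t K.t)) (K.s 2808 (K.s 162 K.t K.t) (K.s 469 K.t K.t)))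 (K.s 675 (K.s 270 (K.s 189 K.t K.t) (K.s 285 K.t K.t)) (K.s 1224 (K.s 1125 K.t K.t) (K.s 21 K.t K.t)))) (K.s 4401 (K.s 1892 (K.s 1484 (K.s 899 K.t K.t) (K.s 96 K.t K.t)) (K.s 1122 (K.s 1032 K.t K.t) (K.s 891 K.t K.t))) (K.s 2309 (K.s 1373 (K.s 898 K.t K.t) (K.s 804 K.t K.t)) (K.s 309 (K.s 111 K.t K.t) (K.s 315 K.t K.t))))) (K.s 4860 (K.s 1863 (K.s 880 (K.s 216 (K.s 99 K.t K.t) (K.s 339 K.t K.t)) (K.s 350 (K.s 155 K.t K.t) (K.s 255 K.t K.t))) (K.s 864 (K.s 657 (K.s 612 K.t K.t) (K.s 168 K.t K.t)) (K.s 918 (K.s 648 K.t K.t) (K.s 18 K.t K.t)))) (K.s 5337 (K.s 1350 (K.s 351 (K.s 270 K.t K.t) (K.s 135 K.t K.t)) (K.s 2700 (K.s 756 K.t K.t) (K.s 145 K.t K.t))) (K.s 2079 (K.s 888 (K.s 333 K.t K.t) (K.s 435 K.t K.t)) (K.s 1617 (K.s 825 K.t K.t) (K.s 161 K.t K.t)))))))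

/-- the values congruent to 10 modulo 128 -/
noncomputable def x10 : T := T.nd (T.lf (K.s 17780 (K.s 13160 (K.s 3284 (K.s 2357 K.z K.t) (K.s 9048 K.t K.t)) (K.s 1512 (K.s 1422 K.t K.t) (K.s 2448 K.t K.t))) (K.s 9735 (K.s 4905 K.t (K.s 3930 K.t K.t)) (K.s 1092 (K.s 650 K.t K.t) (K.s 483 K.t K.t))))) (T.lf (K.s 18162 (K.s 11904 (K.s 8919 (K.s 6294 (K.s 1392 K.z K.t) K.t) (K.s 924 K.t (K.s 56 K.t K.t))) (K.s 3276 (K.s 2328 K.t (K.s 165 K.t K.t)) (K.s 1089 K.t (K.s 675 K.t K.t)))) (K.s 6132 (K.s 2940 (K.s 1749 K.t (K.s 1086 K.t K.t)) (K.s 2016 K.t (K.s 753 K.t K.t))) (K.s 4242 (K.s 798 K.t (K.s 602 K.t K.t)) (K.s 846 K.t (K.s 99 K.t K.t))))))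

/-- the values congruent to 12 modulo 128 -/
noncomputable def x12 : T := T.nd (T.lf (K.s 12633 (K.s 8225 (K.s 603 (K.s 393 (K.s 303 K.z K.t) K.t) (K.s 5874 K.t (K.s 1017 K.t K.t))) (K.s 2428 (K.s 658 K.t (K.s 942 K.t K.t)) (K.s 54 K.t (K.s 441 K.t K.t)))) (K.s 2925 (K.s 1890 (K.s 900 K.t K.t) (K.s 216 K.t (K.s 294 K.t K.t))) (K.s 3150 (K.s 1215 K.t (K.s 1692 K.t K.t)) (K.s 4790 K.t (K.s 1060 K.t K.t)))))) (T.lf (K.s 15400 (K.s 10396 (K.s 10216 (K.s 9541 (K.s 991 K.z K.t) K.t) (K.s 102 K.t K.t)) (K.s 2629 (K.s 2066 K.t K.t) (K.s 1430 K.t (K.s 756 K.t K.t)))) (K.s 3051 (K.s 1035 (K.s 945 K.t K.t) (K.s 444 K.t K.t)) (K.s 1305 (K.s 1044 K.t K.t) (K.s 3879 K.t (K.s 5295 K.t K.t))))))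

/-- the values congruent to 14 modulo 128 -/
noncomputable def x14 : T := T.nd (T.lf (K.s 22681 (K.s 13974 (K.s 8983 K.z K.t) (K.s 2679 K.t K.t)) (K.s 4853 (K.s 2628 K.t K.t) (K.s 1222 K.t K.t)))) (T.lf (K.s 14416 (K.s 14243 (K.s 2446 K.z K.t) K.t) (K.s 12159 K.t K.t)))

/-- the values congruent to 16 modulo 128 -/
noncomputable def x16 : T := T.nd (T.lf (K.s 13919 (K.s 9509 (K.s 3650 (K.s 2138 (K.s 1199 (K.s 1058 (K.s 1004 (K.s 524 K.z K.t) K.t) (K.s 81 K.t K.t)) (K.s 669 (K.s 570 K.t K.t) (K.s 81 K.t K.t))) (K.s 702 (K.s 333 (K.s 312 K.t K.t) (K.s 198 K.t K.t)) (K.s 549 (K.s 54 K.t K.t) (K.s 45 K.t K.t)))) (K.s 1854 (K.s 567 (K.s 216 (K.s 189 K.t K.t) (K.s 315 K.t K.t)) (K.s 945 (K.s 702 K.t K.t) (K.s 252 K.t K.t))) (K.s 2115 (K.s 1473 (K.s 1260 K.t K.t) (K.s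 237 K.t K.t)) (K.s 1155 (K.s 720 K.t K.t) (K.s 105 K.t (K.s 360 K.t K.t)))))) (K.s 2169 (K.s 1230 (K.s 780 (K.s 624 (K.s 411 K.t K.t) (K.s 6 K.t K.t)) (K.s 246 (K.s 102 K.t K.t) (K.s 129 K.t K.t))) (K.s 450 (K.s 201 (K.s 120 K.t K.t) (K.s 234 K.t K.t)) (K.s 175 (K.s 75 K.t K.t) (K.s 175 K.t K.t)))) (K.s 936 (K.s 486 (K.s 396 (K.s 18 K.t K.t) (K.s 81 K.t K.t)) (K.s 315 (K.s 36 K.t K.t) (K.s 105 K.t K.t))) (K.s 675 (K.s 570 (K.s 225 K.t K.t) (K.s 51 K.t K.t)) (K.s 243 (K.s 210 K.t K.t) (K.s 324 K.t (K.s 6 K.t K.t))))))) (K.s 5094 (K.s 2385 (K.s 1316 (K.s 945 (K.s 504 (K.s 190 K.t K.t) (K.s 231 K.t K.t)) (K.s 126 (K.s 45 K.t K.t) (K.s 210 K.t K.t))) (K.s 529 (K.s 304 (K.s 187 K.t K.t) (K.s 180 K.t K.t)) (K.s 441 (K.s 360 K.t K.t) (K.s 54 K.t K.t)))) (K.s 1170 (K.s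 630 (K.s 495 (K.s 9 K.t K.t) (K.s 88 K.t K.t)) (K.s 387 (K.s 15 K.t K.t) (K.s 105 K.t K.t))) (K.s 378 (K.s 210 (K.s 15 K.t K.t) (K.s 135 K.t K.t)) (K.s 267 (K.s 135 K.t K.t) (K.s 111 K.t (K.s 309 K.t K.t)))))) (K.s 2721 (K.s 591 (K.s 257 (K.s 207 (K.s 171 K.t K.t) (K.s 18 K.t K.t)) (K.s 244 (K.s 199 K.t K.t) (K.s 18 K.t K.t))) (K.s 255 (K.s 72 (K.s 30 K.t K.t) (K.s 93 K.t K.t)) (K.s 675 (K.s 612 K.t K.t) (K.s 342 K.t (K.s 513 K.t K.t))))) (K.s 2505 (K.s 675 (K.s 270 (K.s 60 K.t K.t) (K.s 270 K.t K.t)) (K.s 1230 (K.s 330 K.t K.t) (K.s 498 K.t K.t))) (K.s 2658 (K.s 1713 (K.s 642 K.t K.t) (K.s 42 K.t K.t)) (K.s 642 (K.s 253 K.t K.t) (K.s 915 K.t (K.s 1095 K.t K.t))))))))) (T.lf (K.s 13086 (K.s 6516 (K.s 3186 (K.s 936 (K.s 531 (K.s 216 (K.s 81 K.z K.t) (K.s 80 K.t K.t))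 (K.s 324 (K.s 315 K.t K.t) (K.s 51 K.t K.t))) (K.s 1040 (K.s 765 (K.s 270 K.t K.t) (K.s 207 K.t K.t)) (K.s 550 (K.s 193 K.t K.t) (K.s 462 K.t K.t)))) (K.s 2052 (K.s 801 (K.s 495 (K.s 90 K.t K.t) (K.s 170 K.t K.t)) (K.s 573 (K.s 189 K.t K.t) (K.s 21 K.t K.t))) (K.s 752 (K.s 381 (K.s 123 K.t K.t) (K.s 15 K.t K.t)) (K.s 442 (K.s 52 K.t K.t) (K.s 39 K.t K.t))))) (K.s 3654 (K.s 2520 (K.s 927 (K.s 255 K.t (K.s 240 K.t K.t)) (K.s 1278 (K.s 783 K.t K.t) (K.s 135 K.t K.t))) (K.s 405 (K.s 270 (K.s 180 K.t K.t) (K.s 45 K.t K.t)) (K.s 378 (K.s 81 K.t K.t) (K.s 207 K.t K.t)))) (K.s 1134 (K.s 441 (K.s 90 (K.s 54 K.t K.t) (K.s 180 K.t K.t)) (K.s 519 (K.s 315 K.t K.t) (K.s 117 K.t K.t))) (K.s 972 (K.s 531 (K.s 261 K.t K.t) (K.s 261 K.t K.t)) (K.s 540 (K.s 495 K.t K.t) (K.s 108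 K.t K.t)))))) (K.s 4455 (K.s 2250 (K.s 1170 (K.s 378 (K.s 45 K.t (K.s 135 K.t K.t)) (K.s 432 (K.s 387 K.t K.t) (K.s 180 K.t K.t))) (K.s 450 (K.s 171 (K.s 117 K.t K.t) (K.s 72 K.t K.t)) (K.s 270 (K.s 162 K.t K.t) (K.s 87 K.t K.t)))) (K.s 885 (K.s 410 (K.s 261 (K.s 126 K.t K.t) (K.s 54 K.t K.t)) (K.s 310 (K.s 274 K.t K.t) (K.s 108 K.t K.t))) (K.s 672 (K.s 417 (K.s 105 K.t K.t) (K.s 12 K.t K.t)) (K.s 186 (K.s 99 K.t K.t) (K.s 147 K.t K.t))))) (K.s 2835 (K.s 1440 (K.s 825 (K.s 81 K.t (K.s 480 K.t K.t)) (K.s 390 (K.s 260 K.t K.t) (K.s 105 K.t K.t))) (K.s 345 (K.s 207 (K.s 45 K.t K.t) (K.s 54 K.t K.t)) (K.s 300 (K.s 105 K.t K.t) (K.s 15 K.t K.t)))) (K.s 3402 (K.s 2100 (K.s 441 (K.s 69 K.t K.t) (K.s 447 K.t K.t)) (K.s 942 (K.s 870 K.t K.t) (K.s 178 K.t K.t))) (K.s 1557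 (K.s 798 (K.s 243 K.t K.t) (K.s 480 K.t K.t)) (K.s 2286 (K.s 456 K.t K.t) (K.s 1081 K.t K.t))))))))

/-- the values congruent to 18 modulo 128 -/
noncomputable def x18 : T := T.nd (T.lf (K.s 19164 (K.s 12192 (K.s 7416 (K.s 1116 K.z K.t) (K.s 420 K.t K.t)) (K.s 1464 K.t (K.s 4008 K.t K.t))) (K.s 7848 (K.s 1128 K.t (K.s 4080 K.t K.t)) (K.s 2244 K.t (K.s 108 K.t K.t))))) (T.lf (K.s 26476 (K.s 16969 (K.s 11626 (K.s 454 K.z K.t) (K.s 3600 K.t K.t)) (K.s 1967 (K.s 225 K.t K.t) (K.s 1492 K.t K.t))) (K.s 2478 (K.s 1848 K.t (K.s 384 K.t K.t)) (K.s 672 (K.s 480 K.t K.t) (K.s 18 K.t K.t)))))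

/-- the values congruent to 20 modulo 128 -/
noncomputable def x20 : T := T.nd (T.lf (K.s 10600 (K.s 6280 (K.s 2929 (K.s 2335 K.z K.t) (K.s 1836 K.t K.t)) (K.s 1212 (K.s 645 K.t K.t) (K.s 513 K.t K.t))) (K.s 6720 (K.s 3345 (K.s 1575 K.t K.t) (K.s 2241 K.t K.t)) (K.s 7230 (K.s 7119 K.t K.t) (K.s 1583 K.t K.t))))) (T.lf (K.s 12647 (K.s 7915 (K.s 4562 (K.s 2882 (K.s 635 K.z K.t) K.t) (K.s 1149 K.t (K.s 468 K.t K.t))) (K.s 2902 (K.s 667 K.t (K.s 2010 K.t K.t)) (K.s 612 K.t (K.s 792 K.t K.t)))) (K.s 4335 (K.s 987 (K.s 15 K.t (K.s 153 K.t K.t)) (K.s 2670 K.t (K.s 185 K.t K.t))) (K.s 3015 (K.s 1755 K.t (K.s 756 K.t K.t)) (K.s 4410 K.t (K.s 693 K.t K.t))))))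

/-- the values congruent to 22 modulo 128 -/
noncomputable def x22 : T := T.nd (T.lf (K.s 6578 (K.s 4438 (K.s 4015 K.z K.t) K.t) (K.s 3957 K.t (K.s 3353 K.t K.t)))) (T.lf (K.s 24843 (K.s 18120 K.z K.t) (K.s 2882 K.t K.t)))

/-- the values congruent to 24 modulo 128 -/
noncomputable def x24 : T := T.nd (T.lf (K.s 14856 (K.s 6861 (K.s 1521 (K.s 723 (K.s 333 (K.s 84 K.z K.t) (K.s 363 K.t K.t)) (K.s 258 K.t (K.s 273 K.t K.t))) (K.s 1659 (K.s 495 K.t (K.s 561 K.t K.t)) (K.s 1441 (K.s 441 K.t K.t) (K.s 1421 K.t K.t)))) (K.s 4428 (K.s 1773 (K.s 570 K.t (K.s 1142 K.t K.t)) (K.s 1260 (K.s 972 K.t K.t) (K.s 1251 K.t K.t))) (K.s 1557 (K.s 261 K.t (K.s 1161 K.t K.t)) (K.s 1134 (K.s 135 K.t K.t) (K.s 246 K.t K.t))))) (K.s 4143 (K.s 2715 (K.s 1230 (K.s 165 K.t (K.s 255 K.t K.t))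 (K.s 549 (K.s 351 K.t K.t) (K.s 180 K.t K.t))) (K.s 648 (K.s 6 K.t (K.s 534 K.t K.t)) (K.s 108 (K.s 81 K.t K.t) (K.s 284 K.t K.t)))) (K.s 5457 (K.s 779 (K.s 363 K.t (K.s 9 K.t K.t)) (K.s 3463 (K.s 1043 K.t K.t) (K.s 280 K.t K.t))) (K.s 3060 (K.s 1296 K.t (K.s 414 K.t K.t)) (K.s 468 (K.s 450 K.t K.t) (K.s 266 K.t K.t))))))) (T.lf (K.s 13981 (K.s 8053 (K.s 3814 (K.s 448 (K.s 121 (K.s 88 K.z K.t) (K.s 282 K.t K.t)) (K.s 198 K.t (K.s 900 K.t K.t))) (K.s 3894 (K.s 819 K.t (K.s 2907 K.t K.t)) (K.s 135 K.t (K.s 138 K.t K.t)))) (K.s 3438 (K.s 1806 (K.s 795 K.t (K.s 699 K.t K.t)) (K.s 897 K.t (K.s 567 K.t K.t))) (K.s 1638 (K.s 536 K.t (K.s 346 K.t K.t)) (K.s 189 (K.s 174 K.t K.t) (K.s 630 K.t K.t))))) (K.s 3838 (K.s 2538 (K.s 1044 (K.s 687 K.t (K.s 162 K.t K.t)) (K.s 1032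 K.t (K.s 231 K.t K.t))) (K.s 579 (K.s 12 K.t (K.s 252 K.t K.t)) (K.s 210 K.t (K.s 69 K.t K.t)))) (K.s 665 (K.s 239 (K.s 139 K.t (K.s 85 K.t K.t)) (K.s 83 K.t (K.s 37 K.t K.t))) (K.s 4824 (K.s 1152 K.t (K.s 1242 K.t K.t)) (K.s 1569 (K.s 195 K.t K.t) (K.s 267 K.t K.t)))))))

/-- the values congruent to 26 modulo 128 -/
noncomputable def x26 : T := T.nd (T.lf (K.s 12942 (K.s 10204 (K.s 7591 K.z K.t) K.t) (K.s 5434 K.t (K.s 1403 K.t K.t)))) (T.lf (K.s 27488 (K.s 25141 K.z K.t) K.t))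

/-- the values congruent to 28 modulo 128 -/
noncomputable def x28 : T := T.nd (T.lf (K.s 15122 (K.s 10559 (K.s 8489 (K.s 4727 (K.s 3647 K.z K.t) (K.s 837 K.t K.t)) (K.s 639 K.t (K.s 783 K.t K.t))) (K.s 1809 (K.s 27 K.t (K.s 1701 K.t K.t)) (K.s 99 K.t (K.s 720 K.t K.t)))) (K.s 4197 (K.s 1431 (K.s 1188 K.t (K.s 171 K.t K.t)) (K.s 1836 K.t (K.s 189 K.t K.t))) (K.s 6171 (K.s 402 K.t (K.s 5454 K.t K.t)) (K.s 2549 (K.s 369 K.t K.t) (K.s 493 K.t K.t)))))) (T.lf (K.s 17187 (K.s 8865 (K.s 5064 (K.s 3426 (K.s 3372 K.z K.t) (K.s 1512 K.t K.t)) (K.s 1220 K.t (K.s 292 K.t K.t))) (K.s 5274 (K.s 924 K.t (K.s 3114 K.t K.t)) (K.s 249 K.t (K.s 2731 K.t K.t)))) (K.s 2547 (K.s 1593 (K.s 162 K.t (K.s 702 K.t K.t)) (K.s 18 K.t (K.s 153 K.t K.t))) (K.s 8115 (K.s 4412 K.t (K.s 2473 K.t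 K.t)) (K.s 1413 K.t (K.s 365 K.t K.t))))))

/-- the values congruent to 30 modulo 128 -/
noncomputable def x30 : T := T.nd (T.lf (K.s 15285 (K.s 3527 K.z K.t) K.t)) (T.lf (K.s 18676 (K.s 2899 K.z K.t) K.t))

/-- the values congruent to 32 modulo 128 -/
noncomputable def x32 : T := T.nd (T.lf (K.s 13348 (K.s 7462 (K.s 3331 (K.s 1873 (K.s 703 (K.s 433 (K.s 208 (K.s 88 K.z K.t) (K.s 126 K.t K.t)) (K.s 51 K.t (K.s 138 K.t K.t))) (K.s 675 (K.s 360 K.t (K.s 135 K.t K.t)) (K.s 171 (K.s 63 K.t K.t) (K.s 144 K.t K.t)))) (K.s 810 (K.s 243 (K.s 33 K.t (K.s 138 K.t K.t)) (K.s 378 (K.s 297 K.t K.t) (K.s 84 K.t K.t))) (K.s 300 (K.s 120 K.t (K.s 6 K.t K.t)) (K.s 132 (K.s 24 K.t K.t) (K.s 176 K.t K.t))))) (K.s 2052 (K.s 567 (K.s 369 (K.s 39 K.t (K.s 318 K.t K.t)) (K.s 36 K.t (K.s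 81 K.t K.t))) (K.s 505 (K.s 126 K.t (K.s 54 K.t K.t)) (K.s 265 (K.s 250 K.t K.t) (K.s 319 K.t K.t)))) (K.s 1008 (K.s 540 (K.s 410 K.t (K.s 85 K.t K.t)) (K.s 243 (K.s 180 K.t K.t) (K.s 63 K.t K.t))) (K.s 562 (K.s 12 K.t (K.s 195 K.t K.t)) (K.s 410 (K.s 95 K.t K.t) (K.s 18 K.t K.t)))))) (K.s 3276 (K.s 1701 (K.s 1098 (K.s 891 (K.s 81 K.t (K.s 729 K.t K.t)) (K.s 90 K.t (K.s 90 K.t K.t))) (K.s 63 (K.s 18 K.t (K.s 9 K.t K.t)) (K.s 135 (K.s 105 K.t K.t) (K.s 220 K.t K.t)))) (K.s 1035 (K.s 540 (K.s 135 K.t (K.s 342 K.t K.t)) (K.s 255 (K.s 250 K.t K.t) (K.s 177 K.t K.t))) (K.s 180 (K.s 5 K.t (K.s 100 K.t K.t)) (K.s 153 (K.s 135 K.t K.t) (K.s 171 K.t K.t))))) (K.s 1134 (K.s 405 (K.s 126 (K.s 45 K.t (K.s 45 K.t K.t)) (K.s 90 K.t (K.s 99 K.t K.t))) (K.s 342 (K.s 45 K.t (K.s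 135 K.t K.t)) (K.s 288 (K.s 108 K.t K.t) (K.s 90 K.t K.t)))) (K.s 771 (K.s 421 (K.s 36 K.t (K.s 75 K.t K.t)) (K.s 191 (K.s 110 K.t K.t) (K.s 108 K.t K.t))) (K.s 246 (K.s 30 K.t (K.s 135 K.t K.t)) (K.s 333 (K.s 324 K.t K.t) (K.s 81 K.t K.t))))))) (K.s 4746 (K.s 2619 (K.s 1323 (K.s 365 (K.s 144 (K.s 72 K.t (K.s 54 K.t K.t)) (K.s 36 K.t (K.s 117 K.t K.t))) (K.s 715 (K.s 265 K.t (K.s 315 K.t K.t)) (K.s 195 (K.s 135 K.t K.t) (K.s 15 K.t K.t)))) (K.s 567 (K.s 207 (K.s 12 K.t (K.s 177 K.t K.t)) (K.s 108 (K.s 9 K.t K.t) (K.s 63 K.t K.t))) (K.s 265 (K.s 210 K.t (K.s 33 K.t K.t)) (K.s 59 (K.s 50 K.t K.t) (K.s 81 K.t K.t))))) (K.s 1296 (K.s 405 (K.s 237 (K.s 130 K.t (K.s 95 K.t K.t)) (K.s 69 K.t (K.s 55 K.t K.t))) (K.s 414 (K.s 81 K.t (K.s 261 K.t K.t)) (K.s 72 (K.s 27 K.t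 K.t) (K.s 270 K.t K.t)))) (K.s 500 (K.s 145 (K.s 99 K.t (K.s 11 K.t K.t)) (K.s 221 (K.s 53 K.t K.t) (K.s 9 K.t K.t))) (K.s 105 (K.s 65 K.t (K.s 29 K.t K.t)) (K.s 130 (K.s 43 K.t K.t) (K.s 75 K.t K.t)))))) (K.s 3462 (K.s 1050 (K.s 634 (K.s 465 (K.s 39 K.t (K.s 390 K.t K.t)) (K.s 24 K.t (K.s 66 K.t K.t))) (K.s 218 (K.s 5 K.t (K.s 110 K.t K.t)) (K.s 72 (K.s 9 K.t K.t) (K.s 6 K.t K.t)))) (K.s 693 (K.s 264 (K.s 9 K.t (K.s 25 K.t K.t)) (K.s 114 (K.s 15 K.t K.t) (K.s 51 K.t K.t))) (K.s 1386 (K.s 561 K.t (K.s 124 K.t K.t)) (K.s 39 (K.s 18 K.t K.t) (K.s 245 K.t K.t))))) (K.s 4205 (K.s 2467 (K.s 657 (K.s 162 K.t (K.s 225 K.t K.t)) (K.s 186 K.t (K.s 264 K.t K.t))) (K.s 740 (K.s 368 K.t (K.s 297 K.t K.t)) (K.s 420 (K.s 153 K.t K.t) (K.s 360 K.t K.t)))) (K.s 1807 (K.s 1600 (K.s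 442 K.t (K.s 60 K.t K.t)) (K.s 96 (K.s 36 K.t K.t) (K.s 66 K.t K.t))) (K.s 858 (K.s 244 K.t (K.s 146 K.t K.t)) (K.s 545 (K.s 342 K.t K.t) (K.s 669 K.t K.t))))))))) (T.lf (K.s 13715 (K.s 7210 (K.s 4079 (K.s 2165 (K.s 860 (K.s 212 (K.s 80 (K.s 50 K.z K.t) (K.s 105 K.t K.t)) (K.s 243 (K.s 36 K.t K.t) (K.s 360 K.t K.t))) (K.s 567 (K.s 99 K.t (K.s 7 K.t K.t)) (K.s 189 (K.s 108 K.t K.t) (K.s 486 K.t K.t)))) (K.s 1365 (K.s 630 (K.s 180 K.t (K.s 186 K.t K.t)) (K.s 455 (K.s 243 K.t K.t) (K.s 265 K.t K.t))) (K.s 252 (K.s 84 K.t (K.s 126 K.t K.t)) (K.s 206 (K.s 183 K.t K.t) (K.s 22 K.t K.t))))) (K.s 2013 (K.s 1011 (K.s 264 (K.s 21 K.t (K.s 9 K.t K.t)) (K.s 297 (K.s 242 K.t K.t) (K.s 198 K.t K.t))) (K.s 254 (K.s 1 K.t (K.s 224 K.t K.t)) (K.s 286 (K.s 76 K.t K.t) (K.s 420 K.t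 K.t)))) (K.s 573 (K.s 438 (K.s 123 K.t (K.s 100 K.t K.t)) (K.s 90 (K.s 10 K.t K.t) (K.s 24 K.t K.t))) (K.s 351 (K.s 36 K.t (K.s 279 K.t K.t)) (K.s 159 (K.s 99 K.t K.t) (K.s 30 K.t K.t)))))) (K.s 2905 (K.s 1102 (K.s 508 (K.s 130 (K.s 40 K.t (K.s 18 K.t K.t)) (K.s 270 (K.s 135 K.t K.t) (K.s 15 K.t K.t))) (K.s 297 (K.s 27 K.t (K.s 27 K.t K.t)) (K.s 135 (K.s 90 K.t K.t) (K.s 100 K.t K.t)))) (K.s 1062 (K.s 453 (K.s 78 K.t (K.s 165 K.t K.t)) (K.s 375 (K.s 330 K.t K.t) (K.s 144 K.t K.t))) (K.s 351 (K.s 18 K.t (K.s 92 K.t K.t)) (K.s 334 (K.s 315 K.t K.t) (K.s 26 K.t K.t))))) (K.s 1950 (K.s 1464 (K.s 1140 (K.s 60 K.t (K.s 1005 K.t K.t)) (K.s 135 (K.s 40 K.t K.t) (K.s 117 K.t K.t))) (K.s 141 (K.s 21 K.t (K.s 15 K.t K.t)) (K.s 156 (K.s 45 K.t K.t) (K.s 54 K.t K.t)))) (K.s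 575 (K.s 333 (K.s 195 K.t (K.s 7 K.t K.t)) (K.s 207 (K.s 96 K.t K.t) (K.s 15 K.t K.t))) (K.s 775 (K.s 118 K.t (K.s 462 K.t K.t)) (K.s 135 (K.s 15 K.t K.t) (K.s 81 K.t K.t))))))) (K.s 4473 (K.s 2643 (K.s 1015 (K.s 429 (K.s 201 (K.s 105 K.t (K.s 27 K.t K.t)) (K.s 156 (K.s 30 K.t K.t) (K.s 21 K.t K.t))) (K.s 243 (K.s 66 K.t (K.s 96 K.t K.t)) (K.s 153 (K.s 81 K.t K.t) (K.s 99 K.t K.t)))) (K.s 1196 (K.s 305 (K.s 35 K.t (K.s 63 K.t K.t)) (K.s 729 (K.s 705 K.t K.t) (K.s 45 K.t K.t))) (K.s 234 (K.s 99 K.t (K.s 40 K.t K.t)) (K.s 153 (K.s 63 K.t K.t) (K.s 27 K.t K.t))))) (K.s 696 (K.s 378 (K.s 108 (K.s 27 K.t (K.s 9 K.t K.t)) (K.s 189 (K.s 72 K.t K.t) (K.s 63 K.t K.t))) (K.s 189 (K.s 54 K.t (K.s 33 K.t K.t)) (K.s 45 (K.s 3 K.t K.t) (K.s 9 K.t K.t)))) (K.s 447 (K.s 191 (K.s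 126 K.t (K.s 42 K.t K.t)) (K.s 208 (K.s 100 K.t K.t) (K.s 12 K.t K.t))) (K.s 189 (K.s 45 K.t (K.s 124 K.t K.t)) (K.s 315 (K.s 225 K.t K.t) (K.s 60 K.t K.t)))))) (K.s 4380 (K.s 763 (K.s 408 (K.s 312 (K.s 168 K.t (K.s 48 K.t K.t)) (K.s 50 (K.s 18 K.t K.t) (K.s 1 K.t K.t))) (K.s 199 (K.s 54 K.t (K.s 30 K.t K.t)) (K.s 128 (K.s 20 K.t K.t) (K.s 27 K.t K.t)))) (K.s 917 (K.s 509 (K.s 377 K.t (K.s 27 K.t K.t)) (K.s 261 (K.s 219 K.t K.t) (K.s 44 K.t K.t))) (K.s 972 (K.s 252 K.t (K.s 96 K.t K.t)) (K.s 855 (K.s 624 K.t K.t) (K.s 765 K.t K.t))))) (K.s 4251 (K.s 1747 (K.s 449 (K.s 27 K.t (K.s 294 K.t K.t)) (K.s 523 (K.s 451 K.t K.t) (K.s 108 K.t K.t))) (K.s 1025 (K.s 644 K.t (K.s 96 K.t K.t)) (K.s 750 (K.s 325 K.t K.t) (K.s 483 K.t K.t)))) (K.s 1239 (K.s 528 (K.s 150 K.t (K.s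 262 K.t K.t)) (K.s 543 (K.s 333 K.t K.t) (K.s 114 K.t K.t))) (K.s 882 (K.s 399 K.t (K.s 363 K.t K.t)) (K.s 714 (K.s 350 K.t K.t) (K.s 21 K.t K.t)))))))))

/-- the values congruent to 34 modulo 128 -/
noncomputable def x34 : T := T.nd (T.lf (K.s 16661 (K.s 694 (K.s 464 K.z K.t) K.t) (K.s 2327 K.t (K.s 4030 K.t K.t)))) (T.lf (K.s 19598 (K.s 15036 K.z K.t) (K.s 625 K.t K.t)))

/-- the values congruent to 36 modulo 128 -/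
noncomputable def x36 : T := T.nd (T.lf (K.s 15399 (K.s 8469 (K.s 4674 (K.s 2619 (K.s 2259 K.z K.t) K.t) (K.s 2688 K.t K.t)) (K.s 5760 (K.s 810 K.t K.t) (K.s 135 K.t (K.s 870 K.t K.t)))) (K.s 2913 (K.s 1350 (K.s 1089 K.t K.t) (K.s 1116 K.t K.t)) (K.s 3407 (K.s 927 K.t K.t) (K.s 2665 K.t (K.s 240 K.t K.t)))))) (T.lf (K.s 14514 (K.s 6076 (K.s 3681 (K.s 1473 (K.s 994 K.z K.t) K.t) (K.s 481 K.t K.t)) (K.s 5781 (K.s 1947 K.t K.t) (K.s 732 K.t K.t))) (K.s 6466 (K.s 3337 (K.s 2617 K.t K.t) (K.s 1917 K.t K.t)) (K.s 2136 (K.s 381 K.t K.t) (K.s 3780 K.t K.t)))))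

/-- the values congruent to 38 modulo 128 -/
noncomputable def x38 : T := T.nd (T.lf (K.s 9600 (K.s 9220 K.z K.t) (K.s 7225 K.t K.t))) (T.lf (K.s 9962 (K.s 8056 (K.s 2836 K.z K.t) K.t) (K.s 11142 K.t (K.s 4842 K.t K.t))))

/-- the values congruent to 40 modulo 128 -/
noncomputable def x40 : T := T.nd (T.lf (K.s 12905 (K.s 5723 (K.s 3185 (K.s 1025 (K.s 905 (K.s 356 K.z K.t) K.t) (K.s 1592 K.t (K.s 28 K.t K.t))) (K.s 621 (K.s 351 K.t (K.s 27 K.t K.t)) (K.s 864 K.t (K.s 108 K.t K.t)))) (K.s 3387 (K.s 1709 (K.s 35 K.t K.t) (K.s 1384 K.t (K.s 66 K.t K.t))) (K.s 1104 (K.s 21 K.t (K.s 48 K.t K.t)) (K.s 1311 K.t (K.s 1035 K.t K.t))))) (K.s 4590 (K.s 2214 (K.s 1080 (K.s 945 K.t K.t) (K.s 96 K.t (K.s 714 K.t K.t))) (K.s 621 (K.s 171 K.t (K.s 126 K.t K.t)) (K.s 270 K.t (K.s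 198 K.t K.t)))) (K.s 2925 (K.s 1045 (K.s 765 K.t (K.s 261 K.t K.t)) (K.s 1175 K.t (K.s 85 K.t K.t))) (K.s 3636 (K.s 1487 K.t (K.s 1132 K.t K.t)) (K.s 1904 K.t (K.s 3609 K.t K.t))))))) (T.lf (K.s 14790 (K.s 5052 (K.s 1197 (K.s 723 (K.s 285 (K.s 45 K.z K.t) (K.s 51 K.t K.t)) (K.s 207 (K.s 72 K.t K.t) (K.s 153 K.t K.t))) (K.s 1530 (K.s 420 (K.s 210 K.t K.t) (K.s 780 K.t K.t)) (K.s 444 (K.s 363 K.t K.t) (K.s 95 K.t K.t)))) (K.s 6219 (K.s 3300 (K.s 1440 K.t (K.s 550 K.t K.t)) (K.s 846 (K.s 426 K.t K.t) (K.s 1020 K.t K.t))) (K.s 1701 (K.s 405 (K.s 351 K.t K.t) (K.s 296 K.t K.t)) (K.s 1701 (K.s 1539 K.t K.t) (K.s 111 K.t K.t))))) (K.s 3102 (K.s 1827 (K.s 126 (K.s 78 K.t (K.s 3 K.t K.t)) (K.s 522 (K.s 81 K.t K.t) (K.s 522 K.t K.t))) (K.s 324 (K.s 255 (K.s 135 K.t K.t) (K.s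 20 K.t K.t)) (K.s 510 (K.s 461 K.t K.t) (K.s 291 K.t K.t)))) (K.s 5394 (K.s 1155 (K.s 291 (K.s 84 K.t K.t) (K.s 549 K.t K.t)) (K.s 711 (K.s 555 K.t K.t) (K.s 15 K.t K.t))) (K.s 1746 (K.s 1074 (K.s 486 K.t K.t) (K.s 654 K.t K.t)) (K.s 2520 (K.s 1725 K.t K.t) (K.s 405 K.t K.t)))))))

/-- the values congruent to 42 modulo 128 -/
noncomputable def x42 : T := T.nd (T.lf (K.s 16176 (K.s 5943 (K.s 273 K.z K.t) K.t) (K.s 1767 K.t (K.s 2087 K.t K.t)))) (T.lf (K.s 12652 (K.s 10233 K.z K.t) K.t))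

/-- the values congruent to 44 modulo 128 -/
noncomputable def x44 : T := T.nd (T.lf (K.s 16588 (K.s 9370 (K.s 2401 (K.s 601 (K.s 283 K.z K.t) K.t) (K.s 927 K.t (K.s 5373 K.t K.t))) (K.s 4839 (K.s 3786 K.t K.t) (K.s 1422 K.t (K.s 165 K.t K.t)))) (K.s 2814 (K.s 333 (K.s 213 K.t K.t) (K.s 69 K.t (K.s 324 K.t K.t))) (K.s 1773 (K.s 9 K.t (K.s 165 K.t K.t)) (K.s 1716 K.t (K.s 2655 K.t K.t)))))) (T.lf (K.s 15623 (K.s 6608 (K.s 4646 (K.s 3152 (K.s 1775 K.z K.t) K.t) (K.s 486 K.t K.t)) (K.s 405 (K.s 30 K.t K.t) (K.s 5859 K.t (K.s 756 K.t K.t)))) (K.s 3227 (K.s 2838 (K.s 1596 K.t K.t) (K.s 81 K.t K.t)) (K.s 6418 (K.s 259 K.t K.t) (K.s 1968 K.t (K.s 1424 K.t K.t))))))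

/-- the values congruent to 46 modulo 128 -/
noncomputable def x46 : T := T.nd (T.lf (K.s 17081 (K.s 16309 K.z K.t) (K.s 5178 K.t K.t))) (T.lf (K.s 13596 (K.s 11034 K.z K.t) (K.s 9963 K.t K.t)))

/-- the values congruent to 48 modulo 128 -/
noncomputable def x48 : T := T.nd (T.lf (K.s 14109 (K.s 8448 (K.s 4917 (K.s 2382 (K.s 666 (K.s 116 (K.s 51 K.z K.t) (K.s 369 K.t K.t)) (K.s 1002 K.t (K.s 399 K.t K.t))) (K.s 1260 (K.s 63 K.t (K.s 567 K.t K.t)) (K.s 900 (K.s 639 K.t K.t) (K.s 180 K.t K.t)))) (K.s 2085 (K.s 930 (K.s 633 K.t (K.s 54 K.t K.t)) (K.s 720 (K.s 312 K.t K.t) (K.s 45 K.t K.t))) (K.s 303 (K.s 60 K.t (K.s 120 K.t K.t)) (K.s 1053 (K.s 108 K.t K.t) (K.s 9 K.t K.t))))) (K.s 3042 (K.s 1404 (K.s 369 (K.s 72 K.t (K.s 207 K.t K.t)) (K.s 675 (K.s 600 K.t K.t) (K.s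 100 K.t K.t))) (K.s 531 (K.s 45 K.t (K.s 405 K.t K.t)) (K.s 567 (K.s 189 K.t K.t) (K.s 459 K.t K.t)))) (K.s 837 (K.s 132 (K.s 27 K.t (K.s 81 K.t K.t)) (K.s 543 (K.s 469 K.t K.t) (K.s 150 K.t K.t))) (K.s 615 (K.s 54 K.t (K.s 396 K.t K.t)) (K.s 1005 (K.s 690 K.t K.t) (K.s 87 K.t K.t)))))) (K.s 4941 (K.s 2205 (K.s 1266 (K.s 756 (K.s 243 K.t (K.s 108 K.t K.t)) (K.s 369 (K.s 207 K.t K.t) (K.s 108 K.t K.t))) (K.s 240 (K.s 42 K.t (K.s 69 K.t K.t)) (K.s 627 (K.s 417 K.t K.t) (K.s 54 K.t K.t)))) (K.s 1116 (K.s 495 (K.s 33 K.t (K.s 435 K.t K.t)) (K.s 126 (K.s 111 K.t K.t) (K.s 432 K.t K.t))) (K.s 450 (K.s 117 K.t (K.s 235 K.t K.t)) (K.s 504 (K.s 111 K.t K.t) (K.s 126 K.t K.t))))) (K.s 5332 (K.s 972 (K.s 384 (K.s 27 K.t (K.s 135 K.t K.t)) (K.s 204 (K.s 183 K.t K.t) (K.s 69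 K.t K.t))) (K.s 1995 (K.s 270 K.t (K.s 1450 K.t K.t)) (K.s 1500 (K.s 630 K.t K.t) (K.s 348 K.t K.t)))) (K.s 3773 (K.s 2216 (K.s 572 K.t (K.s 963 K.t K.t)) (K.s 84 (K.s 39 K.t K.t) (K.s 255 K.t K.t))) (K.s 981 (K.s 372 K.t (K.s 46 K.t K.t)) (K.s 273 (K.s 231 K.t K.t) (K.s 158 K.t K.t)))))))) (T.lf (K.s 13816 (K.s 7831 (K.s 3484 (K.s 1621 (K.s 1354 (K.s 460 (K.s 121 K.z K.t) (K.s 126 K.t K.t)) (K.s 78 (K.s 21 K.t K.t) (K.s 27 K.t K.t))) (K.s 1008 (K.s 558 (K.s 414 K.t K.t) (K.s 395 K.t K.t)) (K.s 540 (K.s 80 K.t K.t) (K.s 140 K.t K.t)))) (K.s 2970 (K.s 1458 (K.s 720 (K.s 594 K.t K.t) (K.s 108 K.t K.t)) (K.s 1008 (K.s 297 K.t K.t) (K.s 474 K.t K.t))) (K.s 648 (K.s 243 (K.s 234 K.t K.t) (K.s 132 K.t K.t)) (K.s 324 (K.s 189 K.t K.t) (K.s 243 K.t K.t))))) (K.s 3411 (K.s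 1755 (K.s 735 (K.s 168 K.t (K.s 183 K.t K.t)) (K.s 723 (K.s 13 K.t K.t) (K.s 90 K.t K.t))) (K.s 1158 (K.s 501 (K.s 468 K.t K.t) (K.s 327 K.t K.t)) (K.s 291 (K.s 180 K.t K.t) (K.s 9 K.t K.t)))) (K.s 1152 (K.s 597 (K.s 507 (K.s 207 K.t K.t) (K.s 51 K.t K.t)) (K.s 288 (K.s 150 K.t K.t) (K.s 72 K.t K.t))) (K.s 729 (K.s 465 (K.s 135 K.t K.t) (K.s 120 K.t K.t)) (K.s 297 (K.s 216 K.t K.t) (K.s 144 K.t K.t)))))) (K.s 4158 (K.s 2871 (K.s 1359 (K.s 448 (K.s 198 K.t (K.s 117 K.t K.t)) (K.s 560 (K.s 410 K.t K.t) (K.s 189 K.t K.t))) (K.s 759 (K.s 456 (K.s 198 K.t K.t) (K.s 165 K.t K.t)) (K.s 618 (K.s 240 K.t K.t) (K.s 102 K.t K.t)))) (K.s 540 (K.s 225 (K.s 132 (K.s 27 K.t K.t) (K.s 21 K.t K.t)) (K.s 99 (K.s 72 K.t K.t) (K.s 93 K.t K.t))) (K.s 252 (K.s 87 (K.s 5 K.t K.t) (K.s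 150 K.t K.t)) (K.s 194 (K.s 180 K.t K.t) (K.s 202 K.t K.t))))) (K.s 4494 (K.s 792 (K.s 216 (K.s 144 K.t (K.s 54 K.t K.t)) (K.s 414 (K.s 90 K.t K.t) (K.s 108 K.t K.t))) (K.s 2268 (K.s 393 (K.s 63 K.t K.t) (K.s 660 K.t K.t)) (K.s 639 (K.s 405 K.t K.t) (K.s 756 K.t K.t)))) (K.s 2832 (K.s 1563 (K.s 1275 (K.s 996 K.t K.t) (K.s 153 K.t K.t)) (K.s 768 (K.s 648 K.t K.t) (K.s 240 K.t K.t))) (K.s 2484 (K.s 1386 (K.s 459 K.t K.t) (K.s 168 K.t K.t)) (K.s 396 (K.s 144 K.t K.t) (K.s 117 K.t K.t))))))))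

/-- the values congruent to 50 modulo 128 -/
noncomputable def x50 : T := T.nd (T.lf (K.s 18093 (K.s 17868 (K.s 3687 K.z K.t) K.t) (K.s 2349 K.t K.t))) (T.lf (K.s 15062 (K.s 13219 (K.s 12769 K.z K.t) K.t) (K.s 4653 K.t K.t)))

/-- the values congruent to 52 modulo 128 -/
noncomputable def x52 : T := T.nd (T.lf (K.s 16523 (K.s 13007 (K.s 4796 (K.s 2045 (K.s 1778 K.z K.t) K.t) (K.s 1565 K.t (K.s 3727 K.t K.t))) (K.s 738 (K.s 728 K.t K.t) (K.s 1673 K.t (K.s 130 K.t K.t)))) (K.s 1650 (K.s 510 (K.s 219 K.t K.t) (K.s 459 K.t (K.s 285 K.t K.t))) (K.s 5610 (K.s 156 K.t (K.s 5267 K.t K.t)) (K.s 2925 K.t (K.s 362 K.t K.t)))))) (T.lf (K.s 13185 (K.s 2700 (K.s 1764 (K.s 963 K.z K.t) (K.s 621 K.t K.t)) (K.s 3465 (K.s 152 K.t K.t) (K.s 1770 K.t K.t))) (K.s 6450 (K.s 4410 (K.s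 540 K.t K.t) (K.s 819 K.t K.t)) (K.s 5835 (K.s 3630 K.t K.t) (K.s 750 K.t K.t)))))

/-- the values congruent to 54 modulo 128 -/
noncomputable def x54 : T := T.nd (T.lf (K.s 25283 K.z K.t)) (T.lf (K.s 9625 (K.s 1428 (K.s 303 K.z K.t) (K.s 5020 K.t K.t)) (K.s 12366 (K.s 9128 K.t K.t) (K.s 6912 K.t K.t))))

/-- the values congruent to 56 modulo 128 -/
noncomputable def x56 : T := T.nd (T.lf (K.s 15792 (K.s 10039 (K.s 5485 (K.s 3784 (K.s 724 (K.s 15 K.z K.t) (K.s 1425 K.t K.t)) (K.s 990 K.t (K.s 270 K.t K.t))) (K.s 2619 (K.s 540 K.t (K.s 1485 K.t K.t)) (K.s 1080 (K.s 450 K.t K.t) (K.s 810 K.t K.t)))) (K.s 3735 (K.s 2805 (K.s 2052 K.t (K.s 117 K.t K.t)) (K.s 255 (K.s 93 K.t K.t) (K.s 669 K.t K.t))) (K.s 705 (K.s 225 K.t (K.s 396 K.t K.t)) (K.s 510 (K.s 167 K.t K.t)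 (K.s 594 K.t K.t))))) (K.s 3787 (K.s 1782 (K.s 574 (K.s 7 K.t (K.s 378 K.t K.t)) (K.s 392 (K.s 348 K.t K.t) (K.s 591 K.t K.t))) (K.s 430 (K.s 250 K.t (K.s 135 K.t K.t)) (K.s 1008 (K.s 945 K.t K.t) (K.s 162 K.t K.t)))) (K.s 6885 (K.s 2745 (K.s 195 K.t (K.s 195 K.t K.t)) (K.s 99 (K.s 90 K.t K.t) (K.s 531 K.t K.t))) (K.s 1045 (K.s 420 K.t (K.s 150 K.t K.t)) (K.s 1170 (K.s 40 K.t K.t) (K.s 667 K.t K.t))))))) (T.lf (K.s 13058 (K.s 7136 (K.s 2960 (K.s 881 (K.s 506 (K.s 206 K.z K.t) K.t) (K.s 270 K.t (K.s 77 K.t K.t))) (K.s 3126 (K.s 2916 K.t (K.s 63 K.t K.t)) (K.s 6 K.t (K.s 869 K.t K.t)))) (K.s 1742 (K.s 1386 (K.s 567 K.t (K.s 18 K.t K.t)) (K.s 81 K.t (K.s 75 K.t K.t))) (K.s 3127 (K.s 73 K.t (K.s 810 K.t K.t)) (K.s 81 K.t (K.s 615 K.t K.t))))) (K.s 6279 (K.s 4158 (K.s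 2079 (K.s 1470 K.t (K.s 393 K.t K.t)) (K.s 117 K.t (K.s 1812 K.t K.t))) (K.s 1350 (K.s 216 K.t (K.s 897 K.t K.t)) (K.s 15 K.t (K.s 120 K.t K.t)))) (K.s 3550 (K.s 282 (K.s 9 K.t (K.s 180 K.t K.t)) (K.s 2622 K.t (K.s 645 K.t K.t))) (K.s 4949 (K.s 1664 K.t (K.s 1773 K.t K.t)) (K.s 600 K.t (K.s 588 K.t K.t)))))))

/-- the values congruent to 58 modulo 128 -/
noncomputable def x58 : T := T.nd (T.lf (K.s 22382 (K.s 19169 (K.s 6814 K.z K.t) K.t) (K.s 5537 K.t K.t))) T.nil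

/-- the values congruent to 60 modulo 128 -/
noncomputable def x60 : T := T.nd (T.lf (K.s 13710 (K.s 8490 (K.s 2388 (K.s 1562 (K.s 525 K.z K.t) K.t) (K.s 1510 K.t (K.s 677 K.t K.t))) (K.s 2160 (K.s 1035 K.t K.t) (K.s 309 K.t (K.s 2256 K.t K.t)))) (K.s 2715 (K.s 1395 (K.s 1230 K.t K.t) (K.s 315 K.t (K.s 90 K.t K.t))) (K.s 3288 (K.s 723 K.t (K.s 2412 K.t K.t)) (K.s 3672 K.t (K.s 6141 K.t K.t)))))) (T.lf (K.s 17767 (K.s 9907 (K.s 7333 (K.s 6442 K.z K.t) (K.s 1089 K.t K.t)) (K.s 3780 (K.s 1593 K.t K.t) (K.s 840 K.t K.t))) (K.s 6735 (K.s 1688 (K.s 1170 K.t K.t) (K.s 3412 K.t K.t)) (K.s 2145 (K.s 1575 K.t K.t) (K.s 3017 K.t K.t)))))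

/-- the values congruent to 62 modulo 128 -/
noncomputable def x62 : T := T.nd (T.lf (K.s 28548 (K.s 16510 K.z K.t) K.t)) (T.lf (K.s 24833 (K.s 15218 (K.s 4660 K.z K.t) K.t) (K.s 290 K.t K.t)))

/-- the values congruent to 64 modulo 128 -/
noncomputable def x64 : T := T.nd (T.lf (K.s 11891 (K.s 7025 (K.s 3701 (K.s 2096 (K.s 1118 (K.s 446 (K.s 386 (K.s 290 (K.s 182 K.z K.t) (K.s 21 K.t K.t)) (K.s 30 K.t (K.s 18 K.t K.t))) (K.s 210 (K.s 15 K.t (K.s 108 K.t K.t)) (K.s 375 K.t (K.s 15 K.t K.t)))) (K.s 594 (K.s 288 (K.s 18 K.t (K.s 225 K.t K.t)) (K.s 27 K.t (K.s 223 K.t K.t))) (K.s 186 (K.s 9 K.t (K.s 135 K.t K.t)) (K.s 120 K.t (K.s 63 K.t K.t))))) (K.s 1038 (K.s 525 (K.s 255 (K.s 30 K.t (K.s 210 K.t K.t)) (K.s 180 K.t (K.s 72 K.t K.t))) (K.s 333 (K.s 27 K.t (K.s 78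 K.t K.t)) (K.s 117 K.t (K.s 27 K.t K.t)))) (K.s 207 (K.s 72 (K.s 42 K.t (K.s 15 K.t K.t)) (K.s 33 K.t (K.s 21 K.t K.t))) (K.s 270 (K.s 30 K.t (K.s 165 K.t K.t)) (K.s 27 K.t (K.s 18 K.t K.t)))))) (K.s 1584 (K.s 655 (K.s 180 (K.s 126 (K.s 18 K.t (K.s 63 K.t K.t)) (K.s 2 K.t (K.s 40 K.t K.t))) (K.s 360 (K.s 72 K.t (K.s 63 K.t K.t)) (K.s 48 K.t (K.s 42 K.t K.t)))) (K.s 587 (K.s 215 (K.s 119 K.t (K.s 81 K.t K.t)) (K.s 96 K.t (K.s 189 K.t K.t))) (K.s 81 (K.s 18 K.t (K.s 45 K.t K.t)) (K.s 99 K.t (K.s 33 K.t K.t))))) (K.s 996 (K.s 621 (K.s 432 (K.s 126 K.t (K.s 90 K.t K.t)) (K.s 84 K.t (K.s 35 K.t K.t))) (K.s 207 (K.s 60 K.t (K.s 129 K.t K.t)) (K.s 113 K.t (K.s 13 K.t K.t)))) (K.s 360 (K.s 300 (K.s 3 K.t (K.s 81 K.t K.t)) (K.s 18 K.t (K.s 9 K.t K.t))) (K.s 270 (K.s 21 K.t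 (K.s 243 K.t K.t)) (K.s 48 K.t (K.s 27 K.t K.t))))))) (K.s 2349 (K.s 1176 (K.s 627 (K.s 156 (K.s 111 (K.s 6 K.t (K.s 45 K.t K.t)) (K.s 30 K.t (K.s 4 K.t K.t))) (K.s 300 (K.s 195 K.t (K.s 63 K.t K.t)) (K.s 126 K.t (K.s 18 K.t K.t)))) (K.s 104 (K.s 54 (K.s 29 K.t (K.s 10 K.t K.t)) (K.s 15 K.t (K.s 30 K.t K.t))) (K.s 355 (K.s 40 K.t (K.s 99 K.t K.t)) (K.s 36 K.t (K.s 27 K.t K.t))))) (K.s 603 (K.s 405 (K.s 252 (K.s 57 K.t (K.s 93 K.t K.t)) (K.s 3 K.t (K.s 60 K.t K.t))) (K.s 81 (K.s 15 K.t (K.s 57 K.t K.t)) (K.s 49 K.t (K.s 50 K.t K.t)))) (K.s 342 (K.s 126 (K.s 114 K.t (K.s 3 K.t K.t)) (K.s 54 K.t (K.s 72 K.t K.t))) (K.s 204 (K.s 54 K.t (K.s 81 K.t K.t)) (K.s 6 K.t (K.s 15 K.t K.t)))))) (K.s 1502 (K.s 897 (K.s 447 (K.s 234 (K.s 42 K.t (K.s 45 K.t K.t)) (K.s 69 K.t (K.s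 9 K.t K.t))) (K.s 243 (K.s 54 K.t (K.s 99 K.t K.t)) (K.s 42 K.t (K.s 30 K.t K.t)))) (K.s 360 (K.s 75 (K.s 36 K.t (K.s 9 K.t K.t)) (K.s 15 K.t (K.s 63 K.t K.t))) (K.s 150 (K.s 90 K.t (K.s 45 K.t K.t)) (K.s 10 K.t (K.s 65 K.t K.t))))) (K.s 484 (K.s 250 (K.s 88 (K.s 25 K.t (K.s 30 K.t K.t)) (K.s 54 K.t (K.s 54 K.t K.t))) (K.s 150 (K.s 30 K.t (K.s 105 K.t K.t)) (K.s 30 K.t (K.s 27 K.t K.t)))) (K.s 231 (K.s 66 (K.s 48 K.t (K.s 3 K.t K.t)) (K.s 90 K.t (K.s 15 K.t K.t))) (K.s 174 (K.s 93 K.t (K.s 72 K.t K.t)) (K.s 81 (K.s 36 K.t K.t) (K.s 42 K.t K.t)))))))) (K.s 5064 (K.s 2478 (K.s 1170 (K.s 525 (K.s 360 (K.s 238 (K.s 63 K.t (K.s 119 K.t K.t)) (K.s 32 K.t (K.s 45 K.t K.t))) (K.s 60 (K.s 25 K.t (K.s 23 K.t K.t)) (K.s 21 K.t (K.s 24 K.t K.t)))) (K.s 210 (K.s 105 (K.s 33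 K.t (K.s 57 K.t K.t)) (K.s 35 K.t (K.s 19 K.t K.t))) (K.s 273 (K.s 21 K.t (K.s 9 K.t K.t)) (K.s 42 K.t (K.s 75 K.t K.t))))) (K.s 486 (K.s 300 (K.s 135 (K.s 63 K.t (K.s 57 K.t K.t)) (K.s 45 K.t (K.s 9 K.t K.t))) (K.s 51 (K.s 15 K.t (K.s 9 K.t K.t)) (K.s 36 K.t (K.s 18 K.t K.t)))) (K.s 486 (K.s 108 (K.s 54 K.t (K.s 3 K.t K.t)) (K.s 126 K.t (K.s 126 K.t K.t))) (K.s 198 (K.s 81 K.t (K.s 72 K.t K.t)) (K.s 45 K.t (K.s 75 K.t K.t)))))) (K.s 1127 (K.s 636 (K.s 522 (K.s 393 (K.s 207 K.t (K.s 150 K.t K.t)) (K.s 45 K.t (K.s 45 K.t K.t))) (K.s 51 (K.s 15 K.t (K.s 9 K.t K.t)) (K.s 48 K.t (K.s 6 K.t K.t)))) (K.s 171 (K.s 76 (K.s 27 K.t (K.s 9 K.t K.t)) (K.s 5 K.t (K.s 81 K.t K.t))) (K.s 247 (K.s 180 K.t (K.s 21 K.t K.t)) (K.s 13 K.t (K.s 37 K.t K.t))))) (K.s 1000 (K.s 445 (K.s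 193 (K.s 85 K.t (K.s 63 K.t K.t)) (K.s 18 K.t (K.s 129 K.t K.t))) (K.s 90 (K.s 9 K.t (K.s 36 K.t K.t)) (K.s 120 K.t (K.s 150 K.t K.t)))) (K.s 185 (K.s 75 (K.s 15 K.t (K.s 30 K.t K.t)) (K.s 45 K.t (K.s 30 K.t K.t))) (K.s 190 (K.s 25 K.t (K.s 54 K.t K.t)) (K.s 60 K.t (K.s 18 K.t K.t))))))) (K.s 2748 (K.s 1236 (K.s 537 (K.s 291 (K.s 156 (K.s 66 K.t (K.s 85 K.t K.t)) (K.s 35 K.t (K.s 37 K.t K.t))) (K.s 60 (K.s 21 K.t (K.s 6 K.t K.t)) (K.s 30 K.t (K.s 99 K.t K.t)))) (K.s 414 (K.s 169 (K.s 51 K.t (K.s 63 K.t K.t)) (K.s 35 K.t (K.s 175 K.t K.t))) (K.s 105 (K.s 15 K.t (K.s 6 K.t K.t)) (K.s 75 K.t (K.s 78 K.t K.t))))) (K.s 819 (K.s 465 (K.s 315 (K.s 165 K.t (K.s 132 K.t K.t)) (K.s 70 K.t (K.s 20 K.t K.t))) (K.s 210 (K.s 102 K.t (K.s 27 K.t K.t)) (K.s 36 K.t (K.s 96 K.t K.t))))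 (K.s 171 (K.s 108 (K.s 63 K.t (K.s 9 K.t K.t)) (K.s 18 K.t (K.s 30 K.t K.t))) (K.s 396 (K.s 225 K.t (K.s 45 K.t K.t)) (K.s 54 K.t (K.s 54 K.t K.t)))))) (K.s 4593 (K.s 2448 (K.s 693 (K.s 468 (K.s 125 K.t (K.s 13 K.t K.t)) (K.s 99 K.t (K.s 81 K.t K.t))) (K.s 1332 (K.s 927 K.t (K.s 138 K.t K.t)) (K.s 93 K.t (K.s 285 K.t K.t)))) (K.s 1278 (K.s 495 (K.s 225 K.t (K.s 204 K.t K.t)) (K.s 294 K.t (K.s 111 K.t K.t))) (K.s 537 (K.s 117 K.t (K.s 207 K.t K.t)) (K.s 9 K.t (K.s 156 K.t K.t))))) (K.s 1941 (K.s 615 (K.s 285 (K.s 6 K.t (K.s 168 K.t K.t)) (K.s 47 K.t (K.s 178 K.t K.t))) (K.s 408 (K.s 210 K.t (K.s 144 K.t K.t)) (K.s 507 K.t (K.s 307 K.t K.t)))) (K.s 564 (K.s 270 (K.s 189 K.t (K.s 60 K.t K.t)) (K.s 36 K.t (K.s 108 K.t K.t))) (K.s 408 (K.s 21 K.t (K.s 144 K.t K.t)) (K.s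 1740 (K.s 1731 K.t K.t) (K.s 477 K.t K.t)))))))))) (T.lf (K.s 11805 (K.s 6558 (K.s 3363 (K.s 1968 (K.s 1311 (K.s 915 (K.s 728 (K.s 519 (K.s 156 K.z K.t) (K.s 84 K.t K.t)) (K.s 76 K.t (K.s 12 K.t K.t))) (K.s 234 (K.s 3 K.t (K.s 168 K.t K.t)) (K.s 84 (K.s 44 K.t K.t) (K.s 60 K.t K.t)))) (K.s 356 (K.s 132 (K.s 27 K.t (K.s 90 K.t K.t)) (K.s 150 (K.s 125 K.t K.t) (K.s 15 K.t K.t))) (K.s 226 (K.s 40 K.t (K.s 166 K.t K.t)) (K.s 54 (K.s 30 K.t K.t) (K.s 12 K.t K.t))))) (K.s 696 (K.s 380 (K.s 231 (K.s 30 K.t (K.s 145 K.t K.t)) (K.s 124 (K.s 119 K.t K.t) (K.s 2 K.t K.t))) (K.s 169 (K.s 115 K.t (K.s 9 K.t K.t)) (K.s 81 (K.s 27 K.t K.t) (K.s 35 K.t K.t)))) (K.s 231 (K.s 74 (K.s 54 K.t (K.s 15 K.t K.t)) (K.s 58 (K.s 40 K.t K.t) (K.s 18 K.t K.t))) (K.s 273 (K.s 81 K.t (K.s 7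 K.t K.t)) (K.s 96 (K.s 11 K.t K.t) (K.s 48 K.t K.t)))))) (K.s 1863 (K.s 720 (K.s 405 (K.s 90 (K.s 60 K.t (K.s 15 K.t K.t)) (K.s 265 (K.s 90 K.t K.t) (K.s 35 K.t K.t))) (K.s 139 (K.s 18 K.t (K.s 102 K.t K.t)) (K.s 158 (K.s 121 K.t K.t) (K.s 11 K.t K.t)))) (K.s 540 (K.s 315 (K.s 60 K.t (K.s 192 K.t K.t)) (K.s 195 (K.s 135 K.t K.t) (K.s 8 K.t K.t))) (K.s 435 (K.s 90 K.t (K.s 69 K.t K.t)) (K.s 60 (K.s 54 K.t K.t) (K.s 45 K.t K.t))))) (K.s 594 (K.s 282 (K.s 117 (K.s 18 K.t (K.s 54 K.t K.t)) (K.s 36 (K.s 27 K.t K.t) (K.s 96 K.t K.t))) (K.s 159 (K.s 3 K.t (K.s 57 K.t K.t)) (K.s 99 (K.s 36 K.t K.t) (K.s 45 K.t K.t)))) (K.s 312 (K.s 68 (K.s 12 K.t (K.s 6 K.t K.t)) (K.s 175 (K.s 139 K.t K.t) (K.s 45 K.t K.t))) (K.s 225 (K.s 180 K.t (K.s 41 K.t K.t)) (K.s 69 (K.s 21 K.t K.t)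 (K.s 99 K.t K.t))))))) (K.s 3230 (K.s 1890 (K.s 1290 (K.s 789 (K.s 315 (K.s 5 K.t (K.s 150 K.t K.t)) (K.s 130 K.t (K.s 50 K.t K.t))) (K.s 156 (K.s 11 K.t (K.s 49 K.t K.t)) (K.s 144 (K.s 117 K.t K.t) (K.s 81 K.t K.t)))) (K.s 312 (K.s 63 (K.s 45 K.t (K.s 15 K.t K.t)) (K.s 63 (K.s 42 K.t K.t) (K.s 69 K.t K.t))) (K.s 108 (K.s 41 K.t (K.s 40 K.t K.t)) (K.s 126 (K.s 105 K.t K.t) (K.s 9 K.t K.t))))) (K.s 891 (K.s 603 (K.s 90 (K.s 30 K.t (K.s 15 K.t K.t)) (K.s 297 (K.s 255 K.t K.t) (K.s 198 K.t K.t))) (K.s 167 (K.s 32 K.t (K.s 130 K.t K.t)) (K.s 58 (K.s 46 K.t K.t) (K.s 18 K.t K.t)))) (K.s 216 (K.s 134 (K.s 4 K.t (K.s 59 K.t K.t)) (K.s 55 (K.s 25 K.t K.t) (K.s 15 K.t K.t))) (K.s 138 (K.s 36 K.t (K.s 27 K.t K.t)) (K.s 60 (K.s 45 K.t K.t) (K.s 27 K.t K.t)))))) (K.s 1027 (K.s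 510 (K.s 268 (K.s 81 (K.s 20 K.t (K.s 35 K.t K.t)) (K.s 49 (K.s 44 K.t K.t) (K.s 105 K.t K.t))) (K.s 132 (K.s 12 K.t (K.s 45 K.t K.t)) (K.s 30 (K.s 24 K.t K.t) (K.s 48 K.t K.t)))) (K.s 220 (K.s 79 (K.s 55 K.t (K.s 15 K.t K.t)) (K.s 51 (K.s 6 K.t K.t) (K.s 45 K.t K.t))) (K.s 75 (K.s 54 K.t (K.s 6 K.t K.t)) (K.s 159 (K.s 78 K.t K.t) (K.s 36 K.t K.t))))) (K.s 477 (K.s 203 (K.s 90 (K.s 18 K.t (K.s 60 K.t K.t)) (K.s 63 (K.s 9 K.t K.t) (K.s 15 K.t K.t))) (K.s 105 (K.s 10 K.t (K.s 75 K.t K.t)) (K.s 106 (K.s 55 K.t K.t) (K.s 9 K.t K.t)))) (K.s 255 (K.s 144 (K.s 51 K.t (K.s 75 K.t K.t)) (K.s 27 (K.s 17 K.t K.t) (K.s 45 K.t K.t))) (K.s 96 (K.s 60 K.t (K.s 33 K.t K.t)) (K.s 65 (K.s 55 K.t K.t) (K.s 85 K.t K.t)))))))) (K.s 5445 (K.s 2736 (K.s 1377 (K.s 528 (K.s 252 (K.s 99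 (K.s 53 K.t (K.s 1 K.t K.t)) (K.s 99 K.t (K.s 45 K.t K.t))) (K.s 36 (K.s 5 K.t (K.s 18 K.t K.t)) (K.s 108 (K.s 30 K.t K.t) (K.s 42 K.t K.t)))) (K.s 282 (K.s 129 (K.s 30 K.t (K.s 90 K.t K.t)) (K.s 126 (K.s 27 K.t K.t) (K.s 5 K.t K.t))) (K.s 243 (K.s 48 K.t (K.s 60 K.t K.t)) (K.s 135 (K.s 39 K.t K.t) (K.s 99 K.t K.t))))) (K.s 801 (K.s 486 (K.s 243 (K.s 81 K.t (K.s 36 K.t K.t)) (K.s 153 (K.s 18 K.t K.t) (K.s 20 K.t K.t))) (K.s 216 (K.s 81 K.t (K.s 84 K.t K.t)) (K.s 54 (K.s 27 K.t K.t) (K.s 30 K.t K.t)))) (K.s 306 (K.s 81 (K.s 45 K.t (K.s 15 K.t K.t)) (K.s 29 (K.s 9 K.t K.t) (K.s 22 K.t K.t))) (K.s 54 (K.s 9 K.t (K.s 24 K.t K.t)) (K.s 63 (K.s 54 K.t K.t) (K.s 72 K.t K.t)))))) (K.s 1287 (K.s 639 (K.s 261 (K.s 132 (K.s 27 K.t (K.s 54 K.t K.t)) (K.s 75 (K.s 48 K.t K.t)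 (K.s 45 K.t K.t))) (K.s 144 (K.s 81 K.t (K.s 18 K.t K.t)) (K.s 126 (K.s 27 K.t K.t) (K.s 21 K.t K.t)))) (K.s 288 (K.s 81 (K.s 63 K.t (K.s 15 K.t K.t)) (K.s 102 (K.s 17 K.t K.t) (K.s 6 K.t K.t))) (K.s 225 (K.s 63 K.t (K.s 87 K.t K.t)) (K.s 72 (K.s 15 K.t K.t) (K.s 18 K.t K.t))))) (K.s 675 (K.s 375 (K.s 210 (K.s 135 K.t (K.s 54 K.t K.t)) (K.s 78 (K.s 60 K.t K.t) (K.s 27 K.t K.t))) (K.s 120 (K.s 24 K.t (K.s 6 K.t K.t)) (K.s 45 (K.s 30 K.t K.t) (K.s 125 K.t K.t)))) (K.s 351 (K.s 120 (K.s 59 K.t (K.s 22 K.t K.t)) (K.s 150 (K.s 15 K.t K.t) (K.s 45 K.t K.t))) (K.s 189 (K.s 81 K.t (K.s 51 K.t K.t)) (K.s 108 (K.s 9 K.t K.t) (K.s 27 K.t K.t))))))) (K.s 2513 (K.s 1086 (K.s 468 (K.s 258 (K.s 153 (K.s 3 K.t (K.s 60 K.t K.t)) (K.s 45 (K.s 18 K.t K.t) (K.s 27 K.t K.t))) (K.s 105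 (K.s 21 K.t (K.s 27 K.t K.t)) (K.s 45 (K.s 24 K.t K.t) (K.s 24 K.t K.t)))) (K.s 360 (K.s 189 (K.s 27 K.t (K.s 42 K.t K.t)) (K.s 63 (K.s 36 K.t K.t) (K.s 72 K.t K.t))) (K.s 75 (K.s 27 K.t (K.s 9 K.t K.t)) (K.s 90 (K.s 15 K.t K.t) (K.s 15 K.t K.t))))) (K.s 597 (K.s 192 (K.s 54 (K.s 12 K.t (K.s 37 K.t K.t)) (K.s 8 (K.s 3 K.t K.t) (K.s 7 K.t K.t))) (K.s 141 (K.s 15 K.t (K.s 99 K.t K.t)) (K.s 174 (K.s 57 K.t K.t) (K.s 45 K.t K.t)))) (K.s 569 (K.s 185 (K.s 1 K.t (K.s 44 K.t K.t)) (K.s 112 (K.s 100 K.t K.t) (K.s 63 K.t K.t))) (K.s 100 (K.s 43 K.t (K.s 35 K.t K.t)) (K.s 141 (K.s 90 K.t K.t) (K.s 15 K.t K.t)))))) (K.s 3904 (K.s 1582 (K.s 790 (K.s 331 (K.s 115 K.t (K.s 120 K.t K.t)) (K.s 279 (K.s 156 K.t K.t) (K.s 45 K.t K.t))) (K.s 315 (K.s 63 K.t (K.s 12 K.t K.t)) (K.s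 63 (K.s 45 K.t K.t) (K.s 27 K.t K.t)))) (K.s 1449 (K.s 648 (K.s 153 K.t (K.s 90 K.t K.t)) (K.s 675 (K.s 195 K.t K.t) (K.s 27 K.t K.t))) (K.s 174 (K.s 27 K.t (K.s 81 K.t K.t)) (K.s 585 (K.s 420 K.t K.t) (K.s 10 K.t K.t))))) (K.s 2448 (K.s 1029 (K.s 638 (K.s 36 K.t (K.s 441 K.t K.t)) (K.s 352 (K.s 238 K.t K.t) (K.s 27 K.t K.t))) (K.s 813 (K.s 22 K.t (K.s 758 K.t K.t)) (K.s 444 (K.s 264 K.t K.t) (K.s 25 K.t K.t)))) (K.s 1728 (K.s 609 (K.s 318 K.t (K.s 22 K.t K.t)) (K.s 184 (K.s 12 K.t K.t) (K.s 134 K.t K.t))) (K.s 360 (K.s 270 K.t (K.s 27 K.t K.t)) (K.s 351 (K.s 15 K.t K.t) (K.s 81 K.t K.t))))))))))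

/-- the values congruent to 66 modulo 128 -/
noncomputable def x66 : T := T.nd (T.lf (K.s 27737 K.z K.t)) (T.lf (K.s 18001 (K.s 9603 (K.s 5179 K.z K.t) K.t) (K.s 1463 K.t K.t)))

/-- the values congruent to 68 modulo 128 -/
noncomputable def x68 : T := T.nd (T.lf (K.s 11035 (K.s 7599 (K.s 4897 (K.s 1936 (K.s 1378 K.z K.t) K.t) (K.s 2550 K.t K.t)) (K.s 343 (K.s 340 K.t K.t) (K.s 870 K.t K.t))) (K.s 5247 (K.s 4194 (K.s 372 K.t K.t) (K.s 729 K.t K.t)) (K.s 3690 (K.s 270 K.t K.t) (K.s 4494 K.t (K.s 654 K.t K.t)))))) (T.lf (K.s 16531 (K.s 15134 (K.s 10409 (K.s 9842 (K.s 1085 K.z K.t) K.t) (K.s 4176 K.t K.t)) (K.s 990 (K.s 648 K.t K.t) (K.s 45 K.t (K.s 195 K.t K.t)))) (K.s 3475 (K.s 1503 (K.s 888 K.t K.t) (K.s 883 K.t (K.s 438 K.t K.t))) (K.s 2013 (K.s 1736 K.t K.t)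 (K.s 990 K.t (K.s 2520 K.t K.t))))))

/-- the values congruent to 70 modulo 128 -/
noncomputable def x70 : T := T.nd (T.lf (K.s 18284 (K.s 6593 K.z K.t) K.t)) (T.lf (K.s 6114 (K.s 4392 (K.s 1739 K.z K.t) K.t) (K.s 9348 K.t (K.s 3288 K.t K.t))))

/-- the values congruent to 72 modulo 128 -/
noncomputable def x72 : T := T.nd (T.lf (K.s 14013 (K.s 6543 (K.s 3978 (K.s 2151 (K.s 1098 (K.s 738 (K.s 633 K.z K.t) K.t) (K.s 258 K.t K.t)) (K.s 1620 (K.s 612 K.t K.t) (K.s 27 K.t K.t))) (K.s 960 (K.s 486 (K.s 270 K.t K.t) (K.s 450 K.t K.t)) (K.s 615 (K.s 93 K.t K.t) (K.s 495 K.t (K.s 171 K.t K.t))))) (K.s 4011 (K.s 1377 (K.s 306 (K.s 243 K.t K.t) (K.s 420 K.t K.t)) (K.s 1095 (K.s 658 K.t K.t) (K.s 3 K.t (K.s 123 K.t K.t)))) (K.s 2145 (K.s 579 (K.s 54 K.t K.t) (K.s 1539 K.t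 K.t)) (K.s 639 (K.s 387 K.t K.t) (K.s 273 K.t (K.s 384 K.t K.t)))))) (K.s 4248 (K.s 1698 (K.s 338 (K.s 252 (K.s 225 K.t K.t) (K.s 63 K.t K.t)) (K.s 280 (K.s 112 K.t K.t) (K.s 228 K.t (K.s 54 K.t K.t)))) (K.s 1302 (K.s 427 (K.s 336 K.t K.t) (K.s 260 K.t K.t)) (K.s 495 (K.s 420 K.t K.t) (K.s 240 K.t (K.s 216 K.t K.t))))) (K.s 1797 (K.s 747 (K.s 690 (K.s 180 K.t K.t) (K.s 12 K.t K.t)) (K.s 449 (K.s 333 K.t K.t) (K.s 73 K.t (K.s 108 K.t K.t)))) (K.s 2415 (K.s 1750 (K.s 705 K.t K.t) (K.s 26 K.t K.t)) (K.s 396 (K.s 140 K.t K.t) (K.s 461 K.t (K.s 3608 K.t K.t)))))))) (T.lf (K.s 14125 (K.s 8266 (K.s 5206 (K.s 2128 (K.s 1345 (K.s 1175 K.z K.t) (K.s 705 K.t K.t)) (K.s 972 (K.s 27 K.t K.t) (K.s 1035 K.t K.t))) (K.s 1674 (K.s 1548 (K.s 927 K.t K.t) (K.s 72 K.t K.t)) (K.s 1080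 (K.s 420 K.t K.t) (K.s 189 K.t K.t)))) (K.s 3987 (K.s 2765 (K.s 2079 (K.s 909 K.t K.t) (K.s 567 K.t K.t)) (K.s 709 (K.s 454 K.t K.t) (K.s 504 K.t K.t))) (K.s 1563 (K.s 1062 (K.s 3 K.t K.t) (K.s 72 K.t K.t)) (K.s 147 (K.s 135 K.t K.t) (K.s 150 K.t K.t))))) (K.s 4380 (K.s 2475 (K.s 1881 (K.s 60 K.t (K.s 1515 K.t K.t)) (K.s 405 (K.s 138 K.t K.t) (K.s 159 K.t K.t))) (K.s 540 (K.s 108 (K.s 90 K.t K.t) (K.s 81 K.t K.t)) (K.s 540 (K.s 135 K.t K.t) (K.s 729 K.t K.t)))) (K.s 3900 (K.s 876 (K.s 135 (K.s 66 K.t K.t) (K.s 525 K.t K.t)) (K.s 1269 (K.s 276 K.t K.t) (K.s 902 K.t K.t))) (K.s 3150 (K.s 1765 (K.s 720 K.t K.t) (K.s 335 K.t K.t)) (K.s 846 (K.s 729 K.t K.t) (K.s 2067 K.t K.t)))))))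

/-- the values congruent to 74 modulo 128 -/
noncomputable def x74 : T := T.nd (T.lf (K.s 26536 (K.s 18010 (K.s 14299 (K.s 91 K.z K.t) (K.s 2457 K.t K.t)) (K.s 7221 (K.s 6741 K.t K.t) (K.s 639 K.t K.t))) (K.s 1827 (K.s 195 K.t (K.s 1419 K.t K.t)) (K.s 1302 (K.s 942 K.t K.t) (K.s 6 K.t K.t))))) (T.lf (K.s 16136 (K.s 8303 (K.s 6617 (K.s 3968 (K.s 1871 K.z K.t) K.t) (K.s 321 K.t (K.s 857 K.t K.t))) (K.s 4674 (K.s 2700 K.t K.t) (K.s 990 K.t (K.s 1386 K.t K.t)))) (K.s 6189 (K.s 1074 (K.s 225 K.t K.t) (K.s 2546 K.t (K.s 1567 K.t K.t))) (K.s 4848 (K.s 300 K.t (K.s 2175 K.t K.t)) (K.s 2348 K.t (K.s 154 K.t K.t))))))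

/-- the values congruent to 76 modulo 128 -/
noncomputable def x76 : T := T.nd (T.lf (K.s 9487 (K.s 3854 (K.s 3077 (K.s 179 (K.s 20 K.z K.t) (K.s 675 K.t K.t)) (K.s 117 K.t (K.s 333 K.t K.t))) (K.s 2400 (K.s 1482 K.t (K.s 135 K.t K.t)) (K.s 1188 K.t (K.s 987 K.t K.t)))) (K.s 7765 (K.s 6568 (K.s 5092 K.t (K.s 855 K.t K.t)) (K.s 9 K.t (K.s 1125 K.t K.t))) (K.s 2007 (K.s 369 K.t (K.s 1188 K.t K.t)) (K.s 7035 (K.s 182 K.t K.t) (K.s 3261 K.t K.t)))))) (T.lf (K.s 18156 (K.s 12243 (K.s 7014 (K.s 5199 (K.s 4122 K.z K.t) K.t) (K.s 2637 K.t (K.s 2178 K.t K.t))) (K.s 3683 (K.s 3582 K.t K.t) (K.s 745 K.t (K.s 189 K.t K.t)))) (K.s 1530 (K.s 641 (K.s 315 K.t K.t) (K.s 358 K.t (K.s 288 K.t K.t))) (K.s 3720 (K.s 2070 K.t K.t) (K.s 924 K.t (K.s 1806 K.t K.t))))))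

/-- the values congruent to 78 modulo 128 -/
noncomputable def x78 : T := T.nd (T.lf (K.s 12864 (K.s 2444 (K.s 1695 K.z K.t) K.t) (K.s 4545 K.t K.t))) (T.lf (K.s 18049 (K.s 9936 (K.s 4231 K.z K.t) K.t) (K.s 1225 K.t (K.s 10372 K.t K.t))))

/-- the values congruent to 80 modulo 128 -/
noncomputable def x80 : T := T.nd (T.lf (K.s 14632 (K.s 8602 (K.s 5290 (K.s 2050 (K.s 1483 (K.s 799 (K.s 145 K.z K.t) (K.s 279 K.t K.t)) (K.s 387 (K.s 162 K.t K.t) (K.s 75 K.t K.t))) (K.s 2079 (K.s 648 (K.s 645 K.t K.t) (K.s 1404 K.t K.t)) (K.s 639 (K.s 156 K.t K.t) (K.s 294 K.t K.t)))) (K.s 1071 (K.s 528 (K.s 330 K.t (K.s 75 K.t K.t)) (K.s 462 (K.s 363 K.t K.t) (K.s 72 K.t K.t))) (K.s 1089 (K.s 444 (K.s 144 K.t K.t) (K.s 105 K.t K.t)) (K.s 270 (K.s 120 K.t K.t) (K.s 243 K.t K.t)))))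 (K.s 3432 (K.s 2793 (K.s 756 (K.s 243 K.t (K.s 375 K.t K.t)) (K.s 387 (K.s 156 K.t K.t) (K.s 1485 K.t K.t))) (K.s 429 (K.s 78 (K.s 51 K.t K.t) (K.s 307 K.t K.t)) (K.s 51 (K.s 18 K.t K.t) (K.s 158 K.t K.t)))) (K.s 1275 (K.s 231 (K.s 36 K.t (K.s 135 K.t K.t)) (K.s 351 (K.s 55 K.t K.t) (K.s 531 K.t K.t))) (K.s 648 (K.s 561 (K.s 270 K.t K.t) (K.s 66 K.t K.t)) (K.s 513 (K.s 189 K.t K.t) (K.s 75 K.t K.t)))))) (K.s 4023 (K.s 1413 (K.s 858 (K.s 621 (K.s 27 K.t (K.s 486 K.t K.t)) (K.s 162 (K.s 81 K.t K.t) (K.s 54 K.t K.t))) (K.s 240 (K.s 195 (K.s 30 K.t K.t) (K.s 17 K.t K.t)) (K.s 108 (K.s 90 K.t K.t) (K.s 144 K.t K.t)))) (K.s 1125 (K.s 420 (K.s 180 K.t (K.s 9 K.t K.t)) (K.s 165 (K.s 105 K.t K.t) (K.s 225 K.t K.t))) (K.s 702 (K.s 324 (K.s 270 K.t K.t) (K.s 126 K.t K.t))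 (K.s 348 (K.s 243 K.t K.t) (K.s 138 K.t K.t))))) (K.s 6480 (K.s 2808 (K.s 735 (K.s 135 K.t (K.s 501 K.t K.t)) (K.s 1245 (K.s 201 K.t K.t) (K.s 110 K.t K.t))) (K.s 3220 (K.s 1407 (K.s 1323 K.t K.t) (K.s 1617 K.t K.t)) (K.s 56 (K.s 2 K.t K.t) (K.s 336 K.t K.t)))) (K.s 1782 (K.s 810 (K.s 54 K.t (K.s 264 K.t K.t)) (K.s 495 (K.s 270 K.t K.t) (K.s 55 K.t K.t))) (K.s 1046 (K.s 54 (K.s 12 K.t K.t) (K.s 306 K.t K.t)) (K.s 262 (K.s 163 K.t K.t) (K.s 720 K.t K.t)))))))) (T.lf (K.s 13962 (K.s 6257 (K.s 3029 (K.s 1607 (K.s 902 (K.s 632 (K.s 242 K.z K.t) (K.s 225 K.t K.t)) (K.s 378 (K.s 99 K.t K.t) (K.s 324 K.t K.t))) (K.s 630 (K.s 510 K.t (K.s 54 K.t K.t)) (K.s 285 (K.s 120 K.t K.t) (K.s 135 K.t K.t)))) (K.s 1287 (K.s 804 (K.s 438 K.t (K.s 321 K.t K.t)) (K.s 309 (K.s 39 K.t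 K.t) (K.s 96 K.t K.t))) (K.s 1066 (K.s 339 (K.s 6 K.t K.t) (K.s 537 K.t K.t)) (K.s 677 (K.s 173 K.t K.t) (K.s 108 K.t K.t))))) (K.s 3150 (K.s 1095 (K.s 315 (K.s 45 K.t (K.s 135 K.t K.t)) (K.s 145 (K.s 135 K.t K.t) (K.s 341 K.t K.t))) (K.s 1191 (K.s 282 K.t (K.s 288 K.t K.t)) (K.s 189 (K.s 122 K.t K.t) (K.s 648 K.t K.t)))) (K.s 1695 (K.s 1050 (K.s 54 K.t (K.s 729 K.t K.t)) (K.s 219 (K.s 30 K.t K.t) (K.s 108 K.t K.t))) (K.s 2094 (K.s 1680 (K.s 1662 K.t K.t) (K.s 400 K.t K.t)) (K.s 558 (K.s 396 K.t K.t) (K.s 81 K.t K.t)))))) (K.s 3822 (K.s 2366 (K.s 1487 (K.s 845 (K.s 602 K.t (K.s 59 K.t K.t)) (K.s 324 (K.s 135 K.t K.t) (K.s 126 K.t K.t))) (K.s 357 (K.s 87 K.t (K.s 162 K.t K.t)) (K.s 251 (K.s 81 K.t K.t) (K.s 208 K.t K.t)))) (K.s 504 (K.s 240 (K.s 54 K.t (K.s 72 K.t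 K.t)) (K.s 156 (K.s 30 K.t K.t) (K.s 63 K.t K.t))) (K.s 387 (K.s 189 (K.s 18 K.t K.t) (K.s 9 K.t K.t)) (K.s 459 (K.s 414 K.t K.t) (K.s 99 K.t K.t))))) (K.s 5348 (K.s 1613 (K.s 461 (K.s 182 K.t (K.s 81 K.t K.t)) (K.s 693 (K.s 435 K.t K.t) (K.s 162 K.t K.t))) (K.s 2664 (K.s 375 (K.s 150 K.t K.t) (K.s 1210 K.t K.t)) (K.s 351 (K.s 126 K.t K.t) (K.s 615 K.t K.t)))) (K.s 2250 (K.s 875 (K.s 45 K.t (K.s 435 K.t K.t)) (K.s 862 (K.s 296 K.t K.t) (K.s 468 K.t K.t))) (K.s 3417 (K.s 2412 (K.s 1935 K.t K.t) (K.s 608 K.t K.t)) (K.s 717 (K.s 114 K.t K.t) (K.s 111 K.t K.t))))))))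

/-- the values congruent to 82 modulo 128 -/
noncomputable def x82 : T := T.nd (T.lf (K.s 5503 (K.s 812 (K.s 182 K.z K.t) (K.s 333 K.t K.t)) (K.s 14208 (K.s 6235 K.t K.t) (K.s 8209 K.t K.t)))) (T.lf (K.s 25368 (K.s 22922 (K.s 16053 K.z K.t) K.t) (K.s 4097 K.t K.t)))

/-- the values congruent to 84 modulo 128 -/
noncomputable def x84 : T := T.nd (T.lf (K.s 13587 (K.s 7377 (K.s 4623 (K.s 1791 (K.s 1743 K.z K.t) (K.s 1275 K.t K.t)) (K.s 684 K.t (K.s 1584 K.t K.t))) (K.s 3825 (K.s 504 K.t (K.s 1926 K.t K.t)) (K.s 459 K.t (K.s 1455 K.t K.t)))) (K.s 4167 (K.s 2787 (K.s 594 K.t (K.s 1947 K.t K.t)) (K.s 777 K.t (K.s 335 K.t K.t))) (K.s 1692 (K.s 27 K.t (K.s 1305 K.t K.t)) (K.s 315 (K.s 225 K.t K.t) (K.s 3003 K.t K.t)))))) (T.lf (K.s 11161 (K.s 7363 (K.s 2302 (K.s 1060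 (K.s 388 K.z K.t) K.t) (K.s 4770 K.t (K.s 110 K.t K.t))) (K.s 1478 (K.s 1215 K.t K.t) (K.s 232 K.t (K.s 1629 K.t K.t)))) (K.s 4032 (K.s 2324 (K.s 657 K.t K.t) (K.s 763 K.t (K.s 435 K.t K.t))) (K.s 4230 (K.s 1398 K.t (K.s 887 K.t K.t)) (K.s 315 K.t (K.s 9735 K.t K.t))))))

/-- the values congruent to 86 modulo 128 -/
noncomputable def x86 : T := T.nd (T.lf (K.s 20611 (K.s 19311 (K.s 17344 K.z K.t) (K.s 328 K.t K.t)) (K.s 5330 K.t (K.s 3681 K.t K.t)))) (T.lf (K.s 19184 (K.s 10166 (K.s 266 K.z K.t) K.t) (K.s 1467 K.t K.t)))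

/-- the values congruent to 88 modulo 128 -/
noncomputable def x88 : T := T.nd (T.lf (K.s 14333 (K.s 8087 (K.s 4850 (K.s 1868 (K.s 308 (K.s 97 (K.s 24 K.z K.t) K.t) (K.s 3 K.t K.t)) (K.s 1170 (K.s 90 K.t K.t) (K.s 594 K.t (K.s 900 K.t K.t)))) (K.s 1347 (K.s 615 (K.s 483 K.t K.t) (K.s 57 K.t K.t)) (K.s 585 (K.s 135 K.t K.t) (K.s 455 K.t (K.s 280 K.t K.t))))) (K.s 4293 (K.s 1285 (K.s 1215 (K.s 648 K.t K.t) (K.s 51 K.t K.t)) (K.s 1640 (K.s 605 K.t K.t) (K.s 852 K.t (K.s 126 K.t K.t)))) (K.s 1206 (K.s 297 (K.s 270 K.t K.t) (K.s 495 K.t K.t)) (K.s 591 (K.s 441 K.t K.t) (K.s 39 K.t (K.s 27 K.t K.t)))))) (K.s 4929 (K.s 3114 (K.s 1287 (K.s 639 (K.s 72 K.t K.t) (K.s 405 K.t K.t)) (K.s 702 (K.s 603 K.t K.t) (K.s 855 K.t (K.s 63 K.t K.t)))) (K.s 465 (K.s 213 (K.s 150 K.t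 K.t) (K.s 147 K.t K.t)) (K.s 786 (K.s 480 K.t K.t) (K.s 189 K.t (K.s 201 K.t K.t))))) (K.s 4251 (K.s 486 (K.s 354 (K.s 351 K.t K.t) (K.s 81 K.t K.t)) (K.s 1804 (K.s 1380 K.t K.t) (K.s 665 K.t (K.s 725 K.t K.t)))) (K.s 1950 (K.s 1059 (K.s 654 K.t K.t) (K.s 579 K.t (K.s 91 K.t K.t))) (K.s 1939 (K.s 849 K.t K.t) (K.s 44 K.t (K.s 1932 K.t K.t)))))))) (T.lf (K.s 16649 (K.s 9819 (K.s 3348 (K.s 2214 (K.s 1224 (K.s 1080 K.z K.t) (K.s 705 K.t K.t)) (K.s 450 K.t (K.s 75 K.t K.t))) (K.s 2862 (K.s 1985 K.t (K.s 607 K.t K.t)) (K.s 864 K.t (K.s 810 K.t K.t)))) (K.s 4464 (K.s 1845 (K.s 186 K.t (K.s 714 K.t K.t)) (K.s 1050 K.t (K.s 876 K.t K.t))) (K.s 1469 (K.s 825 K.t (K.s 546 K.t K.t)) (K.s 403 K.t (K.s 207 K.t K.t))))) (K.s 2296 (K.s 1495 (K.s 640 (K.s 10 K.t (K.s 165 K.t K.t))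 (K.s 18 K.t (K.s 195 K.t K.t))) (K.s 450 (K.s 30 K.t (K.s 240 K.t K.t)) (K.s 63 K.t (K.s 117 K.t K.t)))) (K.s 5319 (K.s 2769 (K.s 762 K.t (K.s 408 K.t K.t)) (K.s 630 K.t (K.s 1890 K.t K.t))) (K.s 1425 (K.s 205 K.t (K.s 920 K.t K.t)) (K.s 2432 (K.s 1041 K.t K.t) (K.s 1098 K.t K.t)))))))

/-- the values congruent to 90 modulo 128 -/
noncomputable def x90 : T := T.nd (T.lf (K.s 19737 (K.s 8010 K.z K.t) K.t)) (T.lf (K.s 18547 (K.s 6522 (K.s 2569 K.z K.t) (K.s 9312 K.t K.t)) (K.s 1437 K.t (K.s 8235 K.t K.t))))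

/-- the values congruent to 92 modulo 128 -/
noncomputable def x92 : T := T.nd (T.lf (K.s 15493 (K.s 12535 (K.s 5773 (K.s 5188 (K.s 4423 K.z K.t) K.t) (K.s 6183 K.t K.t)) (K.s 2208 (K.s 759 K.t K.t) (K.s 60 K.t K.t))) (K.s 5211 (K.s 2493 (K.s 1550 K.t K.t) (K.s 1619 K.t K.t)) (K.s 3159 (K.s 2109 K.t K.t) (K.s 2235 K.t (K.s 1995 K.t K.t)))))) (T.lf (K.s 14750 (K.s 10451 (K.s 8432 (K.s 3806 (K.s 3095 K.z K.t) K.t) (K.s 666 K.t K.t)) (K.s 2279 (K.s 654 K.t K.t) (K.s 25 K.t (K.s 795 K.t K.t)))) (K.s 7050 (K.s 1890 (K.s 1521 K.t K.t) (K.s 1215 K.t (K.s 675 K.t K.t))) (K.s 4080 (K.s 3618 K.t K.t) (K.s 500 K.t (K.s 394 K.t K.t))))))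

/-- the values congruent to 94 modulo 128 -/
noncomputable def x94 : T := T.nd (T.lf (K.s 11405 (K.s 1051 K.z K.t) (K.s 5489 K.t K.t))) (T.lf (K.s 10035 (K.s 553 (K.s 60 K.z K.t) (K.s 3860 K.t K.t)) (K.s 9501 (K.s 4703 K.t K.t) (K.s 6659 K.t K.t))))

/-- the values congruent to 96 modulo 128 -/
noncomputable def x96 : T := T.nd (T.lf (K.s 12666 (K.s 6591 (K.s 3189 (K.s 1731 (K.s 954 (K.s 234 (K.s 30 (K.s 24 K.z K.t) (K.s 189 K.t K.t)) (K.s 120 K.t (K.s 549 K.t K.t))) (K.s 345 (K.s 93 K.t (K.s 232 K.t K.t)) (K.s 135 (K.s 45 K.t K.t) (K.s 180 K.t K.t)))) (K.s 828 (K.s 288 (K.s 135 K.t (K.s 108 K.t K.t)) (K.s 210 K.t (K.s 15 K.t K.t))) (K.s 105 (K.s 14 K.t (K.s 46 K.t K.t)) (K.s 147 (K.s 90 K.t K.t) (K.s 273 K.t K.t))))) (K.s 1917 (K.s 1080 (K.s 345 (K.s 90 K.t (K.s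 180 K.t K.t)) (K.s 150 K.t (K.s 390 K.t K.t))) (K.s 315 (K.s 90 K.t (K.s 72 K.t K.t)) (K.s 306 (K.s 180 K.t K.t) (K.s 189 K.t K.t)))) (K.s 729 (K.s 513 (K.s 204 K.t (K.s 174 K.t K.t)) (K.s 90 K.t (K.s 45 K.t K.t))) (K.s 270 (K.s 162 K.t (K.s 27 K.t K.t)) (K.s 339 (K.s 234 K.t K.t) (K.s 15 K.t K.t)))))) (K.s 3348 (K.s 1593 (K.s 640 (K.s 243 (K.s 63 K.t (K.s 126 K.t K.t)) (K.s 240 K.t (K.s 110 K.t K.t))) (K.s 88 (K.s 8 K.t (K.s 45 K.t K.t)) (K.s 490 (K.s 340 K.t K.t) (K.s 249 K.t K.t)))) (K.s 810 (K.s 360 (K.s 45 K.t (K.s 297 K.t K.t)) (K.s 81 K.t (K.s 299 K.t K.t))) (K.s 270 (K.s 27 K.t (K.s 216 K.t K.t)) (K.s 537 (K.s 120 K.t K.t) (K.s 48 K.t K.t))))) (K.s 1629 (K.s 945 (K.s 270 (K.s 135 K.t (K.s 27 K.t K.t)) (K.s 189 K.t (K.s 36 K.t K.t))) (K.s 339 (K.s 138 K.t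 (K.s 177 K.t K.t)) (K.s 156 (K.s 111 K.t K.t) (K.s 105 K.t K.t)))) (K.s 541 (K.s 261 (K.s 126 K.t (K.s 54 K.t K.t)) (K.s 243 (K.s 180 K.t K.t) (K.s 27 K.t K.t))) (K.s 180 (K.s 35 K.t (K.s 90 K.t K.t)) (K.s 296 (K.s 41 K.t K.t) (K.s 54 K.t K.t))))))) (K.s 5139 (K.s 2988 (K.s 1818 (K.s 891 (K.s 428 (K.s 375 K.t (K.s 48 K.t K.t)) (K.s 280 K.t (K.s 21 K.t K.t))) (K.s 279 (K.s 27 K.t (K.s 90 K.t K.t)) (K.s 283 (K.s 273 K.t K.t) (K.s 140 K.t K.t)))) (K.s 720 (K.s 180 (K.s 45 K.t (K.s 81 K.t K.t)) (K.s 120 K.t (K.s 375 K.t K.t))) (K.s 95 (K.s 54 K.t (K.s 31 K.t K.t)) (K.s 286 (K.s 100 K.t K.t) (K.s 24 K.t K.t))))) (K.s 1017 (K.s 387 (K.s 198 (K.s 9 K.t (K.s 6 K.t K.t)) (K.s 78 K.t (K.s 84 K.t K.t))) (K.s 493 (K.s 108 K.t (K.s 330 K.t K.t)) (K.s 20 (K.s 11 K.t K.t) (K.s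 75 K.t K.t)))) (K.s 270 (K.s 105 (K.s 18 K.t (K.s 45 K.t K.t)) (K.s 21 K.t (K.s 117 K.t K.t))) (K.s 558 (K.s 153 K.t (K.s 270 K.t K.t)) (K.s 270 (K.s 135 K.t K.t) (K.s 6 K.t K.t)))))) (K.s 2772 (K.s 882 (K.s 279 (K.s 135 (K.s 45 K.t (K.s 4 K.t K.t)) (K.s 123 K.t (K.s 3 K.t K.t))) (K.s 283 (K.s 36 K.t (K.s 233 K.t K.t)) (K.s 92 (K.s 50 K.t K.t) (K.s 39 K.t K.t)))) (K.s 486 (K.s 189 (K.s 70 K.t (K.s 65 K.t K.t)) (K.s 63 K.t (K.s 15 K.t K.t))) (K.s 468 (K.s 234 K.t (K.s 117 K.t K.t)) (K.s 45 (K.s 18 K.t K.t) (K.s 323 K.t K.t))))) (K.s 3825 (K.s 2277 (K.s 1512 (K.s 270 K.t (K.s 648 K.t K.t)) (K.s 510 K.t (K.s 45 K.t K.t))) (K.s 255 (K.s 135 K.t (K.s 45 K.t K.t)) (K.s 492 (K.s 450 K.t K.t) (K.s 297 K.t K.t)))) (K.s 2286 (K.s 613 (K.s 63 K.t (K.s 279 K.t K.t)) (K.s 1472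 (K.s 759 K.t K.t) (K.s 102 K.t K.t))) (K.s 1371 (K.s 558 K.t (K.s 618 K.t K.t)) (K.s 740 (K.s 630 K.t K.t) (K.s 877 K.t K.t))))))))) (T.lf (K.s 14173 (K.s 7738 (K.s 4501 (K.s 2041 (K.s 619 (K.s 481 (K.s 238 (K.s 151 K.z K.t) (K.s 183 K.t K.t)) (K.s 30 K.t (K.s 66 K.t K.t))) (K.s 492 (K.s 267 K.t (K.s 75 K.t K.t)) (K.s 93 K.t (K.s 567 K.t K.t)))) (K.s 1095 (K.s 255 (K.s 54 K.t (K.s 90 K.t K.t)) (K.s 501 K.t (K.s 294 K.t K.t))) (K.s 498 (K.s 12 K.t (K.s 477 K.t K.t)) (K.s 192 (K.s 153 K.t K.t) (K.s 33 K.t K.t))))) (K.s 1665 (K.s 510 (K.s 384 (K.s 105 K.t (K.s 24 K.t K.t)) (K.s 36 K.t (K.s 35 K.t K.t))) (K.s 180 (K.s 45 K.t (K.s 96 K.t K.t)) (K.s 414 (K.s 255 K.t K.t) (K.s 366 K.t K.t)))) (K.s 663 (K.s 330 (K.s 6 K.t (K.s 189 K.t K.t)) (K.s 135 K.t (K.s 81 K.t K.t)))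 (K.s 162 (K.s 45 K.t (K.s 72 K.t K.t)) (K.s 450 (K.s 33 K.t K.t) (K.s 105 K.t K.t)))))) (K.s 3303 (K.s 1503 (K.s 573 (K.s 306 (K.s 198 K.t (K.s 45 K.t K.t)) (K.s 231 K.t (K.s 21 K.t K.t))) (K.s 600 (K.s 264 K.t (K.s 81 K.t K.t)) (K.s 225 (K.s 15 K.t K.t) (K.s 6 K.t K.t)))) (K.s 720 (K.s 495 (K.s 90 K.t (K.s 378 K.t K.t)) (K.s 60 K.t (K.s 75 K.t K.t))) (K.s 420 (K.s 261 K.t (K.s 54 K.t K.t)) (K.s 565 (K.s 510 K.t K.t) (K.s 5 K.t K.t))))) (K.s 1395 (K.s 705 (K.s 360 (K.s 180 K.t (K.s 9 K.t K.t)) (K.s 225 K.t (K.s 45 K.t K.t))) (K.s 231 (K.s 96 K.t (K.s 9 K.t K.t)) (K.s 189 (K.s 126 K.t K.t) (K.s 72 K.t K.t)))) (K.s 630 (K.s 243 (K.s 90 K.t (K.s 60 K.t K.t)) (K.s 25 K.t (K.s 2 K.t K.t))) (K.s 327 (K.s 45 K.t (K.s 252 K.t K.t)) (K.s 528 (K.s 285 K.t K.t) (K.s 135 K.t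 K.t))))))) (K.s 3852 (K.s 2016 (K.s 738 (K.s 261 (K.s 163 (K.s 18 K.t (K.s 18 K.t K.t)) (K.s 35 K.t (K.s 45 K.t K.t))) (K.s 234 (K.s 59 K.t (K.s 103 K.t K.t)) (K.s 108 K.t (K.s 45 K.t K.t)))) (K.s 846 (K.s 385 (K.s 216 K.t (K.s 54 K.t K.t)) (K.s 110 K.t (K.s 213 K.t K.t))) (K.s 294 (K.s 189 K.t (K.s 54 K.t K.t)) (K.s 57 (K.s 42 K.t K.t) (K.s 45 K.t K.t))))) (K.s 1053 (K.s 576 (K.s 153 (K.s 78 K.t (K.s 39 K.t K.t)) (K.s 9 K.t (K.s 330 K.t K.t))) (K.s 126 (K.s 84 K.t (K.s 37 K.t K.t)) (K.s 130 (K.s 105 K.t K.t) (K.s 86 K.t K.t)))) (K.s 324 (K.s 234 (K.s 54 K.t (K.s 27 K.t K.t)) (K.s 45 K.t (K.s 7 K.t K.t))) (K.s 144 (K.s 90 K.t (K.s 33 K.t K.t)) (K.s 126 (K.s 21 K.t K.t) (K.s 150 K.t K.t)))))) (K.s 4401 (K.s 1136 (K.s 441 (K.s 297 (K.s 9 K.t (K.s 99 K.t K.t)) (K.s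 24 K.t (K.s 30 K.t K.t))) (K.s 165 (K.s 30 K.t (K.s 75 K.t K.t)) (K.s 240 (K.s 24 K.t K.t) (K.s 65 K.t K.t)))) (K.s 910 (K.s 565 (K.s 40 K.t (K.s 147 K.t K.t)) (K.s 105 K.t (K.s 147 K.t K.t))) (K.s 600 (K.s 357 K.t (K.s 54 K.t K.t)) (K.s 270 (K.s 210 K.t K.t) (K.s 1080 K.t K.t))))) (K.s 3870 (K.s 2295 (K.s 594 (K.s 450 K.t (K.s 90 K.t K.t)) (K.s 756 K.t (K.s 351 K.t K.t))) (K.s 396 (K.s 45 K.t (K.s 55 K.t K.t)) (K.s 279 (K.s 174 K.t K.t) (K.s 306 K.t K.t)))) (K.s 1578 (K.s 444 (K.s 135 K.t (K.s 288 K.t K.t)) (K.s 57 K.t (K.s 624 K.t K.t))) (K.s 735 (K.s 708 K.t (K.s 9 K.t K.t)) (K.s 560 (K.s 396 K.t K.t) (K.s 448 K.t K.t)))))))))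

/-- the values congruent to 98 modulo 128 -/
noncomputable def x98 : T := T.nd (T.lf (K.s 23092 (K.s 6804 K.z K.t) K.t)) (T.lf (K.s 6004 (K.s 2341 K.z K.t) (K.s 15598 K.t K.t)))

/-- the values congruent to 100 modulo 128 -/
noncomputable def x100 : T := T.nd (T.lf (K.s 16373 (K.s 11465 (K.s 4055 (K.s 1316 K.z K.t) (K.s 2577 K.t K.t)) (K.s 2993 (K.s 2685 K.t K.t) (K.s 1792 K.t K.t))) (K.s 3132 (K.s 1053 K.t (K.s 324 K.t K.t)) (K.s 4995 (K.s 3753 K.t K.t) (K.s 570 K.t K.t))))) (T.lf (K.s 16935 (K.s 8637 (K.s 6117 (K.s 5457 (K.s 2312 K.z K.t) K.t) (K.s 2172 K.t K.t)) (K.s 2241 (K.s 189 K.t K.t) (K.s 2400 K.t K.t))) (K.s 6012 (K.s 2547 (K.s 627 K.t K.t) (K.s 2805 K.t K.t)) (K.s 1485 (K.s 1335 K.t K.t) (K.s 990 K.t (K.s 1320 K.t K.t))))))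

/-- the values congruent to 102 modulo 128 -/
noncomputable def x102 : T := T.nd (T.lf (K.s 12125 (K.s 8436 (K.s 3606 K.z K.t) K.t) (K.s 8068 K.t (K.s 8415 K.t K.t)))) (T.lf (K.s 24270 (K.s 14950 K.z K.t) K.t))

/-- the values congruent to 104 modulo 128 -/
noncomputable def x104 : T := T.nd (T.lf (K.s 15544 (K.s 7471 (K.s 4366 (K.s 2242 (K.s 1726 (K.s 1001 K.z K.t) (K.s 138 K.t K.t)) (K.s 774 (K.s 459 K.t K.t) (K.s 990 K.t K.t))) (K.s 1539 (K.s 675 K.t (K.s 525 K.t K.t)) (K.s 936 (K.s 891 K.t K.t) (K.s 63 K.t K.t)))) (K.s 4320 (K.s 2415 (K.s 945 K.t (K.s 567 K.t K.t)) (K.s 1653 (K.s 630 K.t K.t) (K.s 27 K.t K.t))) (K.s 1755 (K.s 843 (K.s 270 K.t K.t) (K.s 492 K.t K.t)) (K.s 855 (K.s 135 K.t K.t) (K.s 665 K.t K.t))))) (K.s 4068 (K.s 2097 (K.s 972 (K.s 243 K.t (K.s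 429 K.t K.t)) (K.s 405 (K.s 54 K.t K.t) (K.s 685 K.t K.t))) (K.s 1224 (K.s 36 K.t (K.s 432 K.t K.t)) (K.s 486 (K.s 387 K.t K.t) (K.s 198 K.t K.t)))) (K.s 2709 (K.s 564 (K.s 135 K.t (K.s 9 K.t K.t)) (K.s 714 (K.s 85 K.t K.t) (K.s 489 K.t K.t))) (K.s 3903 (K.s 3105 (K.s 270 K.t K.t) (K.s 531 K.t K.t)) (K.s 993 (K.s 525 K.t K.t) (K.s 241 K.t K.t))))))) (T.lf (K.s 16139 (K.s 10463 (K.s 6053 (K.s 2399 (K.s 1769 (K.s 403 K.z K.t) (K.s 191 K.t K.t)) (K.s 2331 (K.s 1140 K.t K.t) (K.s 159 K.t K.t))) (K.s 2286 (K.s 1765 (K.s 378 K.t K.t) (K.s 314 K.t K.t)) (K.s 1404 (K.s 954 K.t K.t) (K.s 90 K.t K.t)))) (K.s 3015 (K.s 2700 (K.s 1800 (K.s 1746 K.t K.t) (K.s 15 K.t K.t)) (K.s 141 (K.s 90 K.t K.t) (K.s 129 K.t K.t))) (K.s 1650 (K.s 906 (K.s 230 K.t K.t) (K.s 174 K.t K.t)) (K.s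 375 (K.s 213 K.t K.t) (K.s 513 K.t K.t))))) (K.s 3252 (K.s 1389 (K.s 449 (K.s 159 K.t (K.s 96 K.t K.t)) (K.s 415 (K.s 280 K.t K.t) (K.s 300 K.t K.t))) (K.s 810 (K.s 735 (K.s 81 K.t K.t) (K.s 60 K.t K.t)) (K.s 810 (K.s 707 K.t K.t) (K.s 225 K.t K.t)))) (K.s 4761 (K.s 2283 (K.s 375 (K.s 108 K.t K.t) (K.s 1317 K.t K.t)) (K.s 1059 (K.s 282 K.t K.t) (K.s 414 K.t K.t))) (K.s 2401 (K.s 1171 (K.s 801 K.t K.t) (K.s 710 K.t K.t)) (K.s 1613 (K.s 1403 K.t K.t) (K.s 588 K.t K.t)))))))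

/-- the values congruent to 106 modulo 128 -/
noncomputable def x106 : T := T.nd (T.lf (K.s 16049 (K.s 7441 (K.s 2579 K.z K.t) (K.s 8503 K.t K.t)) (K.s 7025 K.t (K.s 3175 K.t K.t)))) (T.lf (K.s 16409 (K.s 5603 (K.s 5213 K.z K.t) K.t) (K.s 7315 K.t K.t)))

/-- the values congruent to 108 modulo 128 -/
noncomputable def x108 : T := T.nd (T.lf (K.s 17982 (K.s 11474 (K.s 6762 (K.s 4257 (K.s 3917 K.z K.t) K.t) (K.s 285 K.t (K.s 3960 K.t K.t))) (K.s 508 (K.s 406 K.t K.t) (K.s 1176 K.t (K.s 3069 K.t K.t)))) (K.s 2079 (K.s 522 (K.s 198 K.t K.t) (K.s 378 K.t (K.s 873 K.t K.t))) (K.s 2634 (K.s 2529 K.t K.t) (K.s 3072 K.t (K.s 555 K.t K.t)))))) (T.lf (K.s 13774 (K.s 8734 (K.s 5359 (K.s 5272 (K.s 5089 K.z K.t) K.t) (K.s 525 K.t K.t)) (K.s 1980 (K.s 855 K.t K.t) (K.s 1080 K.t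 K.t))) (K.s 7315 (K.s 1749 (K.s 1386 K.t K.t) (K.s 2346 K.t K.t)) (K.s 1955 (K.s 1118 K.t K.t) (K.s 6257 K.t K.t)))))

/-- the values congruent to 110 modulo 128 -/
noncomputable def x110 : T := T.nd (T.lf (K.s 16440 (K.s 5172 (K.s 1522 K.z K.t) K.t) (K.s 3327 K.t (K.s 2046 K.t K.t)))) (T.lf (K.s 18377 (K.s 3355 K.z K.t) K.t))

/-- the values congruent to 112 modulo 128 -/
noncomputable def x112 : T := T.nd (T.lf (K.s 12488 (K.s 7076 (K.s 4733 (K.s 1043 (K.s 530 (K.s 116 (K.s 32 K.z K.t) (K.s 66 K.t K.t)) (K.s 252 (K.s 153 K.t K.t) (K.s 198 K.t K.t))) (K.s 1827 (K.s 1260 (K.s 387 K.t K.t) (K.s 285 K.t K.t)) (K.s 378 (K.s 28 K.t K.t) (K.s 30 K.t K.t)))) (K.s 729 (K.s 378 (K.s 108 K.t (K.s 90 K.t K.t)) (K.s 297 (K.s 162 K.t K.t) (K.s 15 K.t K.t))) (K.s 611 (K.s 316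 (K.s 312 K.t K.t) (K.s 251 K.t K.t)) (K.s 892 (K.s 505 K.t K.t) (K.s 63 K.t K.t))))) (K.s 3372 (K.s 1383 (K.s 897 (K.s 342 K.t (K.s 150 K.t K.t)) (K.s 225 (K.s 60 K.t K.t) (K.s 153 K.t K.t))) (K.s 1029 (K.s 729 (K.s 486 K.t K.t) (K.s 297 K.t K.t)) (K.s 585 (K.s 160 K.t K.t) (K.s 215 K.t K.t)))) (K.s 1215 (K.s 558 (K.s 225 K.t (K.s 297 K.t K.t)) (K.s 357 (K.s 117 K.t K.t) (K.s 255 K.t K.t))) (K.s 99 (K.s 90 (K.s 85 K.t K.t) (K.s 6 K.t K.t)) (K.s 396 (K.s 291 K.t K.t) (K.s 99 K.t K.t)))))) (K.s 5415 (K.s 2685 (K.s 1023 (K.s 285 (K.s 204 K.t (K.s 6 K.t K.t)) (K.s 177 (K.s 60 K.t K.t) (K.s 504 K.t K.t))) (K.s 1023 (K.s 402 (K.s 132 K.t K.t) (K.s 441 K.t K.t)) (K.s 156 (K.s 54 K.t K.t) (K.s 87 K.t K.t)))) (K.s 1791 (K.s 675 (K.s 117 K.t (K.s 468 K.t K.t)) (K.s 414 (K.s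 105 K.t K.t) (K.s 405 K.t K.t))) (K.s 540 (K.s 405 (K.s 9 K.t K.t) (K.s 105 K.t K.t)) (K.s 354 (K.s 234 K.t K.t) (K.s 15 K.t K.t))))) (K.s 6270 (K.s 1005 (K.s 360 (K.s 105 K.t (K.s 90 K.t K.t)) (K.s 429 (K.s 273 K.t K.t) (K.s 198 K.t K.t))) (K.s 1215 (K.s 456 (K.s 408 K.t K.t) (K.s 354 K.t K.t)) (K.s 219 (K.s 135 K.t K.t) (K.s 2751 K.t K.t)))) (K.s 3618 (K.s 1933 (K.s 675 (K.s 117 K.t K.t) (K.s 435 K.t K.t)) (K.s 1133 (K.s 106 K.t K.t) (K.s 201 K.t K.t))) (K.s 1098 (K.s 474 (K.s 237 K.t K.t) (K.s 393 K.t K.t)) (K.s 609 (K.s 9 K.t K.t) (K.s 35 K.t K.t)))))))) (T.lf (K.s 14412 (K.s 8661 (K.s 3420 (K.s 1074 (K.s 633 (K.s 372 (K.s 75 K.z K.t) (K.s 51 K.t K.t)) (K.s 222 (K.s 167 K.t K.t) (K.s 192 K.t K.t))) (K.s 1386 (K.s 1134 (K.s 360 K.t K.t) (K.s 189 K.t K.t)) (K.s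 705 (K.s 450 K.t K.t) (K.s 69 K.t K.t)))) (K.s 3540 (K.s 2409 (K.s 30 K.t (K.s 513 K.t K.t)) (K.s 726 (K.s 321 K.t K.t) (K.s 123 K.t K.t))) (K.s 1296 (K.s 645 (K.s 270 K.t K.t) (K.s 84 K.t K.t)) (K.s 162 (K.s 144 K.t K.t) (K.s 216 K.t K.t))))) (K.s 3564 (K.s 1599 (K.s 729 (K.s 162 K.t (K.s 420 K.t K.t)) (K.s 315 (K.s 162 K.t K.t) (K.s 495 K.t K.t))) (K.s 1155 (K.s 915 (K.s 264 K.t K.t) (K.s 60 K.t K.t)) (K.s 432 (K.s 96 K.t K.t) (K.s 108 K.t K.t)))) (K.s 1215 (K.s 315 (K.s 135 (K.s 3 K.t K.t) (K.s 90 K.t K.t)) (K.s 558 (K.s 411 K.t K.t) (K.s 117 K.t K.t))) (K.s 549 (K.s 108 (K.s 45 K.t K.t) (K.s 162 K.t K.t)) (K.s 171 (K.s 9 K.t K.t) (K.s 18 K.t K.t)))))) (K.s 5154 (K.s 2133 (K.s 1134 (K.s 693 (K.s 270 K.t (K.s 378 K.t K.t)) (K.s 342 (K.s 18 K.t K.t) (K.s 18 K.t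 K.t))) (K.s 459 (K.s 270 (K.s 249 K.t K.t) (K.s 54 K.t K.t)) (K.s 240 (K.s 173 K.t K.t) (K.s 195 K.t K.t)))) (K.s 999 (K.s 405 (K.s 150 (K.s 90 K.t K.t) (K.s 84 K.t K.t)) (K.s 135 (K.s 120 K.t K.t) (K.s 243 K.t K.t))) (K.s 636 (K.s 378 (K.s 270 K.t K.t) (K.s 135 K.t K.t)) (K.s 795 (K.s 30 K.t K.t) (K.s 189 K.t K.t))))) (K.s 4641 (K.s 1209 (K.s 111 (K.s 30 K.t (K.s 27 K.t K.t)) (K.s 903 (K.s 819 K.t K.t) (K.s 87 K.t K.t))) (K.s 2223 (K.s 1875 (K.s 1674 K.t K.t) (K.s 8 K.t K.t)) (K.s 762 (K.s 462 K.t K.t) (K.s 294 K.t K.t)))) (K.s 1563 (K.s 1116 (K.s 969 (K.s 303 K.t K.t) (K.s 99 K.t K.t)) (K.s 81 (K.s 27 K.t K.t) (K.s 331 K.t K.t))) (K.s 2430 (K.s 1190 (K.s 900 K.t K.t) (K.s 790 K.t K.t)) (K.s 603 (K.s 342 K.t K.t) (K.s 614 K.t K.t))))))))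

/-- the values congruent to 114 modulo 128 -/
noncomputable def x114 : T := T.nd (T.lf (K.s 20631 (K.s 6408 (K.s 2880 (K.s 1473 (K.s 996 K.z K.t) (K.s 942 K.t K.t)) (K.s 2043 (K.s 231 K.t K.t) (K.s 663 K.t K.t))) (K.s 10548 (K.s 5502 K.t (K.s 2541 K.t K.t)) (K.s 3267 (K.s 1767 K.t K.t) (K.s 273 K.t K.t)))) (K.s 6417 (K.s 4485 (K.s 1905 K.t (K.s 924 K.t K.t)) (K.s 1710 (K.s 1340 K.t K.t) (K.s 75 K.t K.t))) (K.s 1998 (K.s 213 K.t (K.s 1425 K.t K.t)) (K.s 399 (K.s 252 K.t K.t) (K.s 210 K.t K.t)))))) (T.lf (K.s 26188 (K.s 12958 (K.s 9420 K.z K.t) (K.s 11178 K.t K.t)) (K.s 2205 (K.s 1442 K.t K.t) (K.s 468 K.t K.t))))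

/-- the values congruent to 116 modulo 128 -/
noncomputable def x116 : T := T.nd (T.lf (K.s 16054 (K.s 11248 (K.s 6082 (K.s 3949 (K.s 2644 K.z K.t) (K.s 1260 K.t K.t)) (K.s 4113 (K.s 4068 K.t K.t) (K.s 297 K.t K.t))) (K.s 2331 (K.s 936 K.t (K.s 90 K.t K.t)) (K.s 1185 (K.s 945 K.t K.t) (K.s 370 K.t K.t)))) (K.s 2901 (K.s 2061 (K.s 549 K.t (K.s 1314 K.t K.t)) (K.s 654 (K.s 99 K.t K.t) (K.s 45 K.t K.t))) (K.s 4878 (K.s 582 (K.s 84 K.t K.t) (K.s 1527 K.t K.t)) (K.s 1806 (K.s 1641 K.t K.t) (K.s 2882 K.t K.t)))))) (T.lf (K.s 13826 (K.s 6806 (K.s 4121 (K.s 1751 (K.s 542 K.z K.t) (K.s 2355 K.t K.t)) (K.s 390 K.t (K.s 1575 K.t K.t))) (K.s 5301 (K.s 342 K.t (K.s 1170 K.t K.t)) (K.s 684 K.t (K.s 225 K.t K.t)))) (K.s 4431 (K.s 2745 (K.s 1863 K.t (K.s 699 K.t K.t)) (K.s 1251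 K.t (K.s 243 K.t K.t))) (K.s 879 (K.s 744 K.t (K.s 45 K.t K.t)) (K.s 6090 K.t (K.s 1803 K.t K.t))))))

/-- the values congruent to 118 modulo 128 -/
noncomputable def x118 : T := T.nd (T.lf (K.s 6904 (K.s 4181 (K.s 212 K.z K.t) K.t) (K.s 5626 K.t K.t))) (T.lf (K.s 18261 (K.s 17064 K.z K.t) (K.s 10563 K.t K.t)))

/-- the values congruent to 120 modulo 128 -/
noncomputable def x120 : T := T.nd (T.lf (K.s 13705 (K.s 7935 (K.s 3939 (K.s 3318 (K.s 1551 (K.s 530 K.z K.t) (K.s 1146 K.t K.t)) (K.s 162 (K.s 27 K.t K.t) (K.s 60 K.t K.t))) (K.s 2682 (K.s 1026 K.t (K.s 990 K.t K.t)) (K.s 1071 (K.s 60 K.t K.t) (K.s 162 K.t K.t)))) (K.s 2625 (K.s 1386 (K.s 324 K.t (K.s 756 K.t K.t)) (K.s 1044 (K.s 99 K.t K.t) (K.s 135 K.t K.t))) (K.s 1830 (K.s 715 K.t (K.s 980 K.t K.t)) (K.s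 495 (K.s 378 K.t K.t) (K.s 720 K.t K.t))))) (K.s 4145 (K.s 3380 (K.s 1598 (K.s 1210 K.t (K.s 115 K.t K.t)) (K.s 552 (K.s 153 K.t K.t) (K.s 117 K.t K.t))) (K.s 483 (K.s 84 K.t (K.s 216 K.t K.t)) (K.s 168 (K.s 33 K.t K.t) (K.s 27 K.t K.t)))) (K.s 1074 (K.s 510 (K.s 453 K.t (K.s 27 K.t K.t)) (K.s 195 (K.s 186 K.t K.t) (K.s 182 K.t K.t))) (K.s 4131 (K.s 2331 (K.s 2046 K.t K.t) (K.s 1675 K.t K.t)) (K.s 5931 (K.s 4735 K.t K.t) (K.s 608 K.t K.t))))))) (T.lf (K.s 15562 (K.s 9667 (K.s 3782 (K.s 3025 (K.s 2616 (K.s 1492 K.z K.t) K.t) (K.s 42 K.t (K.s 615 K.t K.t))) (K.s 2591 (K.s 485 K.t K.t) (K.s 774 K.t (K.s 1806 K.t K.t)))) (K.s 3816 (K.s 2625 (K.s 1575 K.t K.t) (K.s 57 K.t (K.s 630 K.t K.t))) (K.s 759 (K.s 567 K.t (K.s 72 K.t K.t)) (K.s 159 K.t (K.s 216 K.t K.t))))) (K.s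 2916 (K.s 1500 (K.s 945 (K.s 483 K.t K.t) (K.s 90 K.t (K.s 216 K.t K.t))) (K.s 228 (K.s 12 K.t K.t) (K.s 567 K.t (K.s 432 K.t K.t)))) (K.s 6310 (K.s 468 (K.s 189 K.t K.t) (K.s 531 K.t (K.s 3645 K.t K.t))) (K.s 629 (K.s 136 K.t (K.s 403 K.t K.t)) (K.s 2660 K.t (K.s 70 K.t K.t)))))))

/-- the values congruent to 122 modulo 128 -/
noncomputable def x122 : T := T.nd T.nil (T.lf (K.s 6607 (K.s 2894 (K.s 1648 K.z K.t) K.t) (K.s 5584 K.t (K.s 9 K.t K.t))))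

/-- the values congruent to 124 modulo 128 -/
noncomputable def x124 : T := T.nd (T.lf (K.s 14801 (K.s 10346 (K.s 3371 (K.s 146 K.z K.t) (K.s 3680 K.t K.t)) (K.s 3861 (K.s 855 K.t K.t) (K.s 279 K.t K.t))) (K.s 3480 (K.s 1500 (K.s 135 K.t K.t) (K.s 596 K.t K.t)) (K.s 720 (K.s 530 K.t K.t) (K.s 7862 K.t K.t))))) (T.lf (K.s 14058 (K.s 3339 (K.s 1890 (K.s 1353 (K.s 513 K.z K.t) K.t) (K.s 1293 K.t K.t)) (K.s 5619 (K.s 3969 K.t K.t) (K.s 4650 K.t K.t))) (K.s 4941 (K.s 1665 (K.s 525 K.t K.t) (K.s 2373 K.t K.t)) (K.s 3411 (K.s 2169 K.t K.t) (K.s 1017 K.t (K.s 4656 K.t K.t))))))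

/-- the values congruent to 126 modulo 128 -/
noncomputable def x126 : T := T.nd (T.lf (K.s 24444 (K.s 11979 (K.s 8612 K.z K.t) (K.s 3467 K.t K.t)) (K.s 2187 K.t (K.s 398 K.t K.t)))) T.nil

/-- the values congruent to 0 modulo 16 -/
noncomputable def y0 : T := T.nd (T.nd (T.nd x0 x64) (T.nd x32 x96)) (T.nd (T.nd x16 x80) (T.nd x48 x112))

/-- the values congruent to 2 modulo 16 -/
noncomputable def y2 : T := T.nd (T.nd (T.nd x2 x66) (T.nd x34 x98)) (T.nd (T.nd x18 x82) (T.nd x50 x114))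

/-- the values congruent to 4 modulo 16 -/
noncomputable def y4 : T := T.nd (T.nd (T.nd x4 x68) (T.nd x36 x100)) (T.nd (T.nd x20 x84) (T.nd x52 x116))

/-- the values congruent to 6 modulo 16 -/
noncomputable def y6 : T := T.nd (T.nd (T.nd x6 x70) (T.nd x38 x102)) (T.nd (T.nd x22 x86) (T.nd x54 x118))

/-- the values congruent to 8 modulo 16 -/
noncomputable def y8 : T := T.nd (T.nd (T.nd x8 x72) (T.nd x40 x104)) (T.nd (T.nd x24 x88) (T.nd x56 x120))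

/-- the values congruent to 10 modulo 16 -/
noncomputable def y10 : T := T.nd (T.nd (T.nd x10 x74) (T.nd x42 x106)) (T.nd (T.nd x26 x90) (T.nd x58 x122))

/-- the values congruent to 12 modulo 16 -/
noncomputable def y12 : T := T.nd (T.nd (T.nd x12 x76) (T.nd x44 x108)) (T.nd (T.nd x28 x92) (T.nd x60 x124))

/-- the values congruent to 14 modulo 16 -/
noncomputable def y14 : T := T.nd (T.nd (T.nd x14 x78) (T.nd x46 x110)) (T.nd (T.nd x30 x94) (T.nd x62 x126))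

/-- all values -/
noncomputable def tt : T := T.nd (T.nd (T.nd (T.nd y0 y8) (T.nd y4 y12)) (T.nd (T.nd y2 y10) (T.nd y6 y14))) T.nil

end Pool.Agent.U982.N15595
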