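import Pool.Agent.U982.N15595.Go
import Pool.Agent.U982.N15595.Tree
import Pool.Agent.U982.N15595.N7_8

set_option autoImplicit false
set_option maxRecDepth 100000
set_option exponentiation.threshold 1000000000

namespace Pool.Agent.U982.N15595

open Pool.Agent.U982.DK PowerSeries
open Pool.Agent.X40.SQ (EV newton mask)

theorem r8 : g7 x8 P7_8.1 = true := by decide +kernel

end Pool.Agent.U982.N15595
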