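import Pool.Agent.U982.N15595.Tree

set_option autoImplicit false
set_option maxRecDepth 100000
set_option exponentiation.threshold 1000000000

namespace Pool.Agent.U982.N15595

open Pool.Agent.U982.DK PowerSeries
open Pool.Agent.X40.SQ (EV newton mask)

/-- first part of the class 0 modulo 256 -/
noncomputable def ka : K := K.s 6699 (K.s 3675 (K.s 1932 (K.s 1134 (K.s 644 (K.s 371 (K.s 230 (K.s 120 (K.s 81 (K.s 45 K.z K.t) K.t) (K.s 15 K.t K.t)) (K.s 10 (K.s 1 K.t K.t) (K.s 51 K.t (K.s 33 K.t K.t)))) (K.s 79 (K.s 69 (K.s 34 K.t K.t) (K.s 1 K.t K.t)) (K.s 75 (K.s 30 K.t K.t) (K.s 15 K.t (K.s 85 K.t K.t))))) (K.s 166 (K.s 92 (K.s 58 (K.s 52 K.t K.t) (K.s 18 K.t K.t)) (K.s 29 (K.s 2 K.t K.t) (K.s 5 K.t (K.s 25 K.t K.t)))) (K.s 135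 (K.s 45 (K.s 9 K.t K.t) (K.s 15 K.t (K.s 30 K.t K.t))) (K.s 90 (K.s 63 K.t K.t) (K.s 15 K.t (K.s 30 K.t K.t)))))) (K.s 366 (K.s 186 (K.s 131 (K.s 81 (K.s 6 K.t K.t) (K.s 45 K.t K.t)) (K.s 13 (K.s 10 K.t K.t) (K.s 12 K.t (K.s 15 K.t K.t)))) (K.s 66 (K.s 30 (K.s 3 K.t K.t) (K.s 25 K.t (K.s 5 K.t K.t))) (K.s 48 (K.s 33 K.t K.t) (K.s 16 K.t (K.s 35 K.t K.t))))) (K.s 201 (K.s 90 (K.s 60 (K.s 11 K.t K.t) (K.s 22 K.t K.t)) (K.s 30 (K.s 12 K.t K.t) (K.s 18 K.t (K.s 18 K.t K.t)))) (K.s 99 (K.s 42 (K.s 39 K.t K.t) (K.s 12 K.t (K.s 30 K.t K.t))) (K.s 48 (K.s 36 K.t K.t) (K.s 42 K.t (K.s 27 K.t K.t))))))) (K.s 882 (K.s 476 (K.s 210 (K.s 93 (K.s 48 (K.s 15 K.t K.t) (K.s 12 K.t K.t)) (K.s 54 (K.s 9 K.t K.t) (K.s 9 K.t (K.s 51 K.t K.t)))) (K.s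 99 (K.s 18 (K.s 3 K.t K.t) (K.s 63 K.t K.t)) (K.s 39 (K.s 24 K.t K.t) (K.s 60 K.t (K.s 36 K.t K.t))))) (K.s 217 (K.s 82 (K.s 42 (K.s 22 K.t K.t) (K.s 5 K.t K.t)) (K.s 60 (K.s 30 K.t K.t) (K.s 15 K.t (K.s 35 K.t K.t)))) (K.s 156 (K.s 120 (K.s 75 K.t K.t) (K.s 27 K.t (K.s 3 K.t K.t))) (K.s 24 (K.s 18 K.t K.t) (K.s 1 K.t (K.s 2 K.t K.t)))))) (K.s 486 (K.s 261 (K.s 102 (K.s 36 (K.s 21 K.t K.t) (K.s 30 K.t K.t)) (K.s 10 (K.s 9 K.t K.t) (K.s 98 K.t (K.s 1 K.t K.t)))) (K.s 75 (K.s 45 (K.s 30 K.t K.t) (K.s 12 K.t (K.s 12 K.t K.t))) (K.s 90 (K.s 18 K.t K.t) (K.s 18 K.t (K.s 9 K.t K.t))))) (K.s 180 (K.s 90 (K.s 50 (K.s 15 K.t K.t) (K.s 25 K.t K.t)) (K.s 54 (K.s 5 K.t K.t) (K.s 12 K.t (K.s 9 K.t K.t)))) (K.s 105 (K.s 39 (K.s 30 K.t K.t) (K.s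 41 K.t (K.s 10 K.t K.t))) (K.s 45 (K.s 15 K.t K.t) (K.s 15 K.t (K.s 15 K.t K.t)))))))) (K.s 1500 (K.s 875 (K.s 465 (K.s 225 (K.s 109 (K.s 69 (K.s 15 K.t K.t) (K.s 36 K.t K.t)) (K.s 23 (K.s 11 K.t K.t) (K.s 43 K.t (K.s 38 K.t K.t)))) (K.s 125 (K.s 96 (K.s 69 K.t K.t) (K.s 4 K.t K.t)) (K.s 25 (K.s 7 K.t K.t) (K.s 27 K.t (K.s 54 K.t K.t))))) (K.s 210 (K.s 60 (K.s 36 (K.s 18 K.t K.t) (K.s 9 K.t K.t)) (K.s 77 (K.s 30 K.t K.t) (K.s 13 K.t (K.s 30 K.t K.t)))) (K.s 96 (K.s 18 (K.s 15 K.t K.t) (K.s 7 K.t (K.s 25 K.t K.t))) (K.s 54 (K.s 9 K.t K.t) (K.s 15 K.t (K.s 21 K.t K.t)))))) (K.s 304 (K.s 169 (K.s 70 (K.s 35 (K.s 4 K.t K.t) (K.s 32 K.t K.t)) (K.s 30 (K.s 24 K.t K.t) (K.s 48 K.t (K.s 6 K.t K.t)))) (K.s 81 (K.s 12 (K.s 6 K.t K.t) (K.s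 25 K.t (K.s 32 K.t K.t))) (K.s 33 (K.s 30 K.t K.t) (K.s 12 K.t (K.s 6 K.t K.t))))) (K.s 171 (K.s 96 (K.s 18 (K.s 6 K.t K.t) (K.s 24 K.t K.t)) (K.s 30 (K.s 18 K.t K.t) (K.s 12 K.t (K.s 3 K.t K.t)))) (K.s 90 (K.s 24 (K.s 15 K.t K.t) (K.s 11 K.t (K.s 10 K.t K.t))) (K.s 42 (K.s 15 K.t K.t) (K.s 3 K.t (K.s 6 K.t K.t))))))) (K.s 782 (K.s 360 (K.s 198 (K.s 105 (K.s 72 (K.s 54 K.t K.t) (K.s 3 K.t K.t)) (K.s 30 (K.s 12 K.t K.t) (K.s 27 K.t (K.s 9 K.t K.t)))) (K.s 47 (K.s 18 (K.s 9 K.t K.t) (K.s 9 K.t K.t)) (K.s 40 (K.s 25 K.t K.t) (K.s 30 K.t (K.s 18 K.t K.t))))) (K.s 177 (K.s 57 (K.s 15 (K.s 9 K.t K.t) (K.s 39 K.t K.t)) (K.s 18 (K.s 8 K.t K.t) (K.s 15 K.t (K.s 45 K.t K.t)))) (K.s 120 (K.s 34 (K.s 21 K.t K.t) (K.s 14 K.t (K.s 36 K.t K.t)))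 (K.s 51 (K.s 18 K.t K.t) (K.s 27 K.t (K.s 30 K.t K.t)))))) (K.s 379 (K.s 185 (K.s 78 (K.s 43 (K.s 18 K.t K.t) (K.s 27 K.t K.t)) (K.s 40 (K.s 37 K.t K.t) (K.s 15 K.t (K.s 21 K.t K.t)))) (K.s 98 (K.s 32 (K.s 18 K.t K.t) (K.s 36 K.t (K.s 27 K.t K.t))) (K.s 30 (K.s 15 K.t K.t) (K.s 30 K.t (K.s 25 K.t K.t))))) (K.s 139 (K.s 44 (K.s 21 (K.s 9 K.t K.t) (K.s 3 K.t K.t)) (K.s 46 (K.s 10 K.t K.t) (K.s 9 K.t (K.s 15 K.t K.t)))) (K.s 133 (K.s 45 (K.s 5 K.t K.t) (K.s 50 K.t (K.s 30 K.t K.t))) (K.s 25 (K.s 7 K.t K.t) (K.s 36 K.t (K.s 9 K.t K.t))))))))) (K.s 2517 (K.s 1251 (K.s 681 (K.s 429 (K.s 261 (K.s 126 (K.s 78 (K.s 51 K.t K.t) (K.s 3 K.t K.t)) (K.s 60 (K.s 6 K.t K.t) (K.s 30 K.t (K.s 15 K.t K.t)))) (K.s 78 (K.s 21 (K.s 15 K.t K.t) (K.s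 39 K.t K.t)) (K.s 63 (K.s 62 K.t K.t) (K.s 18 K.t (K.s 6 K.t K.t))))) (K.s 148 (K.s 36 (K.s 26 (K.s 22 K.t K.t) (K.s 7 K.t K.t)) (K.s 36 (K.s 12 K.t K.t) (K.s 15 K.t (K.s 30 K.t K.t)))) (K.s 50 (K.s 14 (K.s 4 K.t K.t) (K.s 18 K.t (K.s 9 K.t K.t))) (K.s 18 (K.s 12 K.t K.t) (K.s 6 K.t (K.s 21 K.t K.t)))))) (K.s 270 (K.s 144 (K.s 90 (K.s 45 (K.s 30 K.t K.t) (K.s 27 K.t K.t)) (K.s 27 (K.s 6 K.t K.t) (K.s 3 K.t (K.s 11 K.t K.t)))) (K.s 81 (K.s 36 (K.s 24 K.t K.t) (K.s 15 K.t (K.s 15 K.t K.t))) (K.s 21 (K.s 18 K.t K.t) (K.s 15 K.t (K.s 3 K.t K.t))))) (K.s 150 (K.s 72 (K.s 45 (K.s 36 K.t K.t) (K.s 5 K.t K.t)) (K.s 48 (K.s 6 K.t K.t) (K.s 6 K.t (K.s 18 K.t K.t)))) (K.s 75 (K.s 30 (K.s 12 K.t K.t) (K.s 27 K.t (K.s 9 K.t K.t))) (K.s 36 (K.s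 9 K.t K.t) (K.s 9 K.t (K.s 18 K.t K.t))))))) (K.s 675 (K.s 300 (K.s 123 (K.s 69 (K.s 45 (K.s 25 K.t K.t) (K.s 15 K.t K.t)) (K.s 27 (K.s 9 K.t K.t) (K.s 4 K.t (K.s 14 K.t K.t)))) (K.s 117 (K.s 54 (K.s 27 K.t K.t) (K.s 27 K.t K.t)) (K.s 18 (K.s 10 K.t K.t) (K.s 12 K.t (K.s 5 K.t K.t))))) (K.s 210 (K.s 110 (K.s 63 (K.s 30 K.t K.t) (K.s 3 K.t K.t)) (K.s 55 (K.s 40 K.t K.t) (K.s 9 K.t (K.s 15 K.t K.t)))) (K.s 80 (K.s 17 (K.s 15 K.t K.t) (K.s 15 K.t (K.s 13 K.t K.t))) (K.s 46 (K.s 10 K.t K.t) (K.s 3 K.t (K.s 24 K.t K.t)))))) (K.s 342 (K.s 159 (K.s 75 (K.s 61 (K.s 15 K.t K.t) (K.s 8 K.t K.t)) (K.s 48 (K.s 12 K.t K.t) (K.s 12 K.t (K.s 15 K.t K.t)))) (K.s 93 (K.s 36 (K.s 27 K.t K.t) (K.s 35 K.t (K.s 19 K.t K.t))) (K.s 27 (K.s 3 K.t K.t)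 (K.s 6 K.t (K.s 15 K.t K.t))))) (K.s 72 (K.s 33 (K.s 8 (K.s 3 K.t K.t) (K.s 13 K.t K.t)) (K.s 24 (K.s 9 K.t K.t) (K.s 6 K.t (K.s 5 K.t K.t)))) (K.s 73 (K.s 33 (K.s 9 K.t K.t) (K.s 30 K.t (K.s 6 K.t K.t))) (K.s 8 (K.s 5 K.t K.t) (K.s 15 K.t (K.s 45 K.t K.t)))))))) (K.s 990 (K.s 534 (K.s 309 (K.s 180 (K.s 99 (K.s 18 (K.s 9 K.t K.t) (K.s 6 K.t K.t)) (K.s 45 (K.s 10 K.t K.t) (K.s 16 K.t (K.s 4 K.t K.t)))) (K.s 75 (K.s 54 (K.s 4 K.t K.t) (K.s 10 K.t K.t)) (K.s 19 (K.s 6 K.t K.t) (K.s 5 K.t (K.s 9 K.t K.t))))) (K.s 114 (K.s 45 (K.s 21 (K.s 15 K.t K.t) (K.s 8 K.t K.t)) (K.s 30 (K.s 6 K.t K.t) (K.s 30 K.t (K.s 6 K.t K.t)))) (K.s 54 (K.s 21 (K.s 11 K.t K.t) (K.s 6 K.t (K.s 9 K.t K.t))) (K.s 18 (K.s 9 K.t K.t) (K.s 9 K.t (K.s 15 K.t K.t))))))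 (K.s 249 (K.s 132 (K.s 51 (K.s 8 (K.s 6 K.t K.t) (K.s 40 K.t K.t)) (K.s 39 (K.s 27 K.t K.t) (K.s 3 K.t (K.s 12 K.t K.t)))) (K.s 45 (K.s 31 (K.s 18 K.t K.t) (K.s 5 K.t (K.s 2 K.t K.t))) (K.s 48 (K.s 13 K.t K.t) (K.s 5 K.t (K.s 10 K.t K.t))))) (K.s 90 (K.s 51 (K.s 11 (K.s 6 K.t K.t) (K.s 7 K.t K.t)) (K.s 15 (K.s 12 K.t K.t) (K.s 5 K.t (K.s 10 K.t K.t)))) (K.s 63 (K.s 36 (K.s 9 K.t K.t) (K.s 18 K.t (K.s 7 K.t K.t))) (K.s 23 (K.s 18 K.t K.t) (K.s 4 K.t (K.s 21 K.t K.t))))))) (K.s 519 (K.s 198 (K.s 104 (K.s 45 (K.s 24 (K.s 12 K.t K.t) (K.s 10 K.t K.t)) (K.s 19 (K.s 9 K.t K.t) (K.s 5 K.t (K.s 15 K.t K.t)))) (K.s 34 (K.s 10 (K.s 8 K.t K.t) (K.s 12 K.t (K.s 3 K.t K.t))) (K.s 36 (K.s 6 K.t K.t) (K.s 15 K.t (K.s 5 K.t K.t))))) (K.s 144 (K.s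 86 (K.s 45 (K.s 36 K.t K.t) (K.s 9 K.t K.t)) (K.s 10 (K.s 4 K.t K.t) (K.s 30 K.t (K.s 12 K.t K.t)))) (K.s 72 (K.s 36 (K.s 12 K.t K.t) (K.s 1 K.t (K.s 26 K.t K.t))) (K.s 72 (K.s 45 K.t K.t) (K.s 11 K.t (K.s 7 K.t K.t)))))) (K.s 300 (K.s 91 (K.s 60 (K.s 15 (K.s 3 K.t K.t) (K.s 24 K.t K.t)) (K.s 17 (K.s 15 K.t K.t) (K.s 2 K.t (K.s 11 K.t K.t)))) (K.s 104 (K.s 62 (K.s 59 K.t K.t) (K.s 12 K.t (K.s 9 K.t K.t))) (K.s 42 (K.s 15 K.t K.t) (K.s 38 K.t (K.s 16 K.t K.t))))) (K.s 140 (K.s 63 (K.s 25 (K.s 18 K.t K.t) (K.s 20 K.t K.t)) (K.s 27 (K.s 12 K.t K.t) (K.s 9 K.t (K.s 6 K.t K.t)))) (K.s 55 (K.s 15 (K.s 13 K.t K.t) (K.s 20 K.t (K.s 14 K.t K.t))) (K.s 30 (K.s 12 K.t K.t) (K.s 36 K.t (K.s 9 K.t K.t)))))))))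

/-- second part -/
noncomputable def kb : K := K.s 5124 (K.s 2415 (K.s 1185 (K.s 507 (K.s 246 (K.s 138 (K.s 75 (K.s 30 (K.s 12 K.t K.t) (K.s 35 K.t K.t)) (K.s 25 (K.s 3 K.t K.t) (K.s 11 K.t (K.s 9 K.t K.t)))) (K.s 60 (K.s 27 (K.s 18 K.t K.t) (K.s 25 K.t K.t)) (K.s 21 (K.s 12 K.t K.t) (K.s 9 K.t (K.s 12 K.t K.t))))) (K.s 129 (K.s 44 (K.s 36 (K.s 27 K.t K.t) (K.s 2 K.t K.t)) (K.s 40 (K.s 25 K.t K.t) (K.s 15 K.t (K.s 6 K.t K.t)))) (K.s 96 (K.s 45 (K.s 15 K.t K.t) (K.s 15 K.t (K.s 15 K.t K.t))) (K.s 9 (K.s 3 K.t K.t) (K.s 10 K.t (K.s 8 K.t K.t)))))) (K.s 405 (K.s 189 (K.s 71 (K.s 48 (K.s 33 K.t K.t) (K.s 15 K.t K.t)) (K.s 62 (K.s 19 K.t K.t) (K.s 29 K.t (K.s 20 K.t K.t)))) (K.s 144 (K.s 69 (K.s 2 K.t K.t) (K.s 21 K.t (K.s 48 K.t K.t)))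 (K.s 27 (K.s 16 K.t K.t) (K.s 3 K.t (K.s 30 K.t K.t))))) (K.s 153 (K.s 98 (K.s 63 (K.s 18 K.t K.t) (K.s 9 K.t K.t)) (K.s 5 (K.s 1 K.t K.t) (K.s 5 K.t (K.s 18 K.t K.t)))) (K.s 45 (K.s 18 (K.s 1 K.t K.t) (K.s 9 K.t (K.s 8 K.t K.t))) (K.s 36 (K.s 30 K.t K.t) (K.s 14 K.t (K.s 4 K.t K.t))))))) (K.s 546 (K.s 210 (K.s 78 (K.s 35 (K.s 5 (K.s 1 K.t K.t) (K.s 10 K.t K.t)) (K.s 10 (K.s 7 K.t K.t) (K.s 15 K.t (K.s 10 K.t K.t)))) (K.s 55 (K.s 27 (K.s 24 K.t K.t) (K.s 10 K.t K.t)) (K.s 28 (K.s 8 K.t K.t) (K.s 16 K.t (K.s 18 K.t K.t))))) (K.s 175 (K.s 120 (K.s 35 (K.s 2 K.t K.t) (K.s 31 K.t K.t)) (K.s 27 (K.s 6 K.t K.t) (K.s 18 K.t (K.s 9 K.t K.t)))) (K.s 56 (K.s 23 (K.s 20 K.t K.t) (K.s 12 K.t (K.s 5 K.t K.t))) (K.s 39 (K.s 24 K.t K.t) (K.s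 17 K.t (K.s 40 K.t K.t)))))) (K.s 279 (K.s 126 (K.s 57 (K.s 27 (K.s 9 K.t K.t) (K.s 27 K.t K.t)) (K.s 6 (K.s 3 K.t K.t) (K.s 21 K.t (K.s 27 K.t K.t)))) (K.s 57 (K.s 28 (K.s 2 K.t K.t) (K.s 5 K.t (K.s 9 K.t K.t))) (K.s 36 (K.s 6 K.t K.t) (K.s 15 K.t (K.s 9 K.t K.t))))) (K.s 210 (K.s 50 (K.s 36 (K.s 15 K.t K.t) (K.s 9 K.t K.t)) (K.s 62 (K.s 28 K.t K.t) (K.s 32 K.t (K.s 36 K.t K.t)))) (K.s 150 (K.s 78 (K.s 24 K.t K.t) (K.s 42 K.t (K.s 12 K.t K.t))) (K.s 33 (K.s 9 K.t K.t) (K.s 3 K.t (K.s 1 K.t K.t)))))))) (K.s 1290 (K.s 693 (K.s 351 (K.s 150 (K.s 99 (K.s 45 (K.s 30 K.t K.t) (K.s 30 K.t K.t)) (K.s 27 (K.s 9 K.t K.t) (K.s 9 K.t (K.s 12 K.t K.t)))) (K.s 75 (K.s 65 (K.s 45 K.t K.t) (K.s 4 K.t K.t)) (K.s 50 (K.s 31 K.t K.t) (K.s 40 K.t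 (K.s 30 K.t K.t))))) (K.s 180 (K.s 98 (K.s 18 (K.s 4 K.t K.t) (K.s 63 K.t K.t)) (K.s 22 (K.s 1 K.t K.t) (K.s 24 K.t (K.s 15 K.t K.t)))) (K.s 81 (K.s 44 (K.s 24 K.t K.t) (K.s 10 K.t (K.s 9 K.t K.t))) (K.s 27 (K.s 3 K.t K.t) (K.s 36 K.t (K.s 4 K.t K.t)))))) (K.s 279 (K.s 157 (K.s 81 (K.s 37 (K.s 12 K.t K.t) (K.s 35 K.t K.t)) (K.s 21 (K.s 1 K.t K.t) (K.s 33 K.t (K.s 21 K.t K.t)))) (K.s 77 (K.s 11 (K.s 5 K.t K.t) (K.s 39 K.t (K.s 12 K.t K.t))) (K.s 27 (K.s 22 K.t K.t) (K.s 6 K.t (K.s 3 K.t K.t))))) (K.s 108 (K.s 63 (K.s 33 (K.s 3 K.t K.t) (K.s 12 K.t K.t)) (K.s 30 (K.s 27 K.t K.t) (K.s 6 K.t (K.s 4 K.t K.t)))) (K.s 145 (K.s 45 (K.s 18 K.t K.t) (K.s 54 K.t (K.s 27 K.t K.t))) (K.s 10 (K.s 8 K.t K.t) (K.s 25 K.t (K.s 15 K.t K.t)))))))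 (K.s 735 (K.s 315 (K.s 231 (K.s 105 (K.s 51 (K.s 21 K.t K.t) (K.s 27 K.t K.t)) (K.s 30 (K.s 27 K.t K.t) (K.s 30 K.t (K.s 30 K.t K.t)))) (K.s 48 (K.s 9 (K.s 4 K.t K.t) (K.s 33 K.t K.t)) (K.s 15 (K.s 6 K.t K.t) (K.s 18 K.t (K.s 1 K.t K.t))))) (K.s 180 (K.s 114 (K.s 48 (K.s 42 K.t K.t) (K.s 12 K.t K.t)) (K.s 33 (K.s 26 K.t K.t) (K.s 3 K.t (K.s 18 K.t K.t)))) (K.s 60 (K.s 30 (K.s 15 K.t K.t) (K.s 3 K.t (K.s 9 K.t K.t))) (K.s 30 (K.s 12 K.t K.t) (K.s 25 K.t (K.s 35 K.t K.t)))))) (K.s 315 (K.s 150 (K.s 45 (K.s 9 (K.s 2 K.t K.t) (K.s 9 K.t K.t)) (K.s 45 (K.s 27 K.t K.t) (K.s 15 K.t (K.s 21 K.t K.t)))) (K.s 75 (K.s 25 (K.s 12 K.t K.t) (K.s 14 K.t (K.s 33 K.t K.t))) (K.s 15 (K.s 9 K.t K.t) (K.s 30 K.t (K.s 18 K.t K.t))))) (K.s 175 (K.s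 105 (K.s 60 (K.s 35 K.t K.t) (K.s 21 K.t K.t)) (K.s 30 (K.s 15 K.t K.t) (K.s 12 K.t (K.s 6 K.t K.t)))) (K.s 95 (K.s 41 (K.s 14 K.t K.t) (K.s 29 K.t (K.s 10 K.t K.t))) (K.s 40 (K.s 27 K.t K.t) (K.s 5 K.t (K.s 27 K.t K.t))))))))) (K.s 2781 (K.s 1116 (K.s 517 (K.s 270 (K.s 166 (K.s 111 (K.s 66 (K.s 45 K.t K.t) (K.s 36 K.t K.t)) (K.s 21 (K.s 15 K.t K.t) (K.s 9 K.t (K.s 15 K.t K.t)))) (K.s 50 (K.s 17 (K.s 5 K.t K.t) (K.s 15 K.t K.t)) (K.s 30 (K.s 10 K.t K.t) (K.s 6 K.t (K.s 9 K.t K.t))))) (K.s 117 (K.s 40 (K.s 20 (K.s 16 K.t K.t) (K.s 16 K.t K.t)) (K.s 20 (K.s 17 K.t K.t) (K.s 6 K.t (K.s 30 K.t K.t)))) (K.s 63 (K.s 27 (K.s 9 K.t K.t) (K.s 15 K.t (K.s 12 K.t K.t))) (K.s 36 (K.s 21 K.t K.t) (K.s 6 K.t (K.s 24 K.t K.t)))))) (K.s 349 (K.s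 149 (K.s 41 (K.s 23 (K.s 14 K.t K.t) (K.s 9 K.t K.t)) (K.s 28 (K.s 18 K.t K.t) (K.s 8 K.t (K.s 22 K.t K.t)))) (K.s 99 (K.s 45 (K.s 20 K.t K.t) (K.s 15 K.t (K.s 32 K.t K.t))) (K.s 33 (K.s 28 K.t K.t) (K.s 8 K.t (K.s 41 K.t K.t))))) (K.s 142 (K.s 75 (K.s 40 (K.s 25 K.t K.t) (K.s 15 K.t K.t)) (K.s 40 (K.s 13 K.t K.t) (K.s 9 K.t (K.s 6 K.t K.t)))) (K.s 54 (K.s 18 (K.s 16 K.t K.t) (K.s 30 K.t (K.s 3 K.t K.t))) (K.s 18 (K.s 4 K.t K.t) (K.s 12 K.t (K.s 19 K.t K.t))))))) (K.s 818 (K.s 390 (K.s 138 (K.s 50 (K.s 30 (K.s 27 K.t K.t) (K.s 15 K.t K.t)) (K.s 40 (K.s 4 K.t K.t) (K.s 36 K.t (K.s 9 K.t K.t)))) (K.s 92 (K.s 69 (K.s 2 K.t K.t) (K.s 9 K.t K.t)) (K.s 55 (K.s 40 K.t K.t) (K.s 29 K.t (K.s 7 K.t K.t))))) (K.s 204 (K.s 75 (K.s 42 (K.s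 15 K.t K.t) (K.s 3 K.t K.t)) (K.s 110 (K.s 45 K.t K.t) (K.s 7 K.t (K.s 3 K.t K.t)))) (K.s 80 (K.s 45 (K.s 31 K.t K.t) (K.s 11 K.t (K.s 16 K.t K.t))) (K.s 46 (K.s 1 K.t K.t) (K.s 45 K.t (K.s 45 K.t K.t)))))) (K.s 382 (K.s 127 (K.s 28 (K.s 7 (K.s 1 K.t K.t) (K.s 17 K.t K.t)) (K.s 49 (K.s 48 K.t K.t) (K.s 23 K.t (K.s 18 K.t K.t)))) (K.s 180 (K.s 90 (K.s 69 K.t K.t) (K.s 5 K.t (K.s 40 K.t K.t))) (K.s 36 (K.s 15 K.t K.t) (K.s 14 K.t (K.s 10 K.t K.t))))) (K.s 258 (K.s 123 (K.s 42 (K.s 24 K.t K.t) (K.s 18 K.t K.t)) (K.s 41 (K.s 27 K.t K.t) (K.s 40 K.t (K.s 46 K.t K.t)))) (K.s 102 (K.s 27 (K.s 18 K.t K.t) (K.s 36 K.t (K.s 27 K.t K.t))) (K.s 24 (K.s 15 K.t K.t) (K.s 56 K.t (K.s 5 K.t K.t)))))))) (K.s 4305 (K.s 1764 (K.s 675 (K.s 447 (K.s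 225 (K.s 63 (K.s 12 K.t K.t) (K.s 27 K.t K.t)) (K.s 72 (K.s 14 K.t K.t) (K.s 9 K.t (K.s 114 K.t K.t)))) (K.s 92 (K.s 48 (K.s 3 K.t K.t) (K.s 30 K.t K.t)) (K.s 10 (K.s 2 K.t K.t) (K.s 6 K.t (K.s 75 K.t K.t))))) (K.s 676 (K.s 270 (K.s 60 (K.s 39 K.t K.t) (K.s 147 K.t K.t)) (K.s 225 (K.s 36 K.t K.t) (K.s 90 K.t (K.s 75 K.t K.t)))) (K.s 180 (K.s 89 (K.s 14 K.t K.t) (K.s 9 K.t (K.s 36 K.t K.t))) (K.s 74 (K.s 44 K.t K.t) (K.s 45 K.t (K.s 60 K.t K.t)))))) (K.s 1377 (K.s 567 (K.s 171 (K.s 81 (K.s 21 K.t K.t) (K.s 27 K.t K.t)) (K.s 252 (K.s 225 K.t K.t) (K.s 18 K.t (K.s 117 K.t K.t)))) (K.s 405 (K.s 189 (K.s 9 K.t K.t) (K.s 15 K.t (K.s 30 K.t K.t))) (K.s 81 (K.s 54 K.t K.t) (K.s 18 K.t (K.s 225 K.t K.t))))) (K.s 513 (K.s 324 (K.s 144 (K.s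 128 K.t K.t) (K.s 138 K.t K.t)) (K.s 90 (K.s 27 K.t K.t) (K.s 24 K.t (K.s 21 K.t K.t)))) (K.s 216 (K.s 95 (K.s 81 K.t K.t) (K.s 4 K.t (K.s 33 K.t K.t))) (K.s 154 (K.s 81 K.t K.t) (K.s 44 K.t (K.s 117 K.t K.t))))))) (K.s 2355 (K.s 1230 (K.s 492 (K.s 105 (K.s 55 (K.s 42 K.t K.t) (K.s 5 K.t K.t)) (K.s 63 (K.s 3 K.t K.t) (K.s 91 K.t (K.s 161 K.t K.t)))) (K.s 396 (K.s 334 (K.s 243 K.t K.t) (K.s 14 K.t (K.s 15 K.t K.t))) (K.s 72 (K.s 3 K.t K.t) (K.s 90 K.t (K.s 138 K.t K.t))))) (K.s 405 (K.s 135 (K.s 36 (K.s 27 K.t K.t) (K.s 64 K.t K.t)) (K.s 144 (K.s 90 K.t K.t) (K.s 51 K.t (K.s 22 K.t K.t)))) (K.s 495 (K.s 234 (K.s 45 K.t K.t) (K.s 101 K.t (K.s 142 K.t K.t))) (K.s 90 (K.s 75 K.t K.t) (K.s 15 K.t (K.s 3 K.t K.t)))))) (K.s 1350 (K.s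 921 (K.s 522 (K.s 261 (K.s 18 K.t K.t) (K.s 189 K.t K.t)) (K.s 36 (K.s 21 K.t K.t) (K.s 207 K.t (K.s 135 K.t K.t)))) (K.s 205 (K.s 105 (K.s 84 K.t K.t) (K.s 9 K.t (K.s 84 K.t K.t))) (K.s 59 (K.s 26 K.t K.t) (K.s 72 K.t (K.s 63 K.t K.t))))) (K.s 825 (K.s 165 (K.s 81 (K.s 36 K.t K.t) (K.s 18 K.t K.t)) (K.s 295 (K.s 34 K.t K.t) (K.s 98 K.t (K.s 28 K.t K.t)))) (K.s 540 (K.s 204 (K.s 165 K.t K.t) (K.s 51 K.t (K.s 136 K.t K.t))) (K.s 327 (K.s 5 K.t K.t) (K.s 350 K.t (K.s 28 K.t K.t)))))))))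

/-- the class 128 -/
noncomputable def kc : K := K.s 11785 (K.s 6997 (K.s 3802 (K.s 1963 (K.s 877 (K.s 482 (K.s 247 (K.s 145 (K.s 121 (K.s 82 K.z K.t) K.t) (K.s 33 K.t K.t)) (K.s 75 (K.s 9 K.t K.t) (K.s 24 K.t (K.s 99 K.t K.t)))) (K.s 125 (K.s 53 (K.s 44 K.t K.t) (K.s 42 K.t K.t)) (K.s 127 (K.s 75 K.t K.t) (K.s 8 K.t (K.s 66 K.t K.t))))) (K.s 486 (K.s 255 (K.s 225 (K.s 75 K.t K.t) (K.s 25 K.t K.t)) (K.s 96 (K.s 55 K.t K.t) (K.s 86 K.t (K.s 22 K.t K.t)))) (K.s 369 (K.s 224 (K.s 216 K.t K.t) (K.s 100 K.t K.t)) (K.s 99 (K.s 90 K.t K.t) (K.s 60 K.t (K.s 6 K.t K.t)))))) (K.s 1155 (K.s 651 (K.s 258 (K.s 102 (K.s 66 K.t K.t) (K.s 27 K.t K.t)) (K.s 141 (K.s 6 K.t K.t) (K.s 189 K.t (K.s 36 K.t K.t)))) (K.s 273 (K.s 75 (K.s 63 K.t K.t)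 (K.s 51 K.t K.t)) (K.s 69 (K.s 33 K.t K.t) (K.s 36 K.t (K.s 45 K.t K.t))))) (K.s 479 (K.s 222 (K.s 114 (K.s 81 K.t K.t) (K.s 75 K.t K.t)) (K.s 174 (K.s 72 K.t K.t) (K.s 38 K.t (K.s 10 K.t K.t)))) (K.s 97 (K.s 10 (K.s 7 K.t K.t) (K.s 51 K.t (K.s 27 K.t K.t))) (K.s 18 (K.s 12 K.t K.t) (K.s 36 K.t (K.s 22 K.t K.t))))))) (K.s 1584 (K.s 702 (K.s 359 (K.s 225 (K.s 135 (K.s 90 K.t K.t) (K.s 72 K.t K.t)) (K.s 15 (K.s 9 K.t K.t) (K.s 12 K.t (K.s 63 K.t K.t)))) (K.s 151 (K.s 91 (K.s 1 K.t K.t) (K.s 18 K.t K.t)) (K.s 45 (K.s 21 K.t K.t) (K.s 30 K.t (K.s 75 K.t K.t))))) (K.s 315 (K.s 168 (K.s 108 (K.s 63 K.t K.t) (K.s 18 K.t K.t)) (K.s 15 (K.s 12 K.t K.t) (K.s 15 K.t (K.s 36 K.t K.t)))) (K.s 243 (K.s 103 (K.s 81 K.t K.t) (K.s 22 K.t (K.s 106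 K.t K.t))) (K.s 135 (K.s 9 K.t K.t) (K.s 35 K.t (K.s 91 K.t K.t)))))) (K.s 801 (K.s 306 (K.s 108 (K.s 27 (K.s 6 K.t K.t) (K.s 15 K.t K.t)) (K.s 63 (K.s 18 K.t K.t) (K.s 5 K.t (K.s 94 K.t K.t)))) (K.s 270 (K.s 99 (K.s 45 K.t K.t) (K.s 81 K.t K.t)) (K.s 30 (K.s 27 K.t K.t) (K.s 10 K.t (K.s 41 K.t K.t))))) (K.s 480 (K.s 135 (K.s 120 (K.s 9 K.t K.t) (K.s 6 K.t K.t)) (K.s 129 (K.s 27 K.t K.t) (K.s 51 K.t (K.s 60 K.t K.t)))) (K.s 150 (K.s 45 (K.s 15 K.t K.t) (K.s 15 K.t (K.s 45 K.t K.t))) (K.s 144 (K.s 27 K.t K.t) (K.s 18 K.t (K.s 8 K.t K.t)))))))) (K.s 2520 (K.s 1225 (K.s 657 (K.s 351 (K.s 171 (K.s 120 (K.s 90 K.t K.t) (K.s 48 K.t K.t)) (K.s 94 (K.s 59 K.t K.t) (K.s 50 K.t (K.s 6 K.t K.t)))) (K.s 144 (K.s 81 (K.s 63 K.t K.t) (K.s 33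 K.t K.t)) (K.s 63 (K.s 15 K.t K.t) (K.s 18 K.t (K.s 39 K.t K.t))))) (K.s 333 (K.s 183 (K.s 72 (K.s 63 K.t K.t) (K.s 36 K.t K.t)) (K.s 33 (K.s 6 K.t K.t) (K.s 27 K.t (K.s 72 K.t K.t)))) (K.s 147 (K.s 75 (K.s 45 K.t K.t) (K.s 17 K.t K.t)) (K.s 33 (K.s 24 K.t K.t) (K.s 45 K.t (K.s 9 K.t K.t)))))) (K.s 728 (K.s 404 (K.s 161 (K.s 80 (K.s 14 K.t K.t) (K.s 45 K.t K.t)) (K.s 69 (K.s 54 K.t K.t) (K.s 78 K.t (K.s 72 K.t K.t)))) (K.s 162 (K.s 117 (K.s 36 K.t K.t) (K.s 24 K.t K.t)) (K.s 99 (K.s 54 K.t K.t) (K.s 9 K.t (K.s 39 K.t K.t))))) (K.s 372 (K.s 153 (K.s 42 (K.s 27 K.t K.t) (K.s 75 K.t K.t)) (K.s 84 (K.s 9 K.t K.t) (K.s 75 K.t (K.s 39 K.t K.t)))) (K.s 96 (K.s 33 (K.s 15 K.t K.t) (K.s 27 K.t (K.s 15 K.t K.t))) (K.s 36 (K.s 9 K.t K.t)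 (K.s 3 K.t (K.s 40 K.t K.t))))))) (K.s 1161 (K.s 685 (K.s 306 (K.s 195 (K.s 135 (K.s 36 K.t K.t) (K.s 27 K.t K.t)) (K.s 72 (K.s 30 K.t K.t) (K.s 3 K.t (K.s 30 K.t K.t)))) (K.s 99 (K.s 18 (K.s 9 K.t K.t) (K.s 18 K.t K.t)) (K.s 45 (K.s 27 K.t K.t) (K.s 144 K.t (K.s 63 K.t K.t))))) (K.s 260 (K.s 71 (K.s 44 (K.s 35 K.t K.t) (K.s 21 K.t K.t)) (K.s 54 (K.s 39 K.t K.t) (K.s 36 K.t (K.s 84 K.t K.t)))) (K.s 75 (K.s 27 (K.s 9 K.t K.t) (K.s 8 K.t (K.s 10 K.t K.t))) (K.s 33 (K.s 15 K.t K.t) (K.s 57 K.t (K.s 15 K.t K.t)))))) (K.s 495 (K.s 189 (K.s 84 (K.s 54 (K.s 9 K.t K.t) (K.s 21 K.t K.t)) (K.s 51 (K.s 45 K.t K.t) (K.s 27 K.t (K.s 18 K.t K.t)))) (K.s 105 (K.s 84 (K.s 45 K.t K.t) (K.s 6 K.t K.t)) (K.s 84 (K.s 57 K.t K.t) (K.s 18 K.t (K.s 63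 K.t K.t))))) (K.s 234 (K.s 72 (K.s 19 (K.s 9 K.t K.t) (K.s 20 K.t K.t)) (K.s 102 (K.s 42 K.t K.t) (K.s 9 K.t (K.s 24 K.t K.t)))) (K.s 195 (K.s 81 (K.s 27 K.t K.t) (K.s 54 K.t (K.s 15 K.t K.t))) (K.s 15 (K.s 12 K.t K.t) (K.s 60 K.t (K.s 32 K.t K.t))))))))) (K.s 5105 (K.s 2652 (K.s 1173 (K.s 531 (K.s 207 (K.s 94 (K.s 45 (K.s 27 K.t K.t) (K.s 15 K.t K.t)) (K.s 23 (K.s 17 K.t K.t) (K.s 10 K.t (K.s 2 K.t K.t)))) (K.s 195 (K.s 63 (K.s 36 K.t K.t) (K.s 72 K.t K.t)) (K.s 30 (K.s 3 K.t K.t) (K.s 15 K.t (K.s 66 K.t K.t))))) (K.s 252 (K.s 141 (K.s 81 (K.s 21 K.t K.t) (K.s 45 K.t K.t)) (K.s 30 (K.s 3 K.t K.t) (K.s 36 K.t (K.s 33 K.t K.t)))) (K.s 189 (K.s 9 (K.s 3 K.t K.t) (K.s 45 K.t K.t)) (K.s 54 (K.s 15 K.t K.t) (K.s 81 K.t (K.s 45 K.t K.t))))))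 (K.s 735 (K.s 474 (K.s 174 (K.s 51 (K.s 49 K.t K.t) (K.s 63 K.t K.t)) (K.s 165 (K.s 30 K.t K.t) (K.s 40 K.t (K.s 50 K.t K.t)))) (K.s 125 (K.s 54 (K.s 3 K.t K.t) (K.s 27 K.t K.t)) (K.s 55 (K.s 1 K.t K.t) (K.s 21 K.t (K.s 54 K.t K.t))))) (K.s 360 (K.s 149 (K.s 36 (K.s 9 K.t K.t) (K.s 108 K.t K.t)) (K.s 60 (K.s 49 K.t K.t) (K.s 70 K.t (K.s 15 K.t K.t)))) (K.s 162 (K.s 54 (K.s 9 K.t K.t) (K.s 36 K.t (K.s 9 K.t K.t))) (K.s 54 (K.s 33 K.t K.t) (K.s 108 K.t (K.s 27 K.t K.t))))))) (K.s 1364 (K.s 660 (K.s 375 (K.s 102 (K.s 66 (K.s 21 K.t K.t) (K.s 9 K.t K.t)) (K.s 63 (K.s 27 K.t K.t) (K.s 18 K.t (K.s 111 K.t K.t)))) (K.s 132 (K.s 51 (K.s 15 K.t K.t) (K.s 54 K.t K.t)) (K.s 63 (K.s 18 K.t K.t) (K.s 9 K.t (K.s 9 K.t K.t))))) (K.s 318 (K.s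 171 (K.s 117 (K.s 90 K.t K.t) (K.s 48 K.t K.t)) (K.s 84 (K.s 27 K.t K.t) (K.s 51 K.t (K.s 9 K.t K.t)))) (K.s 126 (K.s 72 (K.s 9 K.t K.t) (K.s 15 K.t (K.s 27 K.t K.t))) (K.s 65 (K.s 51 K.t K.t) (K.s 13 K.t (K.s 36 K.t K.t)))))) (K.s 379 (K.s 121 (K.s 61 (K.s 7 (K.s 1 K.t K.t) (K.s 27 K.t K.t)) (K.s 24 (K.s 3 K.t K.t) (K.s 26 K.t (K.s 4 K.t K.t)))) (K.s 132 (K.s 75 (K.s 48 K.t K.t) (K.s 35 K.t K.t)) (K.s 42 (K.s 33 K.t K.t) (K.s 36 K.t (K.s 27 K.t K.t))))) (K.s 303 (K.s 117 (K.s 87 (K.s 6 K.t K.t) (K.s 27 K.t K.t)) (K.s 90 (K.s 15 K.t K.t) (K.s 15 K.t (K.s 45 K.t K.t)))) (K.s 219 (K.s 187 (K.s 54 K.t K.t) (K.s 2 K.t (K.s 15 K.t K.t))) (K.s 114 (K.s 51 K.t K.t) (K.s 18 K.t (K.s 18 K.t K.t)))))))) (K.s 2362 (K.s 1177 (K.s 646 (K.s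 295 (K.s 88 (K.s 46 (K.s 25 K.t K.t) (K.s 9 K.t K.t)) (K.s 99 (K.s 84 K.t K.t) (K.s 27 K.t (K.s 78 K.t K.t)))) (K.s 108 (K.s 32 (K.s 27 K.t K.t) (K.s 1 K.t K.t)) (K.s 144 (K.s 81 K.t K.t) (K.s 3 K.t (K.s 42 K.t K.t))))) (K.s 186 (K.s 72 (K.s 26 (K.s 1 K.t K.t) (K.s 10 K.t K.t)) (K.s 21 (K.s 9 K.t K.t) (K.s 42 K.t (K.s 4 K.t K.t)))) (K.s 102 (K.s 75 (K.s 3 K.t K.t) (K.s 15 K.t K.t)) (K.s 78 (K.s 36 K.t K.t) (K.s 126 K.t (K.s 21 K.t K.t)))))) (K.s 530 (K.s 264 (K.s 126 (K.s 45 (K.s 35 K.t K.t) (K.s 27 K.t K.t)) (K.s 45 (K.s 39 K.t K.t) (K.s 27 K.t (K.s 22 K.t K.t)))) (K.s 132 (K.s 51 (K.s 31 K.t K.t) (K.s 45 K.t K.t)) (K.s 99 (K.s 18 K.t K.t) (K.s 27 K.t (K.s 6 K.t K.t))))) (K.s 285 (K.s 145 (K.s 70 (K.s 49 K.t K.t) (K.s 16 K.t K.t))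 (K.s 72 (K.s 56 K.t K.t) (K.s 3 K.t (K.s 15 K.t K.t)))) (K.s 127 (K.s 13 (K.s 7 K.t K.t) (K.s 57 K.t (K.s 42 K.t K.t))) (K.s 48 (K.s 3 K.t K.t) (K.s 90 K.t (K.s 90 K.t K.t))))))) (K.s 4206 (K.s 1785 (K.s 453 (K.s 225 (K.s 120 (K.s 66 K.t K.t) (K.s 81 K.t K.t)) (K.s 128 (K.s 107 K.t K.t) (K.s 82 K.t (K.s 6 K.t K.t)))) (K.s 837 (K.s 417 (K.s 342 K.t K.t) (K.s 384 K.t K.t)) (K.s 153 (K.s 120 K.t K.t) (K.s 228 K.t (K.s 96 K.t K.t))))) (K.s 1590 (K.s 750 (K.s 495 (K.s 100 K.t K.t) (K.s 171 K.t K.t)) (K.s 455 (K.s 42 K.t K.t) (K.s 175 K.t (K.s 60 K.t K.t)))) (K.s 225 (K.s 93 (K.s 90 K.t K.t) (K.s 96 K.t (K.s 21 K.t K.t))) (K.s 165 (K.s 12 K.t K.t) (K.s 345 K.t (K.s 84 K.t K.t)))))) (K.s 1908 (K.s 954 (K.s 513 (K.s 72 (K.s 54 K.t K.t)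 (K.s 387 K.t K.t)) (K.s 258 (K.s 126 K.t K.t) (K.s 48 K.t (K.s 30 K.t K.t)))) (K.s 288 (K.s 225 (K.s 18 K.t K.t) (K.s 30 K.t K.t)) (K.s 307 (K.s 132 K.t K.t) (K.s 215 K.t (K.s 90 K.t K.t))))) (K.s 1566 (K.s 873 (K.s 621 (K.s 432 K.t K.t) (K.s 162 K.t K.t)) (K.s 393 (K.s 378 K.t K.t) (K.s 180 K.t (K.s 39 K.t K.t)))) (K.s 1299 (K.s 342 (K.s 322 K.t K.t) (K.s 738 K.t (K.s 135 K.t K.t))) (K.s 286 (K.s 24 K.t K.t) (K.s 493 K.t (K.s 547 K.t K.t)))))))))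

/-- the class 64 -/
noncomputable def kd : K := K.s 11891 (K.s 7025 (K.s 3701 (K.s 2096 (K.s 1118 (K.s 446 (K.s 386 (K.s 290 (K.s 182 K.z K.t) (K.s 21 K.t K.t)) (K.s 30 K.t (K.s 18 K.t K.t))) (K.s 210 (K.s 15 K.t (K.s 108 K.t K.t)) (K.s 375 K.t (K.s 15 K.t K.t)))) (K.s 594 (K.s 288 (K.s 18 K.t (K.s 225 K.t K.t)) (K.s 27 K.t (K.s 223 K.t K.t))) (K.s 186 (K.s 9 K.t (K.s 135 K.t K.t)) (K.s 120 K.t (K.s 63 K.t K.t))))) (K.s 1038 (K.s 525 (K.s 255 (K.s 30 K.t (K.s 210 K.t K.t)) (K.s 180 K.t (K.s 72 K.t K.t))) (K.s 333 (K.s 27 K.t (K.s 78 K.t K.t)) (K.s 117 K.t (K.s 27 K.t K.t)))) (K.s 207 (K.s 72 (K.s 42 K.t (K.s 15 K.t K.t)) (K.s 33 K.t (K.s 21 K.t K.t))) (K.s 270 (K.s 30 K.t (K.s 165 K.t K.t)) (K.s 27 K.t (K.s 18 K.t K.t)))))) (K.s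 1584 (K.s 655 (K.s 180 (K.s 126 (K.s 18 K.t (K.s 63 K.t K.t)) (K.s 2 K.t (K.s 40 K.t K.t))) (K.s 360 (K.s 72 K.t (K.s 63 K.t K.t)) (K.s 48 K.t (K.s 42 K.t K.t)))) (K.s 587 (K.s 215 (K.s 119 K.t (K.s 81 K.t K.t)) (K.s 96 K.t (K.s 189 K.t K.t))) (K.s 81 (K.s 18 K.t (K.s 45 K.t K.t)) (K.s 99 K.t (K.s 33 K.t K.t))))) (K.s 996 (K.s 621 (K.s 432 (K.s 126 K.t (K.s 90 K.t K.t)) (K.s 84 K.t (K.s 35 K.t K.t))) (K.s 207 (K.s 60 K.t (K.s 129 K.t K.t)) (K.s 113 K.t (K.s 13 K.t K.t)))) (K.s 360 (K.s 300 (K.s 3 K.t (K.s 81 K.t K.t)) (K.s 18 K.t (K.s 9 K.t K.t))) (K.s 270 (K.s 21 K.t (K.s 243 K.t K.t)) (K.s 48 K.t (K.s 27 K.t K.t))))))) (K.s 2349 (K.s 1176 (K.s 627 (K.s 156 (K.s 111 (K.s 6 K.t (K.s 45 K.t K.t)) (K.s 30 K.t (K.s 4 K.t K.t))) (K.s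 300 (K.s 195 K.t (K.s 63 K.t K.t)) (K.s 126 K.t (K.s 18 K.t K.t)))) (K.s 104 (K.s 54 (K.s 29 K.t (K.s 10 K.t K.t)) (K.s 15 K.t (K.s 30 K.t K.t))) (K.s 355 (K.s 40 K.t (K.s 99 K.t K.t)) (K.s 36 K.t (K.s 27 K.t K.t))))) (K.s 603 (K.s 405 (K.s 252 (K.s 57 K.t (K.s 93 K.t K.t)) (K.s 3 K.t (K.s 60 K.t K.t))) (K.s 81 (K.s 15 K.t (K.s 57 K.t K.t)) (K.s 49 K.t (K.s 50 K.t K.t)))) (K.s 342 (K.s 126 (K.s 114 K.t (K.s 3 K.t K.t)) (K.s 54 K.t (K.s 72 K.t K.t))) (K.s 204 (K.s 54 K.t (K.s 81 K.t K.t)) (K.s 6 K.t (K.s 15 K.t K.t)))))) (K.s 1502 (K.s 897 (K.s 447 (K.s 234 (K.s 42 K.t (K.s 45 K.t K.t)) (K.s 69 K.t (K.s 9 K.t K.t))) (K.s 243 (K.s 54 K.t (K.s 99 K.t K.t)) (K.s 42 K.t (K.s 30 K.t K.t)))) (K.s 360 (K.s 75 (K.s 36 K.t (K.s 9 K.t K.t))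 (K.s 15 K.t (K.s 63 K.t K.t))) (K.s 150 (K.s 90 K.t (K.s 45 K.t K.t)) (K.s 10 K.t (K.s 65 K.t K.t))))) (K.s 484 (K.s 250 (K.s 88 (K.s 25 K.t (K.s 30 K.t K.t)) (K.s 54 K.t (K.s 54 K.t K.t))) (K.s 150 (K.s 30 K.t (K.s 105 K.t K.t)) (K.s 30 K.t (K.s 27 K.t K.t)))) (K.s 231 (K.s 66 (K.s 48 K.t (K.s 3 K.t K.t)) (K.s 90 K.t (K.s 15 K.t K.t))) (K.s 174 (K.s 93 K.t (K.s 72 K.t K.t)) (K.s 81 (K.s 36 K.t K.t) (K.s 42 K.t K.t)))))))) (K.s 5064 (K.s 2478 (K.s 1170 (K.s 525 (K.s 360 (K.s 238 (K.s 63 K.t (K.s 119 K.t K.t)) (K.s 32 K.t (K.s 45 K.t K.t))) (K.s 60 (K.s 25 K.t (K.s 23 K.t K.t)) (K.s 21 K.t (K.s 24 K.t K.t)))) (K.s 210 (K.s 105 (K.s 33 K.t (K.s 57 K.t K.t)) (K.s 35 K.t (K.s 19 K.t K.t))) (K.s 273 (K.s 21 K.t (K.s 9 K.t K.t)) (K.s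 42 K.t (K.s 75 K.t K.t))))) (K.s 486 (K.s 300 (K.s 135 (K.s 63 K.t (K.s 57 K.t K.t)) (K.s 45 K.t (K.s 9 K.t K.t))) (K.s 51 (K.s 15 K.t (K.s 9 K.t K.t)) (K.s 36 K.t (K.s 18 K.t K.t)))) (K.s 486 (K.s 108 (K.s 54 K.t (K.s 3 K.t K.t)) (K.s 126 K.t (K.s 126 K.t K.t))) (K.s 198 (K.s 81 K.t (K.s 72 K.t K.t)) (K.s 45 K.t (K.s 75 K.t K.t)))))) (K.s 1127 (K.s 636 (K.s 522 (K.s 393 (K.s 207 K.t (K.s 150 K.t K.t)) (K.s 45 K.t (K.s 45 K.t K.t))) (K.s 51 (K.s 15 K.t (K.s 9 K.t K.t)) (K.s 48 K.t (K.s 6 K.t K.t)))) (K.s 171 (K.s 76 (K.s 27 K.t (K.s 9 K.t K.t)) (K.s 5 K.t (K.s 81 K.t K.t))) (K.s 247 (K.s 180 K.t (K.s 21 K.t K.t)) (K.s 13 K.t (K.s 37 K.t K.t))))) (K.s 1000 (K.s 445 (K.s 193 (K.s 85 K.t (K.s 63 K.t K.t)) (K.s 18 K.t (K.s 129 K.t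 K.t))) (K.s 90 (K.s 9 K.t (K.s 36 K.t K.t)) (K.s 120 K.t (K.s 150 K.t K.t)))) (K.s 185 (K.s 75 (K.s 15 K.t (K.s 30 K.t K.t)) (K.s 45 K.t (K.s 30 K.t K.t))) (K.s 190 (K.s 25 K.t (K.s 54 K.t K.t)) (K.s 60 K.t (K.s 18 K.t K.t))))))) (K.s 2748 (K.s 1236 (K.s 537 (K.s 291 (K.s 156 (K.s 66 K.t (K.s 85 K.t K.t)) (K.s 35 K.t (K.s 37 K.t K.t))) (K.s 60 (K.s 21 K.t (K.s 6 K.t K.t)) (K.s 30 K.t (K.s 99 K.t K.t)))) (K.s 414 (K.s 169 (K.s 51 K.t (K.s 63 K.t K.t)) (K.s 35 K.t (K.s 175 K.t K.t))) (K.s 105 (K.s 15 K.t (K.s 6 K.t K.t)) (K.s 75 K.t (K.s 78 K.t K.t))))) (K.s 819 (K.s 465 (K.s 315 (K.s 165 K.t (K.s 132 K.t K.t)) (K.s 70 K.t (K.s 20 K.t K.t))) (K.s 210 (K.s 102 K.t (K.s 27 K.t K.t)) (K.s 36 K.t (K.s 96 K.t K.t)))) (K.s 171 (K.s 108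 (K.s 63 K.t (K.s 9 K.t K.t)) (K.s 18 K.t (K.s 30 K.t K.t))) (K.s 396 (K.s 225 K.t (K.s 45 K.t K.t)) (K.s 54 K.t (K.s 54 K.t K.t)))))) (K.s 4593 (K.s 2448 (K.s 693 (K.s 468 (K.s 125 K.t (K.s 13 K.t K.t)) (K.s 99 K.t (K.s 81 K.t K.t))) (K.s 1332 (K.s 927 K.t (K.s 138 K.t K.t)) (K.s 93 K.t (K.s 285 K.t K.t)))) (K.s 1278 (K.s 495 (K.s 225 K.t (K.s 204 K.t K.t)) (K.s 294 K.t (K.s 111 K.t K.t))) (K.s 537 (K.s 117 K.t (K.s 207 K.t K.t)) (K.s 9 K.t (K.s 156 K.t K.t))))) (K.s 1941 (K.s 615 (K.s 285 (K.s 6 K.t (K.s 168 K.t K.t)) (K.s 47 K.t (K.s 178 K.t K.t))) (K.s 408 (K.s 210 K.t (K.s 144 K.t K.t)) (K.s 507 K.t (K.s 307 K.t K.t)))) (K.s 564 (K.s 270 (K.s 189 K.t (K.s 60 K.t K.t)) (K.s 36 K.t (K.s 108 K.t K.t))) (K.s 408 (K.s 21 K.t (K.s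 144 K.t K.t)) (K.s 1740 (K.s 1731 K.t K.t) (K.s 477 K.t K.t))))))))

/-- the class 192 -/
noncomputable def ke : K := K.s 11805 (K.s 6558 (K.s 3363 (K.s 1968 (K.s 1311 (K.s 915 (K.s 728 (K.s 519 (K.s 156 K.z K.t) (K.s 84 K.t K.t)) (K.s 76 K.t (K.s 12 K.t K.t))) (K.s 234 (K.s 3 K.t (K.s 168 K.t K.t)) (K.s 84 (K.s 44 K.t K.t) (K.s 60 K.t K.t)))) (K.s 356 (K.s 132 (K.s 27 K.t (K.s 90 K.t K.t)) (K.s 150 (K.s 125 K.t K.t) (K.s 15 K.t K.t))) (K.s 226 (K.s 40 K.t (K.s 166 K.t K.t)) (K.s 54 (K.s 30 K.t K.t) (K.s 12 K.t K.t))))) (K.s 696 (K.s 380 (K.s 231 (K.s 30 K.t (K.s 145 K.t K.t)) (K.s 124 (K.s 119 K.t K.t) (K.s 2 K.t K.t))) (K.s 169 (K.s 115 K.t (K.s 9 K.t K.t)) (K.s 81 (K.s 27 K.t K.t) (K.s 35 K.t K.t)))) (K.s 231 (K.s 74 (K.s 54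 K.t (K.s 15 K.t K.t)) (K.s 58 (K.s 40 K.t K.t) (K.s 18 K.t K.t))) (K.s 273 (K.s 81 K.t (K.s 7 K.t K.t)) (K.s 96 (K.s 11 K.t K.t) (K.s 48 K.t K.t)))))) (K.s 1863 (K.s 720 (K.s 405 (K.s 90 (K.s 60 K.t (K.s 15 K.t K.t)) (K.s 265 (K.s 90 K.t K.t) (K.s 35 K.t K.t))) (K.s 139 (K.s 18 K.t (K.s 102 K.t K.t)) (K.s 158 (K.s 121 K.t K.t) (K.s 11 K.t K.t)))) (K.s 540 (K.s 315 (K.s 60 K.t (K.s 192 K.t K.t)) (K.s 195 (K.s 135 K.t K.t) (K.s 8 K.t K.t))) (K.s 435 (K.s 90 K.t (K.s 69 K.t K.t)) (K.s 60 (K.s 54 K.t K.t) (K.s 45 K.t K.t))))) (K.s 594 (K.s 282 (K.s 117 (K.s 18 K.t (K.s 54 K.t K.t)) (K.s 36 (K.s 27 K.t K.t) (K.s 96 K.t K.t))) (K.s 159 (K.s 3 K.t (K.s 57 K.t K.t)) (K.s 99 (K.s 36 K.t K.t) (K.s 45 K.t K.t)))) (K.s 312 (K.s 68 (K.s 12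 K.t (K.s 6 K.t K.t)) (K.s 175 (K.s 139 K.t K.t) (K.s 45 K.t K.t))) (K.s 225 (K.s 180 K.t (K.s 41 K.t K.t)) (K.s 69 (K.s 21 K.t K.t) (K.s 99 K.t K.t))))))) (K.s 3230 (K.s 1890 (K.s 1290 (K.s 789 (K.s 315 (K.s 5 K.t (K.s 150 K.t K.t)) (K.s 130 K.t (K.s 50 K.t K.t))) (K.s 156 (K.s 11 K.t (K.s 49 K.t K.t)) (K.s 144 (K.s 117 K.t K.t) (K.s 81 K.t K.t)))) (K.s 312 (K.s 63 (K.s 45 K.t (K.s 15 K.t K.t)) (K.s 63 (K.s 42 K.t K.t) (K.s 69 K.t K.t))) (K.s 108 (K.s 41 K.t (K.s 40 K.t K.t)) (K.s 126 (K.s 105 K.t K.t) (K.s 9 K.t K.t))))) (K.s 891 (K.s 603 (K.s 90 (K.s 30 K.t (K.s 15 K.t K.t)) (K.s 297 (K.s 255 K.t K.t) (K.s 198 K.t K.t))) (K.s 167 (K.s 32 K.t (K.s 130 K.t K.t)) (K.s 58 (K.s 46 K.t K.t) (K.s 18 K.t K.t)))) (K.s 216 (K.s 134 (K.s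 4 K.t (K.s 59 K.t K.t)) (K.s 55 (K.s 25 K.t K.t) (K.s 15 K.t K.t))) (K.s 138 (K.s 36 K.t (K.s 27 K.t K.t)) (K.s 60 (K.s 45 K.t K.t) (K.s 27 K.t K.t)))))) (K.s 1027 (K.s 510 (K.s 268 (K.s 81 (K.s 20 K.t (K.s 35 K.t K.t)) (K.s 49 (K.s 44 K.t K.t) (K.s 105 K.t K.t))) (K.s 132 (K.s 12 K.t (K.s 45 K.t K.t)) (K.s 30 (K.s 24 K.t K.t) (K.s 48 K.t K.t)))) (K.s 220 (K.s 79 (K.s 55 K.t (K.s 15 K.t K.t)) (K.s 51 (K.s 6 K.t K.t) (K.s 45 K.t K.t))) (K.s 75 (K.s 54 K.t (K.s 6 K.t K.t)) (K.s 159 (K.s 78 K.t K.t) (K.s 36 K.t K.t))))) (K.s 477 (K.s 203 (K.s 90 (K.s 18 K.t (K.s 60 K.t K.t)) (K.s 63 (K.s 9 K.t K.t) (K.s 15 K.t K.t))) (K.s 105 (K.s 10 K.t (K.s 75 K.t K.t)) (K.s 106 (K.s 55 K.t K.t) (K.s 9 K.t K.t)))) (K.s 255 (K.s 144 (K.s 51 K.t (K.s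 75 K.t K.t)) (K.s 27 (K.s 17 K.t K.t) (K.s 45 K.t K.t))) (K.s 96 (K.s 60 K.t (K.s 33 K.t K.t)) (K.s 65 (K.s 55 K.t K.t) (K.s 85 K.t K.t)))))))) (K.s 5445 (K.s 2736 (K.s 1377 (K.s 528 (K.s 252 (K.s 99 (K.s 53 K.t (K.s 1 K.t K.t)) (K.s 99 K.t (K.s 45 K.t K.t))) (K.s 36 (K.s 5 K.t (K.s 18 K.t K.t)) (K.s 108 (K.s 30 K.t K.t) (K.s 42 K.t K.t)))) (K.s 282 (K.s 129 (K.s 30 K.t (K.s 90 K.t K.t)) (K.s 126 (K.s 27 K.t K.t) (K.s 5 K.t K.t))) (K.s 243 (K.s 48 K.t (K.s 60 K.t K.t)) (K.s 135 (K.s 39 K.t K.t) (K.s 99 K.t K.t))))) (K.s 801 (K.s 486 (K.s 243 (K.s 81 K.t (K.s 36 K.t K.t)) (K.s 153 (K.s 18 K.t K.t) (K.s 20 K.t K.t))) (K.s 216 (K.s 81 K.t (K.s 84 K.t K.t)) (K.s 54 (K.s 27 K.t K.t) (K.s 30 K.t K.t)))) (K.s 306 (K.s 81 (K.s 45 K.t (K.s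 15 K.t K.t)) (K.s 29 (K.s 9 K.t K.t) (K.s 22 K.t K.t))) (K.s 54 (K.s 9 K.t (K.s 24 K.t K.t)) (K.s 63 (K.s 54 K.t K.t) (K.s 72 K.t K.t)))))) (K.s 1287 (K.s 639 (K.s 261 (K.s 132 (K.s 27 K.t (K.s 54 K.t K.t)) (K.s 75 (K.s 48 K.t K.t) (K.s 45 K.t K.t))) (K.s 144 (K.s 81 K.t (K.s 18 K.t K.t)) (K.s 126 (K.s 27 K.t K.t) (K.s 21 K.t K.t)))) (K.s 288 (K.s 81 (K.s 63 K.t (K.s 15 K.t K.t)) (K.s 102 (K.s 17 K.t K.t) (K.s 6 K.t K.t))) (K.s 225 (K.s 63 K.t (K.s 87 K.t K.t)) (K.s 72 (K.s 15 K.t K.t) (K.s 18 K.t K.t))))) (K.s 675 (K.s 375 (K.s 210 (K.s 135 K.t (K.s 54 K.t K.t)) (K.s 78 (K.s 60 K.t K.t) (K.s 27 K.t K.t))) (K.s 120 (K.s 24 K.t (K.s 6 K.t K.t)) (K.s 45 (K.s 30 K.t K.t) (K.s 125 K.t K.t)))) (K.s 351 (K.s 120 (K.s 59 K.t (K.s 22 K.t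 K.t)) (K.s 150 (K.s 15 K.t K.t) (K.s 45 K.t K.t))) (K.s 189 (K.s 81 K.t (K.s 51 K.t K.t)) (K.s 108 (K.s 9 K.t K.t) (K.s 27 K.t K.t))))))) (K.s 2513 (K.s 1086 (K.s 468 (K.s 258 (K.s 153 (K.s 3 K.t (K.s 60 K.t K.t)) (K.s 45 (K.s 18 K.t K.t) (K.s 27 K.t K.t))) (K.s 105 (K.s 21 K.t (K.s 27 K.t K.t)) (K.s 45 (K.s 24 K.t K.t) (K.s 24 K.t K.t)))) (K.s 360 (K.s 189 (K.s 27 K.t (K.s 42 K.t K.t)) (K.s 63 (K.s 36 K.t K.t) (K.s 72 K.t K.t))) (K.s 75 (K.s 27 K.t (K.s 9 K.t K.t)) (K.s 90 (K.s 15 K.t K.t) (K.s 15 K.t K.t))))) (K.s 597 (K.s 192 (K.s 54 (K.s 12 K.t (K.s 37 K.t K.t)) (K.s 8 (K.s 3 K.t K.t) (K.s 7 K.t K.t))) (K.s 141 (K.s 15 K.t (K.s 99 K.t K.t)) (K.s 174 (K.s 57 K.t K.t) (K.s 45 K.t K.t)))) (K.s 569 (K.s 185 (K.s 1 K.t (K.s 44 K.t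 K.t)) (K.s 112 (K.s 100 K.t K.t) (K.s 63 K.t K.t))) (K.s 100 (K.s 43 K.t (K.s 35 K.t K.t)) (K.s 141 (K.s 90 K.t K.t) (K.s 15 K.t K.t)))))) (K.s 3904 (K.s 1582 (K.s 790 (K.s 331 (K.s 115 K.t (K.s 120 K.t K.t)) (K.s 279 (K.s 156 K.t K.t) (K.s 45 K.t K.t))) (K.s 315 (K.s 63 K.t (K.s 12 K.t K.t)) (K.s 63 (K.s 45 K.t K.t) (K.s 27 K.t K.t)))) (K.s 1449 (K.s 648 (K.s 153 K.t (K.s 90 K.t K.t)) (K.s 675 (K.s 195 K.t K.t) (K.s 27 K.t K.t))) (K.s 174 (K.s 27 K.t (K.s 81 K.t K.t)) (K.s 585 (K.s 420 K.t K.t) (K.s 10 K.t K.t))))) (K.s 2448 (K.s 1029 (K.s 638 (K.s 36 K.t (K.s 441 K.t K.t)) (K.s 352 (K.s 238 K.t K.t) (K.s 27 K.t K.t))) (K.s 813 (K.s 22 K.t (K.s 758 K.t K.t)) (K.s 444 (K.s 264 K.t K.t) (K.s 25 K.t K.t)))) (K.s 1728 (K.s 609 (K.s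 318 K.t (K.s 22 K.t K.t)) (K.s 184 (K.s 12 K.t K.t) (K.s 134 K.t K.t))) (K.s 360 (K.s 270 K.t (K.s 27 K.t K.t)) (K.s 351 (K.s 15 K.t K.t) (K.s 81 K.t K.t))))))))

theorem x0_eq : x0 = T.nd (T.lf (K.s 11310 ka kb)) (T.lf kc) := rfl

theorem x64_eq : x64 = T.nd (T.lf kd) (T.lf ke) := rfl

end Pool.Agent.U982.N15595
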