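import Pool.Agent.U982.N15595.Asm
import Pool.Agent.U982.N15595.Cover

set_option autoImplicit false
set_option maxRecDepth 100000
set_option exponentiation.threshold 1000000000

namespace Pool.Agent.U982.N15595

open Pool.Agent.U982.DK PowerSeries
open Pool.Agent.X40.SQ (EV newton mask)

open Pool.Agent.X40.SQ (q)

theorem whole : ∀ k m, 3 ≤ k → 3 ≤ m → k + m = 15595 →
    ¬ (q (Nat.totient k * Nat.totient m / 4) + 1).Prime := by
  refine final [tt] 15595 13 (by norm_num) ?_ cover
  intro t ht
  rw [List.mem_singleton] at ht
  rw [ht]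
  exact main1

end Pool.Agent.U982.N15595
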